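import Pool.Agent.Helper113.Gorin.Defs
import Pool.Agent.TH211.J173
import Pool.Agent.TH620.J174
import Pool.Agent.TH620.J176
import Pool.Agent.TH971.J175
import Pool.Agent.TH989.J177
import Pool.Agent.TH833.J178
import Pool.Agent.TH833.J179

set_option autoImplicit false

open Metric Set Topology H113G

namespace Pool.Agent.TH192.Gor

/-- Job A: existence of the finite branched covering of an irreducible affine algebraic set. -/
theorem exists_cov {m : ℕ} {Y : Set (Fin m → ℂ)} (hY : IsAlg Y) (hne : Y.Nonempty)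
    (hprime : ∀ P Q : MvPolynomial (Fin m) ℂ, (∀ y ∈ Y, MvPolynomial.eval y (P * Q) = 0) →
      (∀ y ∈ Y, MvPolynomial.eval y P = 0) ∨ (∀ y ∈ Y, MvPolynomial.eval y Q = 0)) :
    ∃ (k : ℕ) (pr : (Fin m → ℂ) → (Fin k → ℂ)) (δ : MvPolynomial (Fin k) ℂ) (e : ℕ),
      Cov Y pr δ e := Pool.Agent.TH211.J173.exists_cov hY hne hprime

/-- Job B: charts of a complex submanifold of affine space. -/
theorem hasCharts {m : ℕ} {Y : Set (Fin m → ℂ)} (hY : IsSmooth Y) : HasCharts Y :=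
  TH620J174.hasCharts hY

/-- Job C: uniform bound for countable basic constructible sets. -/
theorem uniform_bound (n d : ℕ) : ∃ B : ℕ, ∀ (S : Set (MvPolynomial (Fin n) ℂ))
    (q : MvPolynomial (Fin n) ℂ), (∀ P ∈ S, P.totalDegree ≤ d) → q.totalDegree ≤ d →
    {x : Fin n → ℂ | (∀ P ∈ S, MvPolynomial.eval x P = 0) ∧
      MvPolynomial.eval x q ≠ 0}.Countable →
    {x : Fin n → ℂ | (∀ P ∈ S, MvPolynomial.eval x P = 0) ∧
      MvPolynomial.eval x q ≠ 0}.encard ≤ (B : ℕ∞) :=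
  Pool.Agent.TH971.GorC.uniform_bound n d

/-- Job D: the part of the covering over a complex line through the origin has finite rank. -/
theorem slice_finiteRank {m k : ℕ} {Y : Set (Fin m → ℂ)} {pr : (Fin m → ℂ) → (Fin k → ℂ)}
    {δ : MvPolynomial (Fin k) ℂ} {e : ℕ} (h : Cov Y pr δ e) (v : Fin k → ℂ) :
    ∃ s : ℕ, FiniteRank {y : Fin m → ℂ | y ∈ Y ∧ ∃ t : ℂ, pr y = t • v ∧
      MvPolynomial.eval (t • v) δ ≠ 0} s := TH620J176.slice_finiteRank h v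

/-- Job E: the zeros of `t ↦ δ (t v)` are stable for `v` outside a hypersurface. -/
theorem exists_rootStable {k : ℕ} (δ : MvPolynomial (Fin k) ℂ)
    (h0 : MvPolynomial.eval (0 : Fin k → ℂ) δ ≠ 0) :
    ∃ Δ : MvPolynomial (Fin k) ℂ, Δ ≠ 0 ∧
      ∀ v : Fin k → ℂ, MvPolynomial.eval v Δ ≠ 0 → RootStable δ v :=
  Pool.Agent.TH989.J177.exists_rootStable δ h0

/-- Job F1: identity theorem. -/
theorem identity {m : ℕ} {Y : Set (Fin m → ℂ)} (hc : HasCharts Y) (hconn : IsConnected Y)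
    {u : (Fin m → ℂ) → ℂ} (hu : HolOn Y u) {V : Set (Fin m → ℂ)} (hV : IsOpen V)
    (hne : (Y ∩ V).Nonempty) (h0 : ∀ y ∈ Y ∩ V, u y = 0) : ∀ y ∈ Y, u y = 0 :=
  Pool.Agent.TH833.Gor.identity hc hconn hu hV hne h0

/-- Job F2: a continuous logarithm extends across the zero set of a holomorphic function. -/
theorem extend_log {m : ℕ} {Y : Set (Fin m → ℂ)} (hc : HasCharts Y) (hconn : IsConnected Y)
    {F : (Fin m → ℂ) → ℂ} (hF : HolOn Y F) (hF0 : ∃ y ∈ Y, F y ≠ 0)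
    {g : (Fin m → ℂ) → ℂ} (hg : ContinuousOn g Y) (hg0 : ∀ y ∈ Y, g y ≠ 0)
    (hlog : HasLog {y | y ∈ Y ∧ F y ≠ 0} g) : HasLog Y g :=
  Pool.Agent.TH833.Gor.extend_log hc hconn hF hF0 hg hg0 hlog

/-- Job G: the covering of logarithms. -/
theorem covering {m k ρ : ℕ} {Y : Set (Fin m → ℂ)} {pr : (Fin m → ℂ) → (Fin k → ℂ)}
    {δ : MvPolynomial (Fin k) ℂ} {e : ℕ} (h : Cov Y pr δ e)
    (g : Fin ρ → (Fin m → ℂ) → ℂ) (hg : ∀ i, ContinuousOn (g i) Y)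
    (hg0 : ∀ i, ∀ y ∈ Y, g i y ≠ 0) :
    IsCoveringMap (fun w : {w : (Fin m → ℂ) × (Fin ρ → ℂ) // w.1 ∈ Y ∧
      MvPolynomial.eval (pr w.1) δ ≠ 0 ∧ ∀ i, Complex.exp (w.2 i) = g i w.1} =>
      (⟨pr w.1.1, w.2.2.1⟩ : Sp δ)) :=
  Pool.Agent.TH833.Gor.covering h g hg hg0

end Pool.Agent.TH192.Gor
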