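import Pool.Agent.TH192.Gor.Zan
import Pool.Agent.TH192.Gor.Jobs

/-!
# Uniform bound for the number of exponent vectors
-/

set_option autoImplicit false

open Metric Set Topology H113G

namespace Pool.Agent.TH192.Gor

open MvPolynomial in
/-- the linear form `∑ a_j w_j` (in the first block of variables) -/
noncomputable def linA {ρ : ℕ} (w : Fin ρ → ℂ) : MvPolynomial (Fin (ρ + ρ)) ℂ :=
  ∑ j, X (Fin.castAdd ρ j) * C (w j)

open MvPolynomial in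
/-- the linear form `∑ b_j w_j` (in the second block of variables) -/
noncomputable def linB {ρ : ℕ} (w : Fin ρ → ℂ) : MvPolynomial (Fin (ρ + ρ)) ℂ :=
  ∑ j, X (Fin.natAdd ρ j) * C (w j)

lemma deg_linA {ρ : ℕ} (w : Fin ρ → ℂ) : (linA w).totalDegree ≤ 1 := by
  refine MvPolynomial.totalDegree_finsetSum_le fun j _ => ?_
  refine (MvPolynomial.totalDegree_mul _ _).trans ?_
  rw [MvPolynomial.totalDegree_X, MvPolynomial.totalDegree_C]

lemma deg_linB {ρ : ℕ} (w : Fin ρ → ℂ) : (linB w).totalDegree ≤ 1 := by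
  refine MvPolynomial.totalDegree_finsetSum_le fun j _ => ?_
  refine (MvPolynomial.totalDegree_mul _ _).trans ?_
  rw [MvPolynomial.totalDegree_X, MvPolynomial.totalDegree_C]

lemma eval_linA {ρ : ℕ} (w : Fin ρ → ℂ) (x : Fin (ρ + ρ) → ℂ) :
    MvPolynomial.eval x (linA w) = ∑ j, x (Fin.castAdd ρ j) * w j := by
  simp [linA]

lemma eval_linB {ρ : ℕ} (w : Fin ρ → ℂ) (x : Fin (ρ + ρ) → ℂ) :
    MvPolynomial.eval x (linB w) = ∑ j, x (Fin.natAdd ρ j) * w j := by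
  simp [linB]

/-- the cubic as a polynomial -/
noncomputable def cubP {ρ : ℕ} (w w' : Fin ρ → ℂ) : MvPolynomial (Fin (ρ + ρ)) ℂ :=
  linB w * linA w' - linA w * linB w' - linA w * linB w * (linB w - linA w)

lemma eval_cubP {ρ : ℕ} (w w' : Fin ρ → ℂ) (x : Fin (ρ + ρ) → ℂ) :
    MvPolynomial.eval x (cubP w w') =
      cub (fun j => x (Fin.castAdd ρ j)) (fun j => x (Fin.natAdd ρ j)) w w' := by
  simp only [cubP, cub, map_sub, map_mul, eval_linA, eval_linB]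

lemma deg_mul_le {ρ a b : ℕ} {P Q : MvPolynomial (Fin ρ) ℂ} (hP : P.totalDegree ≤ a)
    (hQ : Q.totalDegree ≤ b) : (P * Q).totalDegree ≤ a + b :=
  (MvPolynomial.totalDegree_mul _ _).trans (add_le_add hP hQ)

lemma deg_sub_le {ρ a : ℕ} {P Q : MvPolynomial (Fin ρ) ℂ} (hP : P.totalDegree ≤ a)
    (hQ : Q.totalDegree ≤ a) : (P - Q).totalDegree ≤ a :=
  (MvPolynomial.totalDegree_sub _ _).trans (max_le hP hQ)

lemma deg_cubP {ρ : ℕ} (w w' : Fin ρ → ℂ) : (cubP w w').totalDegree ≤ 3 := by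
  unfold cubP
  refine deg_sub_le (deg_sub_le ?_ ?_) ?_
  · exact (deg_mul_le (deg_linB w) (deg_linA w')).trans (by norm_num)
  · exact (deg_mul_le (deg_linA w) (deg_linB w')).trans (by norm_num)
  · exact (deg_mul_le (deg_mul_le (deg_linA w) (deg_linB w))
      (deg_sub_le (deg_linB w) (deg_linA w))).trans (by norm_num)

open MvPolynomial in
/-- the non-vanishing condition -/
noncomputable def qP {ρ : ℕ} (i j l : Fin ρ) : MvPolynomial (Fin (ρ + ρ)) ℂ :=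
  X (Fin.castAdd ρ i) * X (Fin.natAdd ρ j) * (X (Fin.castAdd ρ l) - X (Fin.natAdd ρ l))

lemma deg_qP {ρ : ℕ} (i j l : Fin ρ) : (qP i j l).totalDegree ≤ 3 := by
  unfold qP
  have h1 : ∀ i : Fin (ρ + ρ), (MvPolynomial.X i : MvPolynomial (Fin (ρ + ρ)) ℂ).totalDegree ≤ 1 :=
    fun i => (MvPolynomial.totalDegree_X i).le
  exact (deg_mul_le (deg_mul_le (h1 _) (h1 _)) (deg_sub_le (h1 _) (h1 _))).trans (by norm_num)

lemma eval_qP {ρ : ℕ} (i j l : Fin ρ) (x : Fin (ρ + ρ) → ℂ) :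
    MvPolynomial.eval x (qP i j l) =
      x (Fin.castAdd ρ i) * x (Fin.natAdd ρ j) * (x (Fin.castAdd ρ l) - x (Fin.natAdd ρ l)) := by
  simp [qP]

theorem bound_W (ρ : ℕ) : ∃ B : ℕ, ∀ 𝒲 : Set ((Fin ρ → ℂ) × (Fin ρ → ℂ)),
    {ab : (Fin ρ → ℂ) × (Fin ρ → ℂ) | ab.1 ≠ 0 ∧ ab.2 ≠ 0 ∧ ab.1 ≠ ab.2 ∧
      ∀ w ∈ 𝒲, cub ab.1 ab.2 w.1 w.2 = 0}.Countable →
    {ab : (Fin ρ → ℂ) × (Fin ρ → ℂ) | ab.1 ≠ 0 ∧ ab.2 ≠ 0 ∧ ab.1 ≠ ab.2 ∧
      ∀ w ∈ 𝒲, cub ab.1 ab.2 w.1 w.2 = 0}.encard ≤ (B : ℕ∞) := by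
  obtain ⟨B, hB⟩ := uniform_bound (ρ + ρ) 3
  refine ⟨Fintype.card (Fin ρ × Fin ρ × Fin ρ) * B, fun 𝒲 hW => ?_⟩
  set W := {ab : (Fin ρ → ℂ) × (Fin ρ → ℂ) | ab.1 ≠ 0 ∧ ab.2 ≠ 0 ∧ ab.1 ≠ ab.2 ∧
      ∀ w ∈ 𝒲, cub ab.1 ab.2 w.1 w.2 = 0} with hWdef
  set S : Set (MvPolynomial (Fin (ρ + ρ)) ℂ) := (fun w => cubP w.1 w.2) '' 𝒲 with hS
  let V : Fin ρ × Fin ρ × Fin ρ → Set (Fin (ρ + ρ) → ℂ) := fun p =>
    {x | (∀ P ∈ S, MvPolynomial.eval x P = 0) ∧ MvPolynomial.eval x (qP p.1 p.2.1 p.2.2) ≠ 0}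
  let φ : (Fin (ρ + ρ) → ℂ) → (Fin ρ → ℂ) × (Fin ρ → ℂ) := fun x =>
    (fun j => x (Fin.castAdd ρ j), fun j => x (Fin.natAdd ρ j))
  have hφi : Function.Injective φ := by
    intro x y hxy
    funext i
    refine Fin.addCases (fun j => ?_) (fun j => ?_) i
    · exact congr_fun (congrArg Prod.fst hxy) j
    · exact congr_fun (congrArg Prod.snd hxy) j
  have hφs : ∀ ab : (Fin ρ → ℂ) × (Fin ρ → ℂ), φ (Fin.append ab.1 ab.2) = ab := by
    intro ab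
    refine Prod.ext ?_ ?_
    · funext j
      exact Fin.append_left ab.1 ab.2 j
    · funext j
      exact Fin.append_right ab.1 ab.2 j
  have hVS : ∀ x, (∀ P ∈ S, MvPolynomial.eval x P = 0) ↔
      ∀ w ∈ 𝒲, cub (φ x).1 (φ x).2 w.1 w.2 = 0 := by
    intro x
    constructor
    · intro h w hw
      rw [← h _ ⟨w, hw, rfl⟩, eval_cubP]
    · rintro h _ ⟨w, hw, rfl⟩
      rw [eval_cubP]
      exact h w hw
  have hVW : ∀ p, φ '' V p ⊆ W := by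
    rintro p _ ⟨x, ⟨hx1, hx2⟩, rfl⟩
    rw [eval_qP] at hx2
    have h1 := left_ne_zero_of_mul hx2
    have h2 := right_ne_zero_of_mul hx2
    refine ⟨fun h => left_ne_zero_of_mul h1 (congr_fun h p.1),
      fun h => right_ne_zero_of_mul h1 (congr_fun h p.2.1),
      fun h => h2 (sub_eq_zero.2 (congr_fun h p.2.2)), (hVS x).1 hx1⟩
  have hVc : ∀ p, (V p).Countable := fun p =>
    Set.countable_of_injective_of_countable_image hφi.injOn (hW.mono (hVW p))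
  have hVB : ∀ p, (V p).encard ≤ (B : ℕ∞) := by
    intro p
    refine hB S (qP p.1 p.2.1 p.2.2) ?_ (deg_qP _ _ _) (hVc p)
    rintro _ ⟨w, -, rfl⟩
    exact deg_cubP _ _
  have hsub : W ⊆ ⋃ p, φ '' V p := by
    rintro ab ⟨ha, hb, hab, hE⟩
    obtain ⟨i, hi⟩ := Function.ne_iff.1 ha
    obtain ⟨j, hj⟩ := Function.ne_iff.1 hb
    obtain ⟨l, hl⟩ := Function.ne_iff.1 hab
    refine Set.mem_iUnion.2 ⟨(i, j, l), Fin.append ab.1 ab.2, ⟨?_, ?_⟩, hφs ab⟩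
    · rw [hVS, hφs]
      exact hE
    · rw [eval_qP, Fin.append_left, Fin.append_left, Fin.append_right, Fin.append_right]
      exact mul_ne_zero (mul_ne_zero hi hj) (sub_ne_zero.2 hl)
  calc W.encard ≤ (⋃ p, φ '' V p).encard := Set.encard_le_encard hsub
    _ ≤ ∑ p, (φ '' V p).encard := Set.encard_iUnion_le_of_fintype _
    _ ≤ ∑ _p : Fin ρ × Fin ρ × Fin ρ, (B : ℕ∞) := Finset.sum_le_sum fun p _ =>
        (Set.encard_image_le _ _).trans (hVB p)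
    _ = ((Fintype.card (Fin ρ × Fin ρ × Fin ρ) * B : ℕ) : ℕ∞) := by
        rw [Finset.sum_const, Finset.card_univ, nsmul_eq_mul]
        push_cast
        rfl

end Pool.Agent.TH192.Gor
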