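import Pool.Agent.TH192.Gor.WL

/-!
# Finite rank of the group of continuous invertible functions modulo exponentials
-/

set_option autoImplicit false

open Metric Set Topology H113G

namespace Pool.Agent.TH192.Gor

lemma differentiable_eval {k : ℕ} (P : MvPolynomial (Fin k) ℂ) :
    Differentiable ℂ (fun z : Fin k → ℂ => MvPolynomial.eval z P) := fun z =>
  (AnalyticOnNhd.eval_mvPolynomial P z (Set.mem_univ _)).differentiableAt

lemma holOn_of_differentiable {m : ℕ} (Y : Set (Fin m → ℂ)) {u : (Fin m → ℂ) → ℂ}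
    (hu : Differentiable ℂ u) : HolOn Y u := fun _ _ =>
  ⟨Set.univ, isOpen_univ, Set.mem_univ _, u, hu.differentiableOn, fun _ _ _ => rfl⟩

lemma prime_of_identity {m : ℕ} {Y : Set (Fin m → ℂ)} (hc : HasCharts Y)
    (hconn : IsConnected Y) (P Q : MvPolynomial (Fin m) ℂ)
    (h : ∀ y ∈ Y, MvPolynomial.eval y (P * Q) = 0) :
    (∀ y ∈ Y, MvPolynomial.eval y P = 0) ∨ (∀ y ∈ Y, MvPolynomial.eval y Q = 0) := by
  by_cases hP : ∀ y ∈ Y, MvPolynomial.eval y P = 0
  · exact Or.inl hP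
  · push Not at hP
    obtain ⟨y0, hy0, hP0⟩ := hP
    right
    refine identity hc hconn (holOn_of_differentiable Y (differentiable_eval Q))
      (V := {y | MvPolynomial.eval y P ≠ 0}) ?_ ⟨y0, hy0, hP0⟩ ?_
    · exact (isClosed_singleton.preimage (continuous_eval' P)).isOpen_compl
    · rintro y ⟨hy, hyP⟩
      have := h y hy
      rw [map_mul] at this
      exact (mul_eq_zero.1 this).resolve_left hyP

theorem finiteRank_of_cov {m k : ℕ} {Y : Set (Fin m → ℂ)} (hc : HasCharts Y)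
    (hconn : IsConnected Y) {pr : (Fin m → ℂ) → (Fin k → ℂ)}
    {δ : MvPolynomial (Fin k) ℂ} {e : ℕ} (h : Cov Y pr δ e) : ∃ s, FiniteRank Y s := by
  obtain ⟨Δ, hΔ0, hΔ⟩ := exists_rootStable δ h.base
  obtain ⟨v₁, hv₁⟩ : ∃ v : Fin k → ℂ, MvPolynomial.eval v Δ ≠ 0 := by
    by_contra hcon
    push Not at hcon
    exact hΔ0 (MvPolynomial.funext fun x => by rw [hcon, map_zero])
  obtain ⟨s, hs⟩ := slice_finiteRank h v₁
  refine ⟨s, fun g hg hg0 => ?_⟩
  have hSY : {y : Fin m → ℂ | y ∈ Y ∧ ∃ t : ℂ, pr y = t • v₁ ∧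
      MvPolynomial.eval (t • v₁) δ ≠ 0} ⊆ Y := fun y hy => hy.1
  obtain ⟨a, ha, hlog⟩ := hs g (fun l => (hg l).mono hSY) (fun l y hy => hg0 l y (hSY hy))
  refine ⟨a, ha, ?_⟩
  have hfc : ContinuousOn (fun y => ∏ l, g l y ^ a l) Y := by
    refine continuousOn_finsetProd _ fun l _ => ?_
    exact (hg l).zpow₀ (a l) fun y hy => Or.inl (hg0 l y hy)
  have hf0 : ∀ y ∈ Y, ∏ l, g l y ^ a l ≠ 0 := fun y hy =>
    Finset.prod_ne_zero_iff.2 fun l _ => zpow_ne_zero _ (hg0 l y hy)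
  have h1 := hasLog_of_slice h hfc hf0 hΔ hv₁ hlog
  have hF : HolOn Y (fun y => MvPolynomial.eval (pr y) δ) :=
    holOn_of_differentiable Y ((differentiable_eval δ).comp h.diff)
  obtain ⟨y1, hy1, hy1'⟩ := h.dominant δ (by
    rintro rfl
    exact h.base (by simp))
  exact extend_log hc hconn hF ⟨y1, hy1, hy1'⟩ hfc hf0 h1

theorem exists_finiteRank {m : ℕ} {Y : Set (Fin m → ℂ)} (hY : IsAlg Y) (hs : IsSmooth Y)
    (hconn : IsConnected Y) : ∃ s, FiniteRank Y s := by
  have hc := hasCharts hs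
  obtain ⟨k, pr, δ, e, h⟩ := exists_cov hY hconn.nonempty (prime_of_identity hc hconn)
  exact finiteRank_of_cov hc hconn h

theorem finiteRank_congr {m n : ℕ} {X : Set (Fin n → ℂ)} {Y : Set (Fin m → ℂ)}
    (φ : X ≃ₜ Y) {s : ℕ} (h : FiniteRank X s) : FiniteRank Y s := by
  classical
  intro g hg hg0
  let g' : Fin (s + 1) → (Fin n → ℂ) → ℂ := fun l x =>
    if hx : x ∈ X then g l (φ ⟨x, hx⟩) else 1
  have hg' : ∀ l (x : X), g' l x = g l (φ x) := fun l x => dif_pos x.2
  obtain ⟨a, ha, L, hLc, hL⟩ := h g' (fun l => by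
      rw [continuousOn_iff_continuous_domRestrict]
      have h1 : X.domRestrict (g' l) = (Y.domRestrict (g l)) ∘ φ := by
        funext x
        simp only [Set.domRestrict_apply, Function.comp]
        exact hg' l x
      rw [h1]
      exact (continuousOn_iff_continuous_domRestrict.1 (hg l)).comp φ.continuous) (fun l x hx => by
      rw [show g' l x = g l (φ ⟨x, hx⟩) from hg' l ⟨x, hx⟩]
      exact hg0 l _ (φ ⟨x, hx⟩).2)
  refine ⟨a, ha, fun y => if hy : y ∈ Y then L (φ.symm ⟨y, hy⟩) else 0, ?_, ?_⟩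
  · rw [continuousOn_iff_continuous_domRestrict]
    have h1 : Y.domRestrict (fun y => if hy : y ∈ Y then L (φ.symm ⟨y, hy⟩) else 0) =
        (X.domRestrict L) ∘ φ.symm := by
      funext y
      simp only [Set.domRestrict_apply, Function.comp]
      exact dif_pos y.2
    rw [h1]
    exact (continuousOn_iff_continuous_domRestrict.1 hLc).comp φ.symm.continuous
  · intro y hy
    simp only [dif_pos hy]
    rw [hL _ (φ.symm ⟨y, hy⟩).2]
    refine Finset.prod_congr rfl fun l _ => ?_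
    rw [hg' l (φ.symm ⟨y, hy⟩), φ.apply_symm_apply]

end Pool.Agent.TH192.Gor
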