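import Pool.Agent.TH192.Gor.Core
import Pool.Agent.TH192.Gor.Count
import Pool.Agent.TH192.Gor.Rank

/-!
# Uniform bound for the number of maps to the twice punctured plane
-/

set_option autoImplicit false

open Metric Set Topology H113G

namespace Pool.Agent.TH192.Gor

theorem core {m k : ℕ} {Y : Set (Fin m → ℂ)} {pr : (Fin m → ℂ) → (Fin k → ℂ)}
    {δ : MvPolynomial (Fin k) ℂ} {e : ℕ} (h : Cov Y pr δ e) (hc : HasCharts Y)
    (hconn : IsConnected Y) {S : ℕ} (hS : FiniteRank Y S) {N : ℕ}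
    {f : Fin N → (Fin m → ℂ) → ℂ} (hf : ∀ j, Om Y (f j))
    (hnc : ∀ j, ∃ y ∈ Y, ∃ y' ∈ Y, f j y ≠ f j y')
    (hd : ∀ i j, i ≠ j → ∃ y ∈ Y, f i y ≠ f j y) :
    ∃ ρ ≤ S, ∃ 𝒲 : Set ((Fin ρ → ℂ) × (Fin ρ → ℂ)),
      {ab : (Fin ρ → ℂ) × (Fin ρ → ℂ) | ab.1 ≠ 0 ∧ ab.2 ≠ 0 ∧ ab.1 ≠ ab.2 ∧
        ∀ w ∈ 𝒲, cub ab.1 ab.2 w.1 w.2 = 0}.Countable ∧
      (N : ℕ∞) ≤ {ab : (Fin ρ → ℂ) × (Fin ρ → ℂ) | ab.1 ≠ 0 ∧ ab.2 ≠ 0 ∧ ab.1 ≠ ab.2 ∧
        ∀ w ∈ 𝒲, cub ab.1 ab.2 w.1 w.2 = 0}.encard := by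
  classical
  obtain ⟨r, s, hr, hs, hsY, hsn⟩ := exists_sheet h
  let U : (Fin N × Fin N) ⊕ Fin N → (Fin m → ℂ) → ℂ :=
    Sum.elim (fun p y => if p.1 = p.2 then 1 else f p.1 y - f p.2 y)
      (fun j y => f j y - f j (s 0))
  have hU : ∀ i, HolOn Y (U i) := by
    rintro (⟨i, j⟩ | j)
    · by_cases hij : i = j
      · have : U (Sum.inl (i, j)) = fun _ => 1 := by
          funext y
          simp [U, hij]
        rw [this]
        exact HolOn.one Y
      · have : U (Sum.inl (i, j)) = fun y => f i y - f j y := by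
          funext y
          simp [U, hij]
        rw [this]
        exact HolOn.sub (hf i).hol (hf j).hol
    · exact HolOn.sub (hf j).hol (holOn_const _)
  have hU0 : ∀ i, ∃ y ∈ Y, U i y ≠ 0 := by
    rintro (⟨i, j⟩ | j)
    · by_cases hij : i = j
      · obtain ⟨y, hy⟩ := hconn.nonempty
        refine ⟨y, hy, ?_⟩
        simp [U, hij]
      · obtain ⟨y, hy, hne⟩ := hd i j hij
        refine ⟨y, hy, ?_⟩
        simp only [U, Sum.elim_inl, hij, if_false]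
        exact sub_ne_zero.2 hne
    · obtain ⟨y, hy, y', hy', hne⟩ := hnc j
      by_cases h1 : f j y = f j (s 0)
      · refine ⟨y', hy', ?_⟩
        simp only [U, Sum.elim_inr]
        refine sub_ne_zero.2 fun h2 => hne ?_
        rw [h1, h2]
      · exact ⟨y, hy, sub_ne_zero.2 h1⟩
  obtain ⟨z, hz, hzU⟩ := exists_good_point h hc hconn hr hs hsY hsn U hU hU0
  -- the line
  set D : Set ℂ := {t | t • z ∈ ball (0 : Fin k → ℂ) r} with hD
  have hcz : Continuous (fun t : ℂ => t • z) := by fun_prop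
  have hDo : IsOpen D := isOpen_ball.preimage hcz
  have hDconv : Convex ℝ D := by
    intro a ha b hb x y hx hy hxy
    have h1 := (convex_ball (0 : Fin k → ℂ) r) ha hb hx hy hxy
    change (x • a + y • b) • z ∈ ball (0 : Fin k → ℂ) r
    rw [add_smul, smul_assoc, smul_assoc]
    exact h1
  have h0D : (0 : ℂ) ∈ D := by
    change (0 : ℂ) • z ∈ ball (0 : Fin k → ℂ) r
    rw [zero_smul]
    exact mem_ball_self hr
  have h1D : (1 : ℂ) ∈ D := by
    change (1 : ℂ) • z ∈ ball (0 : Fin k → ℂ) r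
    rw [one_smul]
    exact hz
  refine core_line h hS hf (v := z) (σ := fun t => s (t • z)) hDo hDconv.isPreconnected
    (hs.comp (by fun_prop) fun t ht => ht)
    (fun t ht => ⟨(hsY _ ht).2.1, (hsY _ ht).2.2⟩) h0D h1D ?_ ?_
  · intro i j hij
    have h1 := hzU (Sum.inl (i, j))
    simp only [U, Sum.elim_inl, hij, if_false] at h1
    simp only [one_smul]
    exact sub_ne_zero.1 h1
  · intro j
    have h1 := hzU (Sum.inr j)
    simp only [U, Sum.elim_inr] at h1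
    simp only [one_smul, zero_smul]
    exact sub_ne_zero.1 h1

/-- the main bound for a variety of bounded rank -/
theorem main_bound (S : ℕ) : ∃ B : ℕ, ∀ (m : ℕ) (Y : Set (Fin m → ℂ)), IsAlg Y → IsSmooth Y →
    IsConnected Y → FiniteRank Y S → ∀ (N : ℕ) (f : Fin N → (Fin m → ℂ) → ℂ),
      (∀ j, Om Y (f j)) → (∀ j, ∃ y ∈ Y, ∃ y' ∈ Y, f j y ≠ f j y') →
      (∀ i j, i ≠ j → ∃ y ∈ Y, f i y ≠ f j y) → N ≤ B := by
  choose B hB using bound_W
  refine ⟨∑ ρ ∈ Finset.range (S + 1), B ρ, ?_⟩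
  intro m Y hY hsm hconn hS N f hf hnc hd
  have hc := hasCharts hsm
  obtain ⟨k, pr, δ, e, h⟩ := exists_cov hY hconn.nonempty (prime_of_identity hc hconn)
  obtain ⟨ρ, hρ, 𝒲, h1, h2⟩ := core h hc hconn hS hf hnc hd
  have h3 : (N : ℕ∞) ≤ (B ρ : ℕ∞) := h2.trans (hB ρ 𝒲 h1)
  have h4 : N ≤ B ρ := by exact_mod_cast h3
  refine h4.trans ?_
  exact Finset.single_le_sum (f := B) (fun _ _ => Nat.zero_le _)
    (Finset.mem_range.2 (Nat.lt_succ_of_le hρ))

end Pool.Agent.TH192.Gor
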