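import Pool.Agent.TH192.Gor.Ends

/-!
# Functions with single-valued logarithm on the component are bounded on it
-/

set_option autoImplicit false

open Metric Set Topology H113G

namespace Pool.Agent.TH192.Gor

lemma HolOn.one {m : ℕ} (Y : Set (Fin m → ℂ)) : HolOn Y (fun _ => 1) := fun _ _ =>
  ⟨Set.univ, isOpen_univ, Set.mem_univ _, fun _ => 1, differentiableOn_const _, fun _ _ _ => rfl⟩

lemma HolOn.mul {m : ℕ} {Y : Set (Fin m → ℂ)} {u w : (Fin m → ℂ) → ℂ} (hu : HolOn Y u)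
    (hw : HolOn Y w) : HolOn Y (fun y => u y * w y) := by
  intro p hp
  obtain ⟨U, hU, hpU, h, hd, he⟩ := hu p hp
  obtain ⟨U', hU', hpU', h', hd', he'⟩ := hw p hp
  refine ⟨U ∩ U', hU.inter hU', ⟨hpU, hpU'⟩, fun y => h y * h' y,
    (hd.mono inter_subset_left).mul (hd'.mono inter_subset_right), ?_⟩
  intro y hy hyU
  simp only
  rw [he y hy hyU.1, he' y hy hyU.2]

lemma HolOn.sub {m : ℕ} {Y : Set (Fin m → ℂ)} {u w : (Fin m → ℂ) → ℂ} (hu : HolOn Y u)
    (hw : HolOn Y w) : HolOn Y (fun y => u y - w y) := by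
  intro p hp
  obtain ⟨U, hU, hpU, h, hd, he⟩ := hu p hp
  obtain ⟨U', hU', hpU', h', hd', he'⟩ := hw p hp
  refine ⟨U ∩ U', hU.inter hU', ⟨hpU, hpU'⟩, fun y => h y - h' y,
    (hd.mono inter_subset_left).sub (hd'.mono inter_subset_right), ?_⟩
  intro y hy hyU
  simp only
  rw [he y hy hyU.1, he' y hy hyU.2]

lemma HolOn.zpow {m : ℕ} {Y : Set (Fin m → ℂ)} {u : (Fin m → ℂ) → ℂ} (hu : HolOn Y u)
    (hu0 : ∀ y ∈ Y, u y ≠ 0) (n : ℤ) : HolOn Y (fun y => u y ^ n) := by
  intro p hp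
  obtain ⟨U, hU, hpU, h, hd, he⟩ := hu p hp
  have h1 : IsOpen (U ∩ h ⁻¹' {0}ᶜ) := hd.continuousOn.isOpen_inter_preimage hU
    isOpen_compl_singleton
  refine ⟨U ∩ h ⁻¹' {0}ᶜ, h1, ⟨hpU, ?_⟩, fun y => h y ^ n, ?_, ?_⟩
  · change h p ≠ 0
    rw [he p hp hpU]
    exact hu0 p hp
  · exact (hd.mono inter_subset_left).zpow (Or.inl fun y hy => hy.2)
  · intro y hy hyU
    simp only
    rw [he y hy hyU.1]

lemma HolOn.prod {m n : ℕ} {Y : Set (Fin m → ℂ)} {u : Fin n → (Fin m → ℂ) → ℂ}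
    (hu : ∀ j, HolOn Y (u j)) (s : Finset (Fin n)) : HolOn Y (fun y => ∏ j ∈ s, u j y) := by
  classical
  induction s using Finset.induction_on with
  | empty =>
    simp only [Finset.prod_empty]
    exact HolOn.one Y
  | insert a s ha ih =>
    simp only [Finset.prod_insert ha]
    exact HolOn.mul (hu a) ih

variable {m k ρ : ℕ} {Y : Set (Fin m → ℂ)} {pr : (Fin m → ℂ) → (Fin k → ℂ)}
  {δ : MvPolynomial (Fin k) ℂ} {e : ℕ} {g : Fin ρ → (Fin m → ℂ) → ℂ}

lemma holOn_prod (hg : ∀ j, HolOn Y (g j)) (hg0 : ∀ j, ∀ y ∈ Y, g j y ≠ 0) (a : Fin ρ → ℤ) :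
    HolOn Y (fun y => ∏ j, g j y ^ a j) :=
  HolOn.prod (fun j => HolOn.zpow (hg j) (hg0 j) (a j)) Finset.univ

lemma prod_ne (hg0 : ∀ j, ∀ y ∈ Y, g j y ≠ 0) (a : Fin ρ → ℤ) :
    ∀ y ∈ Y, ∏ j, g j y ^ a j ≠ 0 := fun y hy =>
  Finset.prod_ne_zero_iff.2 fun j _ => zpow_ne_zero _ (hg0 j y hy)

lemma exp_sum_TL {v : Fin k → ℂ} {x : ℂ × ((Fin m → ℂ) × (Fin ρ → ℂ))}
    (hx : x ∈ TL Y pr δ g v) (a : Fin ρ → ℤ) :
    Complex.exp (∑ j, a j * x.2.2 j) = ∏ j, g j x.2.1 ^ a j := by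
  rw [Complex.exp_sum]
  refine Finset.prod_congr rfl fun j _ => ?_
  rw [Complex.exp_int_mul, hx.2.2.2 j]

theorem bounded_Comp (h : Cov Y pr δ e) (hg : ∀ j, HolOn Y (g j))
    (hg0 : ∀ j, ∀ y ∈ Y, g j y ≠ 0)
    {v : Fin k → ℂ} {x0 : ℂ × ((Fin m → ℂ) × (Fin ρ → ℂ))} (hx0 : x0 ∈ TL Y pr δ g v)
    (a : Fin ρ → ℤ)
    (hker : ∀ n : Fin ρ → ℤ, tau m n x0 ∈ Comp Y pr δ g v x0 → ∑ j, a j * n j = 0)
    (hU : PolyGro Y (fun y => ∏ j, g j y ^ a j)) :
    ∃ M : ℝ, ∀ x ∈ Comp Y pr δ g v x0, ‖∏ j, g j x.2.1 ^ a j‖ ≤ M := by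
  have hgc : ∀ j, ContinuousOn (g j) Y := fun j => HolOn.continuousOn (hg j)
  obtain ⟨Z, hZf, hZ⟩ := exists_c h.base v
  -- the constant `c`
  obtain ⟨c, hc⟩ : ∃ c : ℝ, ∀ s : ℂ, c < s.re → MvPolynomial.eval (Complex.exp s • v) δ ≠ 0 := by
    obtain ⟨R, hR⟩ := (hZf.isBounded).exists_norm_le
    refine ⟨R, fun s hs h0 => ?_⟩
    have h1 := hR _ ((hZ _).1 h0)
    rw [Complex.norm_exp] at h1
    have h2 := Real.add_one_le_exp s.re
    linarith
  obtain ⟨Λ, hΛc, hΛ, hΛs, hΛp⟩ := ends h hc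
  have hfac : 0 < e.factorial := Nat.factorial_pos e
  -- bound on one end
  have h3 : ∀ i, ∃ M c' : ℝ, ∀ s : ℂ, c < s.re → c' < s.re → ∀ l : Fin ρ → ℂ,
      (Complex.exp s, (Λ i s, l)) ∈ Comp Y pr δ g v x0 → ‖∏ j, g j (Λ i s) ^ a j‖ ≤ M := by
    intro i
    by_cases hex : ∃ s1 : ℂ, c < s1.re ∧ ∃ l1 : Fin ρ → ℂ,
        (Complex.exp s1, (Λ i s1, l1)) ∈ Comp Y pr δ g v x0
    · obtain ⟨s1, hs1, l1, hl1⟩ := hex
      obtain ⟨ψ, hψc, hψ1, hψ⟩ := lift_half h hgc hg0 hc hs1 (Comp_subset hl1)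
      have hψΛ : ∀ s : ℂ, c < s.re → (ψ s).1 = Λ i s :=
        lift_unique h hc (Λ := fun s => (ψ s).1) (continuous_fst.comp_continuousOn hψc) (hΛc i)
          (fun s hs => ⟨(hψ s hs).1, (hψ s hs).2.1⟩) (hΛ i) hs1 (congrArg Prod.fst hψ1)
      have hC : ∀ s : ℂ, c < s.re → (Complex.exp s, ψ s) ∈ Comp Y pr δ g v x0 := by
        have h1 : IsPreconnected ((fun s => (Complex.exp s, ψ s)) '' {s : ℂ | c < s.re}) :=
          (convex_HP c).isPreconnected.image _ (Complex.continuous_exp.continuousOn.prodMk hψc)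
        have h2 := Comp_absorb hl1 h1 (by
          rintro _ ⟨s, hs, rfl⟩
          exact hψ s hs) ⟨s1, hs1, by simp only; rw [hψ1]⟩
        intro s hs
        exact h2 ⟨s, hs, rfl⟩
      have hψd : ∀ s : ℂ, c < s.re → DifferentiableAt ℂ ψ s := by
        intro s hs
        have hn : {s : ℂ | c < s.re} ∈ 𝓝 s := (isOpen_HP c).mem_nhds hs
        refine (TL_etale h hg hg0 v).differentiableAt (φ := Complex.exp)
          Complex.differentiable_exp.differentiableAt (hψc.continuousAt hn) ?_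
        filter_upwards [hn] with s' hs'
        exact hψ s' hs'
      have hφd : DifferentiableOn ℂ (fun s => ∏ j, g j (ψ s).1 ^ a j) {s : ℂ | c < s.re} := by
        intro s hs
        have hn : {s : ℂ | c < s.re} ∈ 𝓝 s := (isOpen_HP c).mem_nhds hs
        refine (HolOn.comp' (holOn_prod hg hg0 a) (σ := fun s => (ψ s).1)
          (differentiable_fst.differentiableAt.comp s (hψd s hs)) ?_).differentiableWithinAt
        filter_upwards [hn] with s' hs'
        exact (hψ s' hs').1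
      have hre : ∀ (n : ℕ) (s : ℂ), (s + 2 * Real.pi * n * Complex.I).re = s.re := by
        intro n s
        have : 2 * (Real.pi : ℂ) * n * Complex.I = ((2 * Real.pi * n : ℝ) : ℂ) * Complex.I := by
          push_cast; ring
        rw [this, Complex.add_re, Complex.re_ofReal_mul, Complex.I_re, mul_zero, add_zero]
      have hexp : ∀ (n : ℕ) (s : ℂ), Complex.exp (s + 2 * Real.pi * n * Complex.I) =
          Complex.exp s := by
        intro n s
        rw [Complex.exp_add]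
        have : 2 * (Real.pi : ℂ) * n * Complex.I = n * (2 * Real.pi * Complex.I) := by ring
        rw [this, Complex.exp_nat_mul_two_pi_mul_I, mul_one]
      have hψΛd : DifferentiableOn ℂ (fun s => (ψ s).1) {s : ℂ | c < s.re} := fun s hs =>
        (differentiable_fst.differentiableAt.comp s (hψd s hs)).differentiableWithinAt
      have hgr := hU c e.factorial (fun s => (ψ s).1) hfac hψΛd (fun s hs => (hψ s hs).1)
        (fun s hs => by
          rw [hψΛ _ (by rw [hre]; exact hs), hψΛ s hs]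
          exact hΛp i s hs)
      have hbd := end_bounded (φ := fun s => ∏ j, g j (ψ s).1 ^ a j)
        (L := fun s => ∑ j, a j * (ψ s).2 j) (c := c) hfac hφd
        (fun s hs => prod_ne hg0 a _ (hψ s hs).1) hgr (by
          refine continuousOn_finsetSum _ fun j _ => ?_
          refine continuousOn_const.mul ?_
          exact (continuous_apply j).comp_continuousOn (continuous_snd.comp_continuousOn hψc))
        (fun s hs => exp_sum_TL (hψ s hs) a) (by
          intro s hs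
          have hs' : c < (s + 2 * Real.pi * (e.factorial : ℕ) * Complex.I).re := by
            rw [hre]; exact hs
          have e1 := hC s hs
          have e2 := hC _ hs'
          rw [hexp] at e2
          have e3 : ψ s = ((ψ s).1, (ψ s).2) := rfl
          have e4 : ψ (s + 2 * Real.pi * (e.factorial : ℕ) * Complex.I) =
              ((ψ s).1, (ψ (s + 2 * Real.pi * (e.factorial : ℕ) * Complex.I)).2) := by
            refine Prod.ext ?_ rfl
            change (ψ (s + 2 * Real.pi * (e.factorial : ℕ) * Complex.I)).1 = (ψ s).1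
            rw [hψΛ _ hs', hψΛ s hs]
            exact hΛp i s hs
          rw [e3] at e1
          rw [e4] at e2
          obtain ⟨n, hn⟩ := exists_tau (Comp_subset e1) (Comp_subset e2)
          have e5 := hker n (tau_Comp hx0 e1 (by rw [← hn]; exact e2))
          have e6 : ∀ j, (ψ (s + 2 * Real.pi * (e.factorial : ℕ) * Complex.I)).2 j =
              (ψ s).2 j + n j * (2 * Real.pi * Complex.I) := by
            intro j
            exact congrArg (fun x : ℂ × ((Fin m → ℂ) × (Fin ρ → ℂ)) => x.2.2 j) hn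
          simp only [e6, mul_add, Finset.sum_add_distrib]
          have e7 : ∑ j, (a j : ℂ) * ((n j : ℂ) * (2 * Real.pi * Complex.I)) = 0 := by
            have : ∑ j, (a j : ℂ) * ((n j : ℂ) * (2 * Real.pi * Complex.I)) =
                ((∑ j, a j * n j : ℤ) : ℂ) * (2 * Real.pi * Complex.I) := by
              push_cast
              rw [Finset.sum_mul]
              refine Finset.sum_congr rfl fun j _ => ?_
              ring
            rw [this, e5]
            simp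
          rw [e7, add_zero])
      obtain ⟨C, c', hCc⟩ := hbd
      refine ⟨C, c', fun s hs hs' l _ => ?_⟩
      have := hCc s hs'
      simp only [hψΛ s hs] at this
      exact this
    · refine ⟨0, 0, fun s hs _ l hl => ?_⟩
      exact absurd ⟨s, hs, l, hl⟩ hex
  choose M c' hMc using h3
  -- the global radius
  obtain ⟨c1, hc1, hc1'⟩ : ∃ c1 : ℝ, c ≤ c1 ∧ ∀ i, c' i ≤ c1 := by
    obtain ⟨B, hB⟩ := (Set.finite_range c').bddAbove
    exact ⟨max c B, le_max_left _ _, fun i => (hB ⟨i, rfl⟩).trans (le_max_right _ _)⟩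
  obtain ⟨M1, hM1⟩ : ∃ M1 : ℝ, ∀ i, M i ≤ M1 := by
    obtain ⟨B, hB⟩ := (Set.finite_range M).bddAbove
    exact ⟨B, fun i => hB ⟨i, rfl⟩⟩
  obtain ⟨R', hR'⟩ := h.proper (Real.exp c1 * ‖v‖)
  have hK : IsCompact (Y ∩ closedBall 0 R') := (isCompact_closedBall _ _).inter_left h.closed
  obtain ⟨M2, hM2⟩ := hK.exists_bound_of_continuousOn (f := fun y => ∏ j, g j y ^ a j)
    ((HolOn.continuousOn (holOn_prod hg hg0 a)).mono inter_subset_left)
  refine ⟨max M1 M2, fun x hx => ?_⟩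
  have hxT := Comp_subset hx
  by_cases hxc : Real.exp c1 < ‖x.1‖
  · have hx1 : x.1 ≠ 0 := by
      intro h0
      rw [h0, norm_zero] at hxc
      exact absurd hxc (not_lt.2 (Real.exp_pos _).le)
    have hre : c1 < (Complex.log x.1).re := by
      rw [Complex.log_re]
      exact (Real.lt_log_iff_exp_lt (norm_pos_iff.2 hx1)).2 hxc
    have hexp : Complex.exp (Complex.log x.1) = x.1 := Complex.exp_log hx1
    obtain ⟨i, hi⟩ := hΛs (Complex.log x.1) (lt_of_le_of_lt hc1 hre) x.2.1 hxT.1 (by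
      rw [hexp]
      exact hxT.2.1)
    have h4 := hMc i (Complex.log x.1) (lt_of_le_of_lt hc1 hre)
      (lt_of_le_of_lt (hc1' i) hre) x.2.2 (by
        rw [hexp, ← hi]
        exact hx)
    rw [← hi] at h4
    exact h4.trans ((hM1 i).trans (le_max_left _ _))
  · push Not at hxc
    have h4 : ‖pr x.2.1‖ ≤ Real.exp c1 * ‖v‖ := by
      rw [hxT.2.1, norm_smul]
      exact mul_le_mul_of_nonneg_right hxc (norm_nonneg _)
    have h5 := hR' _ hxT.1 h4
    refine (hM2 x.2.1 ⟨hxT.1, ?_⟩).trans (le_max_right _ _)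
    rw [mem_closedBall_zero_iff]
    exact h5

end Pool.Agent.TH192.Gor
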