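import Mathlib

/-!
# Integer matrices from lattices with trivial annihilator
-/

set_option autoImplicit false

namespace Pool.Agent.TH192.Gor

/-- a common denominator -/
lemma common_denom {ρ : ℕ} (q : Fin ρ → ℚ) : ∃ (d : ℕ) (a : Fin ρ → ℤ), d ≠ 0 ∧
    ∀ j, (a j : ℚ) = d * q j := by
  refine ⟨∏ j, (q j).den, fun j => (q j).num * ∏ i ∈ Finset.univ.erase j, ((q i).den : ℤ), ?_, ?_⟩
  · exact Finset.prod_ne_zero_iff.2 fun j _ => (q j).den_ne_zero
  · intro j
    push_cast
    rw [← Finset.mul_prod_erase Finset.univ (fun i => ((q i).den : ℚ)) (Finset.mem_univ j)]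
    have h1 : ((q j).den : ℚ) * q j = (q j).num := by
      rw [mul_comm]
      exact Rat.mul_den_eq_num (q j)
    calc ((q j).num : ℚ) * ∏ i ∈ Finset.univ.erase j, ((q i).den : ℚ)
        = ((q j).den * q j) * ∏ i ∈ Finset.univ.erase j, ((q i).den : ℚ) := by rw [h1]
      _ = _ := by ring

theorem exists_matrix {ρ : ℕ} {Λ : Set (Fin ρ → ℤ)}
    (hΛ : ∀ a : Fin ρ → ℤ, (∀ n ∈ Λ, ∑ j, a j * n j = 0) → a = 0) :
    ∃ N : Matrix (Fin ρ) (Fin ρ) ℤ, (∀ i, N i ∈ Λ) ∧ N.det ≠ 0 := by
  classical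
  set S : Set (Fin ρ → ℚ) := (fun n : Fin ρ → ℤ => fun j => (n j : ℚ)) '' Λ with hS
  have hspan : Submodule.span ℚ S = ⊤ := by
    by_contra hne
    obtain ⟨f, hf0, hf⟩ := Submodule.exists_le_ker_of_lt_top _ (lt_top_iff_ne_top.2 hne)
    have hfx : ∀ x : Fin ρ → ℚ, f x = ∑ j, x j * f (Pi.single j 1) := by
      intro x
      conv_lhs => rw [← Finset.univ_sum_single x]
      rw [map_sum]
      refine Finset.sum_congr rfl fun j _ => ?_
      have : Pi.single j (x j) = x j • (Pi.single j (1 : ℚ) : Fin ρ → ℚ) := by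
        rw [← Pi.single_smul, smul_eq_mul, mul_one]
      rw [this, map_smul, smul_eq_mul]
    obtain ⟨d, a, hd, ha⟩ := common_denom fun j => f (Pi.single j 1)
    have ha0 : a = 0 := by
      refine hΛ a fun n hn => ?_
      have h1 : f (fun j => (n j : ℚ)) = 0 := hf (Submodule.subset_span ⟨n, hn, rfl⟩)
      rw [hfx] at h1
      have h2 : ((∑ j, a j * n j : ℤ) : ℚ) = 0 := by
        push_cast
        calc ∑ j, (a j : ℚ) * n j = ∑ j, d * ((n j : ℚ) * f (Pi.single j 1)) := by
              refine Finset.sum_congr rfl fun j _ => ?_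
              rw [ha]
              ring
          _ = d * ∑ j, (n j : ℚ) * f (Pi.single j 1) := by rw [Finset.mul_sum]
          _ = 0 := by rw [h1, mul_zero]
      exact_mod_cast h2
    apply hf0
    ext j
    have h1 := ha j
    rw [ha0] at h1
    simp only [Pi.zero_apply, Int.cast_zero] at h1
    have h2 : f (Pi.single j 1) = 0 :=
      (mul_eq_zero.1 h1.symm).resolve_left (by exact_mod_cast hd)
    simpa using h2
  have hfr : Module.finrank ℚ (Submodule.span ℚ S) = ρ := by
    rw [hspan, finrank_top, Module.finrank_fin_fun]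
  obtain ⟨b, hbS, -, hb⟩ := Submodule.exists_fun_fin_finrank_span_eq ℚ S
  choose n hn hnb using hbS
  let N : Matrix (Fin ρ) (Fin ρ) ℤ := fun i => n (Fin.cast hfr.symm i)
  refine ⟨N, fun i => hn _, ?_⟩
  intro hdet
  have h1 : LinearIndependent ℚ (N.map (Int.cast : ℤ → ℚ)).row := by
    have h2 : (N.map (Int.cast : ℤ → ℚ)).row = b ∘ (Fin.cast hfr.symm) := by
      funext i
      exact hnb _
    rw [h2]
    exact hb.comp _ (Fin.cast_injective _)
  rw [Matrix.linearIndependent_rows_iff_isUnit, Matrix.isUnit_iff_isUnit_det] at h1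
  apply h1.ne_zero
  have h2 : (N.map (Int.cast : ℤ → ℚ)).det = ((N.det : ℤ) : ℚ) := by
    have := (RingHom.map_det (Int.castRingHom ℚ) N).symm
    simpa using this
  rw [h2, hdet]
  simp

/-- complex vectors with integral pairings against the rows form a countable set -/
theorem countable_pairing {ρ : ℕ} {N : Matrix (Fin ρ) (Fin ρ) ℤ} (hN : N.det ≠ 0) :
    {a : Fin ρ → ℂ | ∀ i, ∃ z : ℤ, ∑ j, a j * N i j = z}.Countable := by
  have hinj : Function.Injective (fun a : Fin ρ → ℂ => (N.map (Int.cast : ℤ → ℂ)).mulVec a) := by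
    rw [Matrix.mulVec_injective_iff_isUnit, Matrix.isUnit_iff_isUnit_det]
    have h2 : (N.map (Int.cast : ℤ → ℂ)).det = ((N.det : ℤ) : ℂ) := by
      have := (RingHom.map_det (Int.castRingHom ℂ) N).symm
      simpa using this
    rw [h2, isUnit_iff_ne_zero]
    exact_mod_cast hN
  have hc : (Set.range (fun z : Fin ρ → ℤ => fun i => (z i : ℂ))).Countable :=
    Set.countable_range _
  refine (hc.preimage_of_injOn hinj.injOn).mono ?_
  intro a ha
  choose z hz using ha
  refine ⟨z, ?_⟩
  funext i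
  simp only [Matrix.mulVec, dotProduct, Matrix.map_apply]
  rw [← hz i]
  refine Finset.sum_congr rfl fun j _ => ?_
  ring

/-- trivial complex annihilator -/
theorem pairing_zero {ρ : ℕ} {N : Matrix (Fin ρ) (Fin ρ) ℤ} (hN : N.det ≠ 0) {a : Fin ρ → ℂ}
    (ha : ∀ i, ∑ j, a j * N i j = 0) : a = 0 := by
  have hinj : Function.Injective (fun a : Fin ρ → ℂ => (N.map (Int.cast : ℤ → ℂ)).mulVec a) := by
    rw [Matrix.mulVec_injective_iff_isUnit, Matrix.isUnit_iff_isUnit_det]
    have h2 : (N.map (Int.cast : ℤ → ℂ)).det = ((N.det : ℤ) : ℂ) := by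
      have := (RingHom.map_det (Int.castRingHom ℂ) N).symm
      simpa using this
    rw [h2, isUnit_iff_ne_zero]
    exact_mod_cast hN
  apply hinj
  simp only [Matrix.mulVec_zero]
  funext i
  simp only [Matrix.mulVec, dotProduct, Matrix.map_apply, Pi.zero_apply]
  rw [← ha i]
  refine Finset.sum_congr rfl fun j _ => ?_
  ring

end Pool.Agent.TH192.Gor
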