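import Mathlib
import Pool.Agent.TH192.Gor.LinAlg

/-!
# Logarithmic derivatives
-/

set_option autoImplicit false

open Metric Set Topology

namespace Pool.Agent.TH192.Gor

/-- logarithmic derivative -/
noncomputable def ld (F : ℂ → ℂ) (t : ℂ) : ℂ := deriv F t / F t

lemma ld_differentiableOn {F : ℂ → ℂ} {D : Set ℂ} (hD : IsOpen D) (hF : DifferentiableOn ℂ F D)
    (h0 : ∀ t ∈ D, F t ≠ 0) : DifferentiableOn ℂ (ld F) D :=
  (hF.deriv hD).div hF h0

lemma ld_sum {n : ℕ} {F : Fin n → ℂ → ℂ} {D : Set ℂ} (hD : IsOpen D)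
    (hF : ∀ j, DifferentiableOn ℂ (F j) D) (h0 : ∀ j, ∀ t ∈ D, F j t ≠ 0) (a : Fin n → ℤ)
    {w : ℂ} (hw : ∀ t ∈ D, ∏ j, F j t ^ a j = w) {t : ℂ} (ht : t ∈ D) :
    ∑ j, (a j : ℂ) * ld (F j) t = 0 := by
  have hd : ∀ j, DifferentiableAt ℂ (F j) t := fun j => (hF j).differentiableAt (hD.mem_nhds ht)
  have h1 : logDeriv (fun t => ∏ j, F j t ^ a j) t = ∑ j, logDeriv (fun t => F j t ^ a j) t := by
    exact logDeriv_prod (fun j _ => zpow_ne_zero _ (h0 j t ht)) fun j _ =>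
      (hd j).zpow (Or.inl (h0 j t ht))
  have h2 : logDeriv (fun t => ∏ j, F j t ^ a j) t = 0 := by
    rw [logDeriv_apply]
    have : (fun t => ∏ j, F j t ^ a j) =ᶠ[𝓝 t] fun _ => w := by
      filter_upwards [hD.mem_nhds ht] with t' ht'
      exact hw t' ht'
    rw [this.deriv_eq, deriv_const, zero_div]
  rw [h2] at h1
  rw [h1]
  refine Finset.sum_congr rfl fun j _ => ?_
  rw [logDeriv_fun_zpow (hd j), logDeriv_apply]
  rfl

lemma cub_identity {F : ℂ → ℂ} {D : Set ℂ} (hD : IsOpen D) (hF : DifferentiableOn ℂ F D)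
    (h0 : ∀ t ∈ D, F t ≠ 0) (h1 : ∀ t ∈ D, F t ≠ 1) {t : ℂ} (ht : t ∈ D) :
    ld (fun t => 1 - F t) t * deriv (ld F) t - ld F t * deriv (ld fun t => 1 - F t) t -
      ld F t * ld (fun t => 1 - F t) t * (ld (fun t => 1 - F t) t - ld F t) = 0 := by
  have hn := hD.mem_nhds ht
  have e1 : HasDerivAt F (deriv F t) t := (hF.differentiableAt hn).hasDerivAt
  have e2 : HasDerivAt (deriv F) (deriv (deriv F) t) t :=
    ((hF.deriv hD).differentiableAt hn).hasDerivAt
  have e3 : deriv (fun t => 1 - F t) = fun t => - deriv F t := by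
    funext x
    exact deriv_const_sub 1
  have h1' : 1 - F t ≠ 0 := fun h => h1 t ht (by linear_combination -h)
  have e4 : deriv (ld F) t = (deriv (deriv F) t * F t - deriv F t * deriv F t) / F t ^ 2 :=
    (e2.div e1 (h0 t ht)).deriv
  have e5 : deriv (ld fun t => 1 - F t) t =
      (-deriv (deriv F) t * (1 - F t) - (-deriv F t) * (-deriv F t)) / (1 - F t) ^ 2 := by
    have e6 : (ld fun t => 1 - F t) = fun t => (-deriv F t) / (1 - F t) := by
      funext x
      simp only [ld, e3]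
    rw [e6]
    exact (e2.neg.div (e1.const_sub 1) h1').deriv
  rw [e4, e5]
  simp only [ld, e3]
  have h0' := h0 t ht
  field_simp
  ring

/-- nonconstant functions have nonzero logarithmic derivative somewhere near any point -/
lemma const_of_ld_zero {F : ℂ → ℂ} {D : Set ℂ} (hD : IsOpen D) (hDc : IsPreconnected D)
    (hF : DifferentiableOn ℂ F D) (h0 : ∀ t ∈ D, F t ≠ 0) {t0 : ℂ} (ht0 : t0 ∈ D)
    (h : ∀ᶠ t in 𝓝 t0, ld F t = 0) : ∀ t ∈ D, F t = F t0 := by
  have h1 : EqOn (ld F) 0 D :=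
    ((ld_differentiableOn hD hF h0).analyticOnNhd hD).eqOn_zero_of_preconnected_of_eventuallyEq_zero
      hDc ht0 h
  intro t ht
  refine hD.is_const_of_deriv_eq_zero hDc hF ?_ ht ht0
  intro x hx
  have h2 := h1 hx
  simp only [ld, Pi.zero_apply] at h2 ⊢
  exact (div_eq_zero_iff.1 h2).resolve_right (h0 x hx)

end Pool.Agent.TH192.Gor
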