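import Pool.Agent.TH192.Gor.Liou
import Pool.Agent.TH192.Gor.LinAlg

/-!
# The exponents of solutions of `f + (1 - f) = 1` form a countable set
-/

set_option autoImplicit false

open Metric Set Topology H113G

namespace Pool.Agent.TH192.Gor

/-- the cubic -/
def cub {ρ : ℕ} (a b w w' : Fin ρ → ℂ) : ℂ :=
  (∑ j, b j * w j) * (∑ j, a j * w' j) - (∑ j, a j * w j) * (∑ j, b j * w' j) -
    (∑ j, a j * w j) * (∑ j, b j * w j) * ((∑ j, b j * w j) - (∑ j, a j * w j))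

lemma cub_symm {ρ : ℕ} (a b w w' : Fin ρ → ℂ) : cub b a w w' = - cub a b w w' := by
  unfold cub
  ring

lemma wronsk {F G : ℂ → ℂ} {D : Set ℂ} (hD : IsOpen D) (hDc : IsPreconnected D)
    (hF : DifferentiableOn ℂ F D) (hG : DifferentiableOn ℂ G D)
    (h : ∀ t ∈ D, deriv F t * G t - F t * deriv G t = 0) {t1 : ℂ} (ht1 : t1 ∈ D)
    (hG1 : G t1 ≠ 0) : ∃ C : ℂ, ∀ t ∈ D, F t = C * G t := by
  have hn := hD.mem_nhds ht1
  have h1 : ∀ᶠ t in 𝓝 t1, t ∈ D ∧ G t ≠ 0 :=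
    (Filter.eventually_of_mem hn fun _ h => h).and
      ((hG.differentiableAt hn).continuousAt.eventually_ne hG1)
  obtain ⟨r, hr, hb⟩ := Metric.eventually_nhds_iff_ball.1 h1
  have hQd : DifferentiableOn ℂ (fun t => F t / G t) (ball t1 r) :=
    (hF.mono fun t ht => (hb t ht).1).div (hG.mono fun t ht => (hb t ht).1)
      fun t ht => (hb t ht).2
  have hQ' : (ball t1 r).EqOn (deriv fun t => F t / G t) 0 := by
    intro t ht
    have hF1 := hF.differentiableAt (hD.mem_nhds (hb t ht).1)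
    have hG1 := hG.differentiableAt (hD.mem_nhds (hb t ht).1)
    have h2 := (hF1.hasDerivAt.div hG1.hasDerivAt (hb t ht).2).deriv
    have h3 : (deriv fun t => F t / G t) t = (deriv F t * G t - F t * deriv G t) / G t ^ 2 := h2
    rw [h3, h t (hb t ht).1, zero_div]
    rfl
  have hconst : ∀ t ∈ ball t1 r, F t / G t = F t1 / G t1 := fun t ht =>
    isOpen_ball.is_const_of_deriv_eq_zero (convex_ball _ _).isPreconnected hQd hQ' ht
      (mem_ball_self hr)
  refine ⟨F t1 / G t1, ?_⟩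
  have h4 : EqOn F (fun t => F t1 / G t1 * G t) D := by
    refine (hF.analyticOnNhd hD).eqOn_of_preconnected_of_eventuallyEq
      ((hG.const_mul _).analyticOnNhd hD) hDc ht1 ?_
    filter_upwards [ball_mem_nhds t1 hr] with t ht
    rw [← hconst t ht, div_mul_cancel₀ _ (hb t ht).2]
  exact fun t ht => h4 ht

variable {m k ρ : ℕ} {Y : Set (Fin m → ℂ)} {pr : (Fin m → ℂ) → (Fin k → ℂ)}
  {δ : MvPolynomial (Fin k) ℂ} {e : ℕ} {g : Fin ρ → (Fin m → ℂ) → ℂ}

/-- the log-derivatives along a section -/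
noncomputable def w1 {m ρ : ℕ} (s : ℂ → (Fin m → ℂ) × (Fin ρ → ℂ)) (t : ℂ) : Fin ρ → ℂ :=
  fun j => deriv (fun t => (s t).2 j) t

/-- their derivatives -/
noncomputable def w2 {m ρ : ℕ} (s : ℂ → (Fin m → ℂ) × (Fin ρ → ℂ)) (t : ℂ) : Fin ρ → ℂ :=
  fun j => deriv (fun t => w1 s t j) t

lemma sec_diff {T : Set (ℂ × ((Fin m → ℂ) × (Fin ρ → ℂ)))} {t0 : ℂ} {r : ℝ}
    {s : ℂ → (Fin m → ℂ) × (Fin ρ → ℂ)} (hs : IsSec T t0 r s) (j : Fin ρ) :
    DifferentiableOn ℂ (fun t => (s t).2 j) (ball t0 r) := by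
  have h1 : DifferentiableOn ℂ (fun t => (s t).2) (ball t0 r) :=
    differentiable_snd.comp_differentiableOn hs.diff
  exact (differentiableOn_pi.1 h1) j

lemma w1_diff {T : Set (ℂ × ((Fin m → ℂ) × (Fin ρ → ℂ)))} {t0 : ℂ} {r : ℝ}
    {s : ℂ → (Fin m → ℂ) × (Fin ρ → ℂ)} (hs : IsSec T t0 r s) (j : Fin ρ) :
    DifferentiableOn ℂ (fun t => w1 s t j) (ball t0 r) :=
  (sec_diff hs j).deriv isOpen_ball

lemma deriv_sec {T : Set (ℂ × ((Fin m → ℂ) × (Fin ρ → ℂ)))} {t0 : ℂ} {r : ℝ}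
    {s : ℂ → (Fin m → ℂ) × (Fin ρ → ℂ)} (hs : IsSec T t0 r s) {t : ℂ} (ht : t ∈ ball t0 r)
    (j : Fin ρ) : (deriv s t).2 j = w1 s t j := by
  have h1 := (hs.diff.differentiableAt (isOpen_ball.mem_nhds ht)).hasDerivAt
  have h2 := ((ContinuousLinearMap.proj (R := ℂ) (φ := fun _ : Fin ρ => ℂ) j).comp
    (ContinuousLinearMap.snd ℂ (Fin m → ℂ) (Fin ρ → ℂ))).hasFDerivAt.comp_hasDerivAt t h1
  exact h2.deriv.symm

lemma hasDerivAt_comb {T : Set (ℂ × ((Fin m → ℂ) × (Fin ρ → ℂ)))} {t0 : ℂ} {r : ℝ}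
    {s : ℂ → (Fin m → ℂ) × (Fin ρ → ℂ)} (hs : IsSec T t0 r s) {t : ℂ} (ht : t ∈ ball t0 r)
    (c : Fin ρ → ℂ) : HasDerivAt (fun t => ∑ j, c j * (s t).2 j) (∑ j, c j * w1 s t j) t := by
  refine HasDerivAt.fun_sum fun j _ => ?_
  exact ((sec_diff hs j).differentiableAt (isOpen_ball.mem_nhds ht)).hasDerivAt.const_mul (c j)

lemma hasDerivAt_comb' {T : Set (ℂ × ((Fin m → ℂ) × (Fin ρ → ℂ)))} {t0 : ℂ} {r : ℝ}
    {s : ℂ → (Fin m → ℂ) × (Fin ρ → ℂ)} (hs : IsSec T t0 r s) {t : ℂ} (ht : t ∈ ball t0 r)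
    (c : Fin ρ → ℂ) : HasDerivAt (fun t => ∑ j, c j * w1 s t j) (∑ j, c j * w2 s t j) t := by
  refine HasDerivAt.fun_sum fun j _ => ?_
  exact ((w1_diff hs j).differentiableAt (isOpen_ball.mem_nhds ht)).hasDerivAt.const_mul (c j)

/-- translated sections -/
lemma sec_tau {v : Fin k → ℂ} {t0 : ℂ} {r : ℝ}
    {s : ℂ → (Fin m → ℂ) × (Fin ρ → ℂ)} (hs : IsSec (TL Y pr δ g v) t0 r s) (n : Fin ρ → ℤ) :
    IsSec (TL Y pr δ g v) t0 r (fun t => (tau m n (t, s t)).2) := by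
  refine ⟨hs.pos, ?_, fun t ht => ?_⟩
  · unfold tau
    refine (differentiable_fst.comp_differentiableOn hs.diff).prodMk ?_
    rw [differentiableOn_pi]
    intro j
    exact (sec_diff hs j).add_const _
  · exact tau_mem (hs.mem t ht)

section main

variable (h : Cov Y pr δ e) (hg : ∀ j, HolOn Y (g j)) (hg0 : ∀ j, ∀ y ∈ Y, g j y ≠ 0)
  {v : Fin k → ℂ} {x0 : ℂ × ((Fin m → ℂ) × (Fin ρ → ℂ))} (hx0 : x0 ∈ TL Y pr δ g v)
  {r : ℝ} {s : ℂ → (Fin m → ℂ) × (Fin ρ → ℂ)} (hs : IsSec (TL Y pr δ g v) x0.1 r s)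
  (hs0 : s x0.1 = x0.2)

include h hg hg0 hx0 hs hs0

lemma near_x0 : ∀ᶠ x in 𝓝[TL Y pr δ g v] x0, x.1 ∈ ball x0.1 r ∧ x = (x.1, s x.1) := by
  obtain ⟨r', s', hs', hs'0, hev⟩ := TL_etale h hg hg0 v x0 hx0
  have h1 : s =ᶠ[𝓝 x0.1] s' := by
    have hn := ball_mem_nhds x0.1 hs.pos
    have hn' := ball_mem_nhds x0.1 hs'.pos
    refine (TL_etale h hg hg0 v).germ (hs.diff.differentiableAt hn).continuousAt
      (hs'.diff.differentiableAt hn').continuousAt ?_ ?_ (by rw [hs0, hs'0])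
    · filter_upwards [hn] with t ht
      exact hs.mem t ht
    · filter_upwards [hn'] with t ht
      exact hs'.mem t ht
  have h2 : ∀ᶠ x : ℂ × ((Fin m → ℂ) × (Fin ρ → ℂ)) in 𝓝[TL Y pr δ g v] x0, x.1 ∈ ball x0.1 r :=
    nhdsWithin_le_nhds (continuous_fst.continuousAt.eventually (ball_mem_nhds x0.1 hs.pos))
  have h3 : ∀ᶠ x : ℂ × ((Fin m → ℂ) × (Fin ρ → ℂ)) in 𝓝[TL Y pr δ g v] x0, s x.1 = s' x.1 :=
    nhdsWithin_le_nhds (continuous_fst.continuousAt.eventually h1)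
  filter_upwards [hev, h2, h3] with x e1 e2 e3
  exact ⟨e2, Prod.ext rfl (by rw [e1, e3])⟩

/-- complex linear relations between the log-derivatives are orthogonal to the monodromy -/
lemma rel_orth {c : Fin ρ → ℂ} (hc : ∀ t ∈ ball x0.1 r, ∑ j, c j * w1 s t j = 0)
    {n : Fin ρ → ℤ} (hn : tau m n x0 ∈ Comp Y pr δ g v x0) : ∑ j, c j * n j = 0 := by
  have hconst : ∀ t ∈ ball x0.1 r, ∑ j, c j * (s t).2 j = ∑ j, c j * x0.2.2 j := by
    intro t ht
    have h1 : DifferentiableOn ℂ (fun t => ∑ j, c j * (s t).2 j) (ball x0.1 r) := fun t ht =>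
      (hasDerivAt_comb hs ht c).differentiableAt.differentiableWithinAt
    have h2 : (ball x0.1 r).EqOn (deriv fun t => ∑ j, c j * (s t).2 j) 0 := by
      intro t ht
      rw [(hasDerivAt_comb hs ht c).deriv, hc t ht]
      rfl
    have h3 := isOpen_ball.is_const_of_deriv_eq_zero (convex_ball _ _).isPreconnected h1 h2 ht
      (mem_ball_self hs.pos)
    rw [h3, hs0]
  have hcont := continuation (TL_etale h hg hg0 v)
    (H := fun p => (∑ j, c j * p.1.2.2 j) - ∑ j, c j * x0.2.2 j) (by fun_prop)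
    isPreconnected_Comp Comp_subset (mem_Comp_self hx0) (by
      filter_upwards [near_x0 h hg hg0 hx0 hs hs0] with x hx
      rw [hx.2]
      simp only
      rw [hconst _ hx.1, sub_self]) _ hn
  simp only [tau, mul_add, Finset.sum_add_distrib] at hcont
  have h4 : ∑ j, c j * ((n j : ℂ) * (2 * Real.pi * Complex.I)) = 0 := by
    linear_combination hcont
  have h5 : (∑ j, c j * n j) * (2 * Real.pi * Complex.I) = 0 := by
    rw [← h4, Finset.sum_mul]
    refine Finset.sum_congr rfl fun j _ => ?_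
    ring
  exact (mul_eq_zero.1 h5).resolve_right Complex.two_pi_I_ne_zero

lemma int_pairing {a b : Fin ρ → ℂ}
    (hz : ∃ t ∈ ball x0.1 r, ∑ j, b j * w1 s t j ≠ 0)
    (hG : ∃ t ∈ ball x0.1 r, ∑ j, b j * w1 s t j - ∑ j, a j * w1 s t j ≠ 0)
    (hE : ∀ t ∈ ball x0.1 r, cub a b (w1 s t) (w2 s t) = 0)
    {n : Fin ρ → ℤ} (hn : tau m n x0 ∈ Comp Y pr δ g v x0) :
    ∃ z : ℤ, ∑ j, a j * n j = z := by
  obtain ⟨t1, ht1, hG1⟩ := hG
  obtain ⟨C, hC⟩ := wronsk (F := fun t => (∑ j, b j * w1 s t j) *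
      Complex.exp (-∑ j, a j * (s t).2 j))
    (G := fun t => ∑ j, b j * w1 s t j - ∑ j, a j * w1 s t j) isOpen_ball
    (convex_ball x0.1 r).isPreconnected
    (fun t ht => ((hasDerivAt_comb' hs ht b).mul
      (hasDerivAt_comb hs ht a).neg.cexp).differentiableAt.differentiableWithinAt)
    (fun t ht => ((hasDerivAt_comb' hs ht b).sub
      (hasDerivAt_comb' hs ht a)).differentiableAt.differentiableWithinAt)
    (by
      intro t ht
      have e1 := ((hasDerivAt_comb' hs ht b).mul (hasDerivAt_comb hs ht a).neg.cexp).deriv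
      have e2 := ((hasDerivAt_comb' hs ht b).sub (hasDerivAt_comb' hs ht a)).deriv
      have e1' : deriv (fun t => (∑ j, b j * w1 s t j) * Complex.exp (-∑ j, a j * (s t).2 j)) t =
        (∑ j, b j * w2 s t j) * Complex.exp (-∑ j, a j * (s t).2 j) +
          (∑ j, b j * w1 s t j) *
            (Complex.exp (-∑ j, a j * (s t).2 j) * -∑ j, a j * w1 s t j) := e1
      have e2' : deriv (fun t => ∑ j, b j * w1 s t j - ∑ j, a j * w1 s t j) t =
        ∑ j, b j * w2 s t j - ∑ j, a j * w2 s t j := e2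
      rw [e1', e2']
      have e3 := hE t ht
      unfold cub at e3
      linear_combination (Complex.exp (-∑ j, a j * (s t).2 j)) * e3)
    ht1 hG1
  have hH : Differentiable ℂ (fun p : (ℂ × ((Fin m → ℂ) × (Fin ρ → ℂ))) ×
      ((Fin m → ℂ) × (Fin ρ → ℂ)) => (∑ j, b j * p.2.2 j) - C * Complex.exp (∑ j, a j * p.1.2.2 j) *
        ((∑ j, b j * p.2.2 j) - ∑ j, a j * p.2.2 j)) := by fun_prop
  have hcont := continuation (TL_etale h hg hg0 v) hH
    isPreconnected_Comp Comp_subset (mem_Comp_self hx0) (by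
      filter_upwards [near_x0 h hg hg0 hx0 hs hs0] with x hx
      rw [hx.2]
      rw [(TL_etale h hg hg0 v).dsec_sec hs hx.1]
      simp only [deriv_sec hs hx.1]
      have e1 := hC _ hx.1
      have e2 : Complex.exp (∑ j, a j * (s x.1).2 j) * Complex.exp (-∑ j, a j * (s x.1).2 j) = 1 := by
        rw [← Complex.exp_add, add_neg_cancel, Complex.exp_zero]
      linear_combination Complex.exp (∑ j, a j * (s x.1).2 j) * e1 -
        (∑ j, b j * w1 s x.1 j) * e2)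
  obtain ⟨t, ht, hzt⟩ := hz
  have h1 : (t, s t) ∈ Comp Y pr δ g v x0 :=
    sec_Comp (mem_Comp_self hx0) hs (mem_ball_self hs.pos) hs0 ht
  have hsn := sec_tau hs n
  have h2 : (t, (tau m n (t, s t)).2) ∈ Comp Y pr δ g v x0 := by
    refine sec_Comp hn hsn (mem_ball_self hs.pos) ?_ ht
    change (tau m n (x0.1, s x0.1)).2 = (tau m n x0).2
    rw [hs0]
  have e1 := hcont _ h1
  have e2 := hcont _ h2
  rw [(TL_etale h hg hg0 v).dsec_sec hs ht] at e1
  rw [(TL_etale h hg hg0 v).dsec_sec hsn ht] at e2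
  simp only [deriv_sec hs ht] at e1
  simp only [deriv_sec hsn ht] at e2
  have e3 : w1 (fun t => (tau m n (t, s t)).2) t = w1 s t := by
    funext j
    unfold w1 tau
    simp only
    exact deriv_add_const _
  simp only [e3] at e2
  simp only [tau, mul_add, Finset.sum_add_distrib] at e2
  rw [Complex.exp_add] at e2
  have e4 : (∑ j, b j * w1 s t j) *
      (1 - Complex.exp (∑ j, a j * ((n j : ℂ) * (2 * Real.pi * Complex.I)))) = 0 := by
    linear_combination e2 - Complex.exp (∑ j, a j * ((n j : ℂ) * (2 * Real.pi * Complex.I))) * e1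
  have e5 := (mul_eq_zero.1 e4).resolve_left hzt
  have e6 : Complex.exp (∑ j, a j * ((n j : ℂ) * (2 * Real.pi * Complex.I))) = 1 := by
    linear_combination -e5
  obtain ⟨z, hz'⟩ := Complex.exp_eq_one_iff.1 e6
  refine ⟨z, ?_⟩
  have e7 : (∑ j, a j * n j) * (2 * Real.pi * Complex.I) = z * (2 * Real.pi * Complex.I) := by
    rw [← hz', Finset.sum_mul]
    refine Finset.sum_congr rfl fun j _ => ?_
    ring
  exact mul_right_cancel₀ Complex.two_pi_I_ne_zero e7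

theorem countable_W (hgro : ∀ a : Fin ρ → ℤ, PolyGro Y (fun y => ∏ j, g j y ^ a j))
    (indep : ∀ a : Fin ρ → ℤ, (∀ t ∈ ball x0.1 r, ∑ j, (a j : ℂ) * w1 s t j = 0) → a = 0) :
    {ab : (Fin ρ → ℂ) × (Fin ρ → ℂ) | ab.1 ≠ 0 ∧ ab.2 ≠ 0 ∧ ab.1 ≠ ab.2 ∧
      ∀ t ∈ ball x0.1 r, cub ab.1 ab.2 (w1 s t) (w2 s t) = 0}.Countable := by
  have hspan : ∀ a : Fin ρ → ℤ,
      (∀ n ∈ {n : Fin ρ → ℤ | tau m n x0 ∈ Comp Y pr δ g v x0}, ∑ j, a j * n j = 0) → a = 0 := by
    intro a ha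
    apply indep
    have h1 := liouville h hg hg0 hx0 a (fun n hn => ha n hn) (hgro a)
      (σ := fun t => (s t).1) isOpen_ball (convex_ball x0.1 r).isPreconnected
      (differentiable_fst.comp_differentiableOn hs.diff)
      (fun t ht => ⟨(hs.mem t ht).1, (hs.mem t ht).2.1⟩) (mem_ball_self hs.pos)
      (congrArg Prod.fst hs0)
    have h2 : ∀ t ∈ ball x0.1 r, Complex.exp (∑ j, (a j : ℂ) * (s t).2 j) =
        Complex.exp (∑ j, (a j : ℂ) * (s x0.1).2 j) := by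
      intro t ht
      have e1 := exp_sum_TL (hs.mem t ht) a
      have e2 := exp_sum_TL (hs.mem _ (mem_ball_self hs.pos)) a
      simp only at e1 e2
      rw [e1, e2]
      exact h1 t ht
    intro t ht
    have h3 := (hasDerivAt_comb hs ht (fun j => (a j : ℂ))).cexp
    have h4 : (fun t => Complex.exp (∑ j, (a j : ℂ) * (s t).2 j)) =ᶠ[𝓝 t]
        fun _ => Complex.exp (∑ j, (a j : ℂ) * (s x0.1).2 j) := by
      filter_upwards [isOpen_ball.mem_nhds ht] with t' ht'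
      exact h2 t' ht'
    have h5 := h3.deriv
    rw [h4.deriv_eq, deriv_const] at h5
    exact (mul_eq_zero.1 h5.symm).resolve_left (Complex.exp_ne_zero _)
  obtain ⟨N, hNΛ, hN⟩ := exists_matrix hspan
  have hker : ∀ c : Fin ρ → ℂ, (∀ t ∈ ball x0.1 r, ∑ j, c j * w1 s t j = 0) → c = 0 := by
    intro c hc
    exact pairing_zero hN fun i => rel_orth h hg hg0 hx0 hs hs0 hc (hNΛ i)
  have hker' : ∀ c : Fin ρ → ℂ, c ≠ 0 → ∃ t ∈ ball x0.1 r, ∑ j, c j * w1 s t j ≠ 0 := by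
    intro c hc
    by_contra hcon
    push Not at hcon
    exact hc (hker c hcon)
  have hker2 : ∀ a b : Fin ρ → ℂ, a ≠ b →
      ∃ t ∈ ball x0.1 r, ∑ j, b j * w1 s t j - ∑ j, a j * w1 s t j ≠ 0 := by
    intro a b hab
    obtain ⟨t, ht, h1⟩ := hker' (b - a) (sub_ne_zero.2 hab.symm)
    refine ⟨t, ht, ?_⟩
    convert h1 using 1
    rw [← Finset.sum_sub_distrib]
    refine Finset.sum_congr rfl fun j _ => ?_
    simp only [Pi.sub_apply]
    ring
  refine ((countable_pairing hN).prod (countable_pairing hN)).mono ?_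
  rintro ⟨a, b⟩ ⟨ha, hb, hab, hE⟩
  refine ⟨fun i => ?_, fun i => ?_⟩
  · exact int_pairing h hg hg0 hx0 hs hs0 (hker' b hb) (hker2 a b hab) hE (hNΛ i)
  · refine int_pairing h hg hg0 hx0 hs hs0 (hker' a ha) (hker2 b a hab.symm) (fun t ht => ?_)
      (hNΛ i)
    rw [cub_symm, hE t ht, neg_zero]

end main

end Pool.Agent.TH192.Gor
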