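import Pool.Agent.TH192.Gor.Select
import Pool.Agent.TH192.Gor.Zan
import Pool.Agent.TH192.Gor.LD

/-!
# Core statement: the exponent vectors
-/

set_option autoImplicit false

open Metric Set Topology H113G

namespace Pool.Agent.TH192.Gor

variable {m k : ℕ} {Y : Set (Fin m → ℂ)} {pr : (Fin m → ℂ) → (Fin k → ℂ)}
  {δ : MvPolynomial (Fin k) ℂ} {e : ℕ}

set_option maxHeartbeats 4000000 in
/-- second half: along a fixed section -/
theorem core_line (h : Cov Y pr δ e) {S : ℕ} (hS : FiniteRank Y S) {N : ℕ}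
    {f : Fin N → (Fin m → ℂ) → ℂ} (hf : ∀ j, Om Y (f j)) {v : Fin k → ℂ}
    {σ : ℂ → (Fin m → ℂ)} {D : Set ℂ} (hDo : IsOpen D) (hDc : IsPreconnected D)
    (hσ : DifferentiableOn ℂ σ D) (hm : ∀ t ∈ D, σ t ∈ Y ∧ pr (σ t) = t • v)
    (h0D : (0 : ℂ) ∈ D) (h1D : (1 : ℂ) ∈ D)
    (hne : ∀ i j, i ≠ j → f i (σ 1) ≠ f j (σ 1)) (hnc : ∀ j, f j (σ 1) ≠ f j (σ 0)) :
    ∃ ρ ≤ S, ∃ 𝒲 : Set ((Fin ρ → ℂ) × (Fin ρ → ℂ)),
      {ab : (Fin ρ → ℂ) × (Fin ρ → ℂ) | ab.1 ≠ 0 ∧ ab.2 ≠ 0 ∧ ab.1 ≠ ab.2 ∧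
        ∀ w ∈ 𝒲, cub ab.1 ab.2 w.1 w.2 = 0}.Countable ∧
      (N : ℕ∞) ≤ {ab : (Fin ρ → ℂ) × (Fin ρ → ℂ) | ab.1 ≠ 0 ∧ ab.2 ≠ 0 ∧ ab.1 ≠ ab.2 ∧
        ∀ w ∈ 𝒲, cub ab.1 ab.2 w.1 w.2 = 0}.encard := by
  classical
  -- the functions and their log-derivatives
  let u : Fin N ⊕ Fin N → (Fin m → ℂ) → ℂ := Sum.elim f (fun j y => 1 - f j y)
  have hu : ∀ a, Om Y (u a) := by
    rintro (j | j)
    · exact hf j
    · exact (hf j).sub
  let F : Fin N ⊕ Fin N → ℂ → ℂ := fun a t => u a (σ t)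
  have hFd : ∀ a, DifferentiableOn ℂ (F a) D := by
    intro a t ht
    have hn := hDo.mem_nhds ht
    refine (HolOn.comp' (hu a).hol (hσ.differentiableAt hn) ?_).differentiableWithinAt
    filter_upwards [hn] with t' ht'
    exact (hm t' ht').1
  have hF0 : ∀ a, ∀ t ∈ D, F a t ≠ 0 := fun a t ht => (hu a).ne0 _ (hm t ht).1
  have hldd : ∀ a, DifferentiableOn ℂ (ld (F a)) D := fun a =>
    ld_differentiableOn hDo (hFd a) (hF0 a)
  let lw : Fin N ⊕ Fin N → (D → ℂ) := fun a t => ld (F a) t.1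
  have : FiniteDimensional ℚ (Submodule.span ℚ (Set.range lw)) :=
    FiniteDimensional.span_of_finite ℚ (Set.finite_range lw)
  obtain ⟨ρ, b, hbS, hbspan, hbind⟩ : ∃ (ρ : ℕ) (b : Fin ρ → (D → ℂ)),
      (∀ i, b i ∈ Set.range lw) ∧
      Submodule.span ℚ (Set.range b) = Submodule.span ℚ (Set.range lw) ∧
      LinearIndependent ℚ b := ⟨_, Submodule.exists_fun_fin_finrank_span_eq ℚ (Set.range lw)⟩
  choose α hα using hbS
  -- expansions
  have hq : ∀ a, ∃ q : Fin ρ → ℚ, ∀ t ∈ D, ∑ i, (q i : ℂ) * ld (F (α i)) t = ld (F a) t := by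
    intro a
    have h1 : lw a ∈ Submodule.span ℚ (Set.range b) := by
      rw [hbspan]
      exact Submodule.subset_span ⟨a, rfl⟩
    obtain ⟨q, hq⟩ := (Submodule.mem_span_range_iff_exists_fun ℚ).1 h1
    refine ⟨q, fun t ht => ?_⟩
    have h2 := congr_fun hq ⟨t, ht⟩
    simp only [Finset.sum_apply, Pi.smul_apply, ← hα, lw] at h2
    rw [← h2]
    refine Finset.sum_congr rfl fun i _ => ?_
    rw [Rat.smul_def]
  choose q hq using hq
  -- integral independence
  have hindepD : ∀ (n : ℕ) (ι : Fin n → Fin ρ) (_ : Function.Injective ι) (a : Fin n → ℤ),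
      (∀ t ∈ D, ∑ j, (a j : ℂ) * ld (F (α (ι j))) t = 0) → a = 0 := by
    intro n ι hι a ha
    have h1 := hbind.comp ι hι
    rw [Fintype.linearIndependent_iff] at h1
    have h2 := h1 (fun j => (a j : ℚ)) (by
      funext t
      simp only [Finset.sum_apply, Pi.smul_apply, Function.comp, ← hα, lw, Pi.zero_apply]
      rw [← ha t.1 t.2]
      refine Finset.sum_congr rfl fun i _ => ?_
      rw [Rat.smul_def]
      push_cast
      rfl)
    funext j
    have h3 := h2 j
    exact_mod_cast h3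
  -- the rank bound
  have hρS : ρ ≤ S := by
    by_contra hcon
    push Not at hcon
    have hle : S + 1 ≤ ρ := hcon
    obtain ⟨a, ha0, hlog⟩ := hS (fun l => u (α (Fin.castLE hle l)))
      (fun l => HolOn.continuousOn (hu _).hol) (fun l => (hu _).ne0)
    have h1 := log_const h (g := fun l => u (α (Fin.castLE hle l))) (fun l => hu _) a hlog hDo hDc
      hσ hm h0D
    apply ha0
    refine hindepD (S + 1) (Fin.castLE hle) (Fin.castLE_injective hle) a fun t ht => ?_
    exact ld_sum hDo (F := fun j => F (α (Fin.castLE hle j))) (fun j => hFd _) (fun j => hF0 _) a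
      h1 ht
  -- the covering of logarithms
  set g : Fin ρ → (Fin m → ℂ) → ℂ := fun i => u (α i) with hg
  have hgO : ∀ i, Om Y (g i) := fun i => hu _
  set x0 : ℂ × ((Fin m → ℂ) × (Fin ρ → ℂ)) := (0, (σ 0, fun j => Complex.log (g j (σ 0)))) with hx0d
  have hx0 : x0 ∈ TL Y pr δ g v := by
    refine ⟨(hm 0 h0D).1, (hm 0 h0D).2, ?_, fun j => ?_⟩
    · change MvPolynomial.eval ((0 : ℂ) • v) δ ≠ 0
      rw [zero_smul]
      exact h.base
    · exact Complex.exp_log ((hgO j).ne0 _ (hm 0 h0D).1)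
  obtain ⟨r', s, hs', hs0, -⟩ := TL_etale h (fun j => (hgO j).hol) (fun j => (hgO j).ne0) v x0 hx0
  obtain ⟨r, hr, hrD, hrr'⟩ : ∃ r : ℝ, 0 < r ∧ ball (0 : ℂ) r ⊆ D ∧ r ≤ r' := by
    obtain ⟨r1, hr1, hb⟩ := Metric.isOpen_iff.1 hDo 0 h0D
    exact ⟨min r1 r', lt_min hr1 hs'.pos, (ball_subset_ball (min_le_left _ _)).trans hb,
      min_le_right _ _⟩
  have hs : IsSec (TL Y pr δ g v) x0.1 r s :=
    ⟨hr, hs'.diff.mono (ball_subset_ball hrr'), fun t ht => hs'.mem t (ball_subset_ball hrr' ht)⟩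
  have hsσ : ∀ t ∈ ball (0 : ℂ) r, (s t).1 = σ t := by
    have h1 : EqOn (fun t => (s t).1) σ (ball (0 : ℂ) r) := by
      refine sec_eqOn h (v := v) isOpen_ball (convex_ball _ _).isPreconnected
        (differentiable_fst.comp_differentiableOn hs.diff) (hσ.mono hrD)
        (fun t ht => ⟨(hs.mem t ht).1, (hs.mem t ht).2.1⟩) (fun t ht => hm t (hrD ht))
        (mem_ball_self hr) ?_ ?_
      · rw [zero_smul]
        exact h.base
      · exact congrArg Prod.fst hs0
    exact fun t ht => h1 ht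
  have hw1 : ∀ t ∈ ball (0 : ℂ) r, ∀ i, w1 s t i = ld (F (α i)) t := by
    intro t ht i
    have hn := isOpen_ball.mem_nhds ht
    have h1 : F (α i) =ᶠ[𝓝 t] fun t => Complex.exp ((s t).2 i) := by
      filter_upwards [hn] with t' ht'
      have h2 := (hs.mem t' ht').2.2.2 i
      simp only at h2
      rw [h2, hsσ t' ht']
    have h3 : HasDerivAt (fun t => (s t).2 i) (w1 s t i) t :=
      ((sec_diff hs i).differentiableAt hn).hasDerivAt
    unfold ld
    rw [h1.deriv_eq, h1.self_of_nhds, h3.cexp.deriv, mul_div_assoc, mul_comm,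
      div_mul_cancel₀ _ (Complex.exp_ne_zero _)]
  -- coefficient vectors
  let Q : Fin N ⊕ Fin N → Fin ρ → ℂ := fun a i => (q a i : ℂ)
  have hQ1 : ∀ a, ∀ t ∈ ball (0 : ℂ) r, ∑ i, Q a i * w1 s t i = ld (F a) t := by
    intro a t ht
    rw [← hq a t (hrD ht)]
    refine Finset.sum_congr rfl fun i _ => ?_
    rw [hw1 t ht i]
  have hQ2 : ∀ a, ∀ t ∈ ball (0 : ℂ) r, ∑ i, Q a i * w2 s t i = deriv (ld (F a)) t := by
    intro a t ht
    rw [← (hasDerivAt_comb' hs ht (Q a)).deriv]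
    refine Filter.EventuallyEq.deriv_eq ?_
    filter_upwards [isOpen_ball.mem_nhds ht] with t' ht'
    exact hQ1 a t' ht'
  have hindep : ∀ a : Fin ρ → ℤ, (∀ t ∈ ball x0.1 r, ∑ j, (a j : ℂ) * w1 s t j = 0) → a = 0 := by
    intro a ha
    refine hindepD ρ id Function.injective_id a ?_
    have h1 : DifferentiableOn ℂ (fun t => ∑ j, (a j : ℂ) * ld (F (α j)) t) D := by
      refine DifferentiableOn.fun_sum fun j _ => ?_
      exact (hldd (α j)).const_mul _
    have h2 : EqOn (fun t => ∑ j, (a j : ℂ) * ld (F (α j)) t) 0 D := by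
      refine (h1.analyticOnNhd hDo).eqOn_zero_of_preconnected_of_eventuallyEq_zero hDc h0D ?_
      filter_upwards [ball_mem_nhds (0 : ℂ) hr] with t ht
      have h3 := ha t ht
      change ∑ j, (a j : ℂ) * ld (F (α j)) t = 0
      rw [← h3]
      refine Finset.sum_congr rfl fun j _ => ?_
      rw [hw1 t ht j]
    exact fun t ht => h2 ht
  have hcount := countable_W h (fun j => (hgO j).hol) (fun j => (hgO j).ne0) hx0 hs hs0
    (Om.gro_prod hgO) hindep
  refine ⟨ρ, hρS, (fun t => (w1 s t, w2 s t)) '' ball x0.1 r, ?_, ?_⟩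
  · refine hcount.mono ?_
    intro ab hab
    exact ⟨hab.1, hab.2.1, hab.2.2.1, fun t ht =>
      hab.2.2.2 (w1 s t, w2 s t) (Set.mem_image_of_mem (fun t => (w1 s t, w2 s t)) ht)⟩
  · -- the injection
    have hev : ∀ {P : ℂ → Prop}, (∀ t ∈ ball (0 : ℂ) r, P t) → ∀ᶠ t in 𝓝 (0 : ℂ), P t := by
      intro P hP
      filter_upwards [ball_mem_nhds (0 : ℂ) hr] with t ht
      exact hP t ht
    have hldne : ∀ a, F a 1 ≠ F a 0 → ¬ ∀ t ∈ ball (0 : ℂ) r, ld (F a) t = 0 := by
      intro a ha hcon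
      exact ha (const_of_ld_zero hDo hDc (hFd a) (hF0 a) h0D (hev hcon) 1 h1D)
    have hFl : ∀ j, F (Sum.inl j) = fun t => f j (σ t) := fun j => rfl
    have hFr : ∀ j, F (Sum.inr j) = fun t => 1 - F (Sum.inl j) t := fun j => rfl
    have hncl : ∀ j, F (Sum.inl j) 1 ≠ F (Sum.inl j) 0 := hnc
    have hncr : ∀ j, F (Sum.inr j) 1 ≠ F (Sum.inr j) 0 := fun j hj =>
      hncl j (by rw [hFr] at hj; linear_combination -hj)
    let φ : Fin N → (Fin ρ → ℂ) × (Fin ρ → ℂ) := fun j => (Q (Sum.inl j), Q (Sum.inr j))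
    have hφW : ∀ j, φ j ∈ {ab : (Fin ρ → ℂ) × (Fin ρ → ℂ) | ab.1 ≠ 0 ∧ ab.2 ≠ 0 ∧ ab.1 ≠ ab.2 ∧
        ∀ w ∈ (fun t => (w1 s t, w2 s t)) '' ball x0.1 r, cub ab.1 ab.2 w.1 w.2 = 0} := by
      intro j
      refine ⟨?_, ?_, ?_, ?_⟩
      · intro h1
        refine hldne _ (hncl j) fun t ht => ?_
        rw [← hQ1 _ t ht]
        have h2 : Q (Sum.inl j) = 0 := h1
        rw [h2]
        simp
      · intro h1
        refine hldne _ (hncr j) fun t ht => ?_
        rw [← hQ1 _ t ht]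
        have h2 : Q (Sum.inr j) = 0 := h1
        rw [h2]
        simp
      · intro h1
        refine hldne _ (hncl j) fun t ht => ?_
        have h2 : Q (Sum.inl j) = Q (Sum.inr j) := h1
        have h3 : ld (F (Sum.inl j)) t = ld (F (Sum.inr j)) t := by
          rw [← hQ1 _ t ht, ← hQ1 _ t ht, h2]
        have h4 : F (Sum.inl j) t ≠ 0 := hF0 _ t (hrD ht)
        have h5 : F (Sum.inr j) t ≠ 0 := hF0 _ t (hrD ht)
        rw [hFr] at h3 h5
        have h6 : deriv (fun t => 1 - F (Sum.inl j) t) t = - deriv (F (Sum.inl j)) t :=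
          deriv_const_sub 1
        simp only [ld] at h3 ⊢
        rw [h6] at h3
        simp only at h5
        rw [div_eq_div_iff h4 h5] at h3
        have h7 : deriv (F (Sum.inl j)) t = 0 := by linear_combination h3
        rw [h7, zero_div]
      · rintro _ ⟨t, ht, rfl⟩
        change cub (Q (Sum.inl j)) (Q (Sum.inr j)) (w1 s t) (w2 s t) = 0
        unfold cub
        rw [hQ1 _ t ht, hQ1 _ t ht, hQ2 _ t ht, hQ2 _ t ht, hFr]
        exact cub_identity (F := F (Sum.inl j)) hDo (hFd _) (hF0 _)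
          (fun t ht => (hf j).ne1 _ (hm t ht).1) (hrD ht)
    have hφi : Function.Injective φ := by
      intro i j hij
      by_contra hne'
      have e1 : Q (Sum.inl i) = Q (Sum.inl j) := congrArg Prod.fst hij
      have e2 : Q (Sum.inr i) = Q (Sum.inr j) := congrArg Prod.snd hij
      -- multiplicative relations
      have hmul : ∀ a a', Q a = Q a' → ∃ C : ℂ, ∀ t ∈ ball (0 : ℂ) r, F a t = C * F a' t := by
        intro a a' haa
        refine wronsk isOpen_ball (convex_ball _ _).isPreconnected ((hFd a).mono hrD)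
          ((hFd a').mono hrD) ?_ (mem_ball_self hr) (hF0 a' 0 h0D)
        intro t ht
        have h3 : ld (F a) t = ld (F a') t := by rw [← hQ1 _ t ht, ← hQ1 _ t ht, haa]
        simp only [ld] at h3
        rw [div_eq_div_iff (hF0 a t (hrD ht)) (hF0 a' t (hrD ht))] at h3
        linear_combination h3
      obtain ⟨C, hC⟩ := hmul _ _ e1
      obtain ⟨C', hC'⟩ := hmul _ _ e2
      have hrel : ∀ t ∈ ball (0 : ℂ) r, (C' - C) * F (Sum.inl j) t = C' - 1 := by
        intro t ht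
        have h1 := hC t ht
        have h2 := hC' t ht
        rw [hFr, hFr] at h2
        simp only at h2
        linear_combination h2 + h1
      have hCC : C' = C := by
        by_contra hCC
        refine hldne _ (hncl j) fun t ht => ?_
        have h3 : F (Sum.inl j) =ᶠ[𝓝 t] fun _ => (C' - 1) / (C' - C) := by
          filter_upwards [isOpen_ball.mem_nhds ht] with t' ht'
          rw [eq_div_iff (sub_ne_zero.2 hCC)]
          linear_combination hrel t' ht'
        unfold ld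
        rw [h3.deriv_eq, deriv_const, zero_div]
      have hC1 : C = 1 := by
        have h3 := hrel 0 (mem_ball_self hr)
        rw [hCC, sub_self, zero_mul] at h3
        linear_combination -h3
      have h4 : EqOn (F (Sum.inl i)) (F (Sum.inl j)) D := by
        refine ((hFd _).analyticOnNhd hDo).eqOn_of_preconnected_of_eventuallyEq
          ((hFd _).analyticOnNhd hDo) hDc h0D ?_
        filter_upwards [ball_mem_nhds (0 : ℂ) hr] with t ht
        rw [hC t ht, hC1, one_mul]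
      exact hne i j hne' (h4 h1D)
    calc (N : ℕ∞) = (Set.univ : Set (Fin N)).encard := by
          rw [Set.encard_univ, ENat.card_eq_coe_fintype_card, Fintype.card_fin]
      _ = (φ '' Set.univ).encard := (hφi.encard_image _).symm
      _ ≤ _ := Set.encard_le_encard (by
          rintro _ ⟨j, -, rfl⟩
          exact hφW j)

end Pool.Agent.TH192.Gor
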