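import Pool.Agent.TH192.Gor.Etale
import Pool.Agent.Helper113.Gorin.Defs

/-!
# The étale set of logarithms over a complex line
-/

set_option autoImplicit false

open Metric Set Topology H113G

namespace Pool.Agent.TH192.Gor

lemma eq_of_exp_eq {a b : ℂ} (h : Complex.exp a = Complex.exp b) (hn : ‖a - b‖ < 1) : a = b := by
  obtain ⟨n, hn'⟩ := Complex.exp_eq_exp_iff_exists_int.1 h
  rw [hn'] at hn ⊢
  have h1 : ‖(n : ℂ) * (2 * Real.pi * Complex.I)‖ < 1 := by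
    convert hn using 2
    ring
  rw [norm_mul, norm_mul, norm_mul, Complex.norm_I, mul_one, Complex.norm_real,
    Real.norm_eq_abs, abs_of_pos Real.pi_pos, Complex.norm_intCast] at h1
  simp only [Complex.norm_ofNat] at h1
  have h2 : n = 0 := by
    by_contra hne
    have h3 : (1 : ℝ) ≤ |(n : ℝ)| := by
      rw [← Int.cast_abs]
      exact_mod_cast Int.one_le_abs hne
    have h4 := Real.pi_gt_three
    nlinarith
  rw [h2]
  simp

/-- composition of a holomorphic function on `Y` with a holomorphic curve in `Y` -/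
lemma HolOn.comp' {m : ℕ} {Y : Set (Fin m → ℂ)} {u : (Fin m → ℂ) → ℂ} (hu : HolOn Y u)
    {σ : ℂ → (Fin m → ℂ)} {t : ℂ} (hσ : DifferentiableAt ℂ σ t) (hY : ∀ᶠ t' in 𝓝 t, σ t' ∈ Y) :
    DifferentiableAt ℂ (fun t => u (σ t)) t := by
  obtain ⟨U, hU, htU, h, hd, he⟩ := hu (σ t) hY.self_of_nhds
  have h1 : DifferentiableAt ℂ (fun t => h (σ t)) t :=
    (hd.differentiableAt (hU.mem_nhds htU)).comp t hσ
  refine h1.congr_of_eventuallyEq ?_
  filter_upwards [hY, hσ.continuousAt.eventually (hU.mem_nhds htU)] with t' h2 h3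
  exact (he _ h2 h3).symm

lemma HolOn.continuousOn {m : ℕ} {Y : Set (Fin m → ℂ)} {u : (Fin m → ℂ) → ℂ}
    (hu : HolOn Y u) : ContinuousOn u Y := by
  intro y hy
  obtain ⟨U, hU, hyU, h, hd, he⟩ := hu y hy
  have h1 : ContinuousWithinAt h Y y :=
    (hd.differentiableAt (hU.mem_nhds hyU)).continuousAt.continuousWithinAt
  refine h1.congr_of_eventuallyEq ?_ (he y hy hyU).symm
  filter_upwards [self_mem_nhdsWithin, nhdsWithin_le_nhds (hU.mem_nhds hyU)] with x h2 h3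
  exact (he x h2 h3).symm

section

variable {m k ρ : ℕ} {Y : Set (Fin m → ℂ)} {pr : (Fin m → ℂ) → (Fin k → ℂ)}
  {δ : MvPolynomial (Fin k) ℂ} {e : ℕ} {g : Fin ρ → (Fin m → ℂ) → ℂ}

lemma sheet_nhds (h : Cov Y pr δ e) {z : Fin k → ℂ} {r : ℝ}
    {s : Fin e → (Fin k → ℂ) → (Fin m → ℂ)} (hs : ∀ i, DifferentiableOn ℂ (s i) (ball z r))
    (hs' : ∀ z' ∈ ball z r, MvPolynomial.eval z' δ ≠ 0 ∧ Function.Injective (fun i => s i z') ∧
        {y | y ∈ Y ∧ pr y = z'} = Set.range (fun i => s i z'))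
    {z1 : Fin k → ℂ} (hz1 : z1 ∈ ball z r) (i : Fin e) :
    ∀ᶠ y in 𝓝[Y] (s i z1), pr y ∈ ball z r ∧ y = s i (pr y) := by
  have hmem : s i z1 ∈ Y ∧ pr (s i z1) = z1 := by
    have : s i z1 ∈ {y | y ∈ Y ∧ pr y = z1} := by
      rw [(hs' z1 hz1).2.2]
      exact ⟨i, rfl⟩
    exact this
  have hprc : Continuous pr := h.diff.continuous
  have h1 : ∀ᶠ y in 𝓝[Y] (s i z1), pr y ∈ ball z r := by
    refine nhdsWithin_le_nhds (hprc.continuousAt.eventually ?_)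
    rw [hmem.2]
    exact isOpen_ball.mem_nhds hz1
  have h2 : ∀ᶠ y in 𝓝[Y] (s i z1), ∀ j, j ≠ i → y ≠ s j (pr y) := by
    refine nhdsWithin_le_nhds (Filter.eventually_all.2 ?_)
    intro j
    by_cases hj : j = i
    · exact Filter.Eventually.of_forall fun _ hj' => absurd hj hj'
    · have hc : ContinuousAt (fun y => y - s j (pr y)) (s i z1) := by
        refine continuousAt_id.sub ?_
        refine ContinuousAt.comp ?_ hprc.continuousAt
        rw [hmem.2]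
        exact ((hs j).differentiableAt (isOpen_ball.mem_nhds hz1)).continuousAt
      have hne : (fun y => y - s j (pr y)) (s i z1) ≠ 0 := by
        simp only [hmem.2]
        intro h0
        exact hj ((hs' z1 hz1).2.1 (sub_eq_zero.1 h0).symm)
      filter_upwards [hc.eventually_ne hne] with y hy _ hy'
      exact hy (sub_eq_zero.2 hy')
  filter_upwards [h1, h2, self_mem_nhdsWithin] with y h3 h4 h5
  refine ⟨h3, ?_⟩
  have h6 : y ∈ {y' | y' ∈ Y ∧ pr y' = pr y} := ⟨h5, rfl⟩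
  rw [(hs' _ h3).2.2] at h6
  obtain ⟨j, hj⟩ := h6
  by_cases hji : j = i
  · rw [← hji]
    exact hj.symm
  · exact absurd hj.symm (h4 j hji)

/-- points of `Y` over the line of `v` together with logarithms of the `g j` -/
def TL (Y : Set (Fin m → ℂ)) (pr : (Fin m → ℂ) → (Fin k → ℂ))
    (δ : MvPolynomial (Fin k) ℂ) (g : Fin ρ → (Fin m → ℂ) → ℂ) (v : Fin k → ℂ) :
    Set (ℂ × ((Fin m → ℂ) × (Fin ρ → ℂ))) :=
  {x | x.2.1 ∈ Y ∧ pr x.2.1 = x.1 • v ∧ MvPolynomial.eval (x.1 • v) δ ≠ 0 ∧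
    ∀ j, Complex.exp (x.2.2 j) = g j x.2.1}

/-- local sections over discs of uniform radius -/
theorem TL_sec (h : Cov Y pr δ e) (hg : ∀ j, HolOn Y (g j)) (hg0 : ∀ j, ∀ y ∈ Y, g j y ≠ 0)
    (v : Fin k → ℂ) {t0 : ℂ} (ht0 : MvPolynomial.eval (t0 • v) δ ≠ 0) :
    ∃ r : ℝ, 0 < r ∧ (∀ t ∈ ball t0 r, MvPolynomial.eval (t • v) δ ≠ 0) ∧
      (∃ σ : Fin e → ℂ → (Fin m → ℂ), (∀ i, DifferentiableOn ℂ (σ i) (ball t0 r)) ∧
        ∀ t ∈ ball t0 r, Function.Injective (fun i => σ i t) ∧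
        {y | y ∈ Y ∧ pr y = t • v} = Set.range (fun i => σ i t)) ∧
      ∀ x ∈ TL Y pr δ g v, x.1 ∈ ball t0 r →
      ∃ s : ℂ → (Fin m → ℂ) × (Fin ρ → ℂ), IsSec (TL Y pr δ g v) t0 r s ∧ s x.1 = x.2 ∧
        ∀ t ∈ ball t0 r, ∀ᶠ x' in 𝓝[TL Y pr δ g v] (t, s t), x'.2 = s x'.1 := by
  obtain ⟨r0, hr0, s0, hs0, hs0'⟩ := h.sections _ ht0
  have hcv : Continuous (fun t : ℂ => t • v) := by fun_prop
  have hdv : Differentiable ℂ (fun t : ℂ => t • v) := by fun_prop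
  set D : Set ℂ := {t | t • v ∈ ball (t0 • v) r0} with hD
  have hDo : IsOpen D := isOpen_ball.preimage hcv
  have ht0D : t0 ∈ D := mem_ball_self hr0
  set σ : Fin e → ℂ → (Fin m → ℂ) := fun i t => s0 i (t • v) with hσ
  have hσd : ∀ i, DifferentiableOn ℂ (σ i) D := fun i =>
    (hs0 i).comp hdv.differentiableOn (fun t ht => ht)
  have hσY : ∀ i, ∀ t ∈ D, σ i t ∈ Y ∧ pr (σ i t) = t • v := by
    intro i t ht
    have : σ i t ∈ {y | y ∈ Y ∧ pr y = t • v} := by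
      rw [(hs0' _ ht).2.2]
      exact ⟨i, rfl⟩
    exact this
  set f : Fin e → Fin ρ → ℂ → ℂ := fun i j t => g j (σ i t) with hf
  have hfd : ∀ i j, DifferentiableOn ℂ (f i j) D := by
    intro i j t ht
    refine (HolOn.comp' (hg j) ((hσd i).differentiableAt (hDo.mem_nhds ht)) ?_).differentiableWithinAt
    filter_upwards [hDo.mem_nhds ht] with t' ht'
    exact (hσY i t' ht').1
  have hf0 : ∀ i j, ∀ t ∈ D, f i j t ≠ 0 := fun i j t ht => hg0 j _ (hσY i t ht).1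
  have hslit : ∀ᶠ t in 𝓝 t0, ∀ i j, f i j t / f i j t0 ∈ Complex.slitPlane := by
    rw [Filter.eventually_all]
    intro i
    rw [Filter.eventually_all]
    intro j
    have hc : ContinuousAt (fun t => f i j t / f i j t0) t0 :=
      ((hfd i j).differentiableAt (hDo.mem_nhds ht0D)).continuousAt.div_const _
    refine hc.eventually (Complex.isOpen_slitPlane.mem_nhds ?_)
    change f i j t0 / f i j t0 ∈ Complex.slitPlane
    rw [div_self (hf0 i j t0 ht0D)]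
    exact Complex.one_mem_slitPlane
  obtain ⟨r, hr, hb⟩ := Metric.eventually_nhds_iff_ball.1 (hslit.and (hDo.mem_nhds ht0D))
  have hbD : ball t0 r ⊆ D := fun t ht => (hb t ht).2
  refine ⟨r, hr, fun t ht => (hs0' _ (hbD ht)).1, ⟨σ, fun i => (hσd i).mono hbD,
    fun t ht => ⟨(hs0' _ (hbD ht)).2.1, (hs0' _ (hbD ht)).2.2⟩⟩, ?_⟩
  intro x hx hxb
  obtain ⟨hxY, hxpr, -, hxe⟩ := hx
  have h1 : x.2.1 ∈ {y | y ∈ Y ∧ pr y = x.1 • v} := ⟨hxY, hxpr⟩
  rw [(hs0' _ (hbD hxb)).2.2] at h1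
  obtain ⟨i, hi⟩ := h1
  have hi' : σ i x.1 = x.2.1 := hi
  set L : Fin ρ → ℂ → ℂ := fun j t => Complex.log (f i j t / f i j t0) +
    Complex.log (f i j t0) with hL
  have hLd : ∀ j, DifferentiableOn ℂ (L j) (ball t0 r) := by
    intro j
    refine DifferentiableOn.add_const _ (DifferentiableOn.clog ?_ ?_)
    · exact ((hfd i j).mono hbD).div_const _
    · exact fun t ht => (hb t ht).1 i j
  have hLe : ∀ j, ∀ t ∈ ball t0 r, Complex.exp (L j t) = f i j t := by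
    intro j t ht
    simp only [hL]
    rw [Complex.exp_add, Complex.exp_log, Complex.exp_log (hf0 i j t0 ht0D),
      div_mul_cancel₀ _ (hf0 i j t0 ht0D)]
    exact div_ne_zero (hf0 i j t (hbD ht)) (hf0 i j t0 ht0D)
  have hn : ∀ j, ∃ n : ℤ, x.2.2 j = L j x.1 + n * (2 * Real.pi * Complex.I) := by
    intro j
    refine Complex.exp_eq_exp_iff_exists_int.1 ?_
    rw [hxe, hLe j _ hxb, ← hi']
  choose n hn using hn
  have hmem : ∀ t ∈ ball t0 r, (t, (σ i t, fun j => L j t + n j * (2 * Real.pi * Complex.I))) ∈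
      TL Y pr δ g v := by
    intro t ht
    refine ⟨(hσY i t (hbD ht)).1, (hσY i t (hbD ht)).2, (hs0' _ (hbD ht)).1, fun j => ?_⟩
    change Complex.exp (L j t + n j * (2 * Real.pi * Complex.I)) = g j (σ i t)
    rw [Complex.exp_add, Complex.exp_int_mul_two_pi_mul_I, mul_one, hLe j t ht]
  refine ⟨fun t => (σ i t, fun j => L j t + n j * (2 * Real.pi * Complex.I)), ⟨hr, ?_, hmem⟩,
    ?_, ?_⟩
  · refine ((hσd i).mono hbD).prodMk ?_
    rw [differentiableOn_pi]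
    intro j
    exact (hLd j).add_const _
  · refine Prod.ext hi' ?_
    funext j
    exact (hn j).symm
  · intro t ht
    have hfst : ∀ᶠ x' : ℂ × ((Fin m → ℂ) × (Fin ρ → ℂ)) in
        𝓝[TL Y pr δ g v] (t, (σ i t, fun j => L j t + n j * (2 * Real.pi * Complex.I))),
        x'.1 ∈ ball t0 r :=
      nhdsWithin_le_nhds (continuous_fst.continuousAt.eventually (isOpen_ball.mem_nhds ht))
    have hsh := sheet_nhds h hs0 hs0' (hbD ht) i
    have htend : Filter.Tendsto (fun x' : ℂ × ((Fin m → ℂ) × (Fin ρ → ℂ)) => x'.2.1)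
        (𝓝[TL Y pr δ g v] (t, (σ i t, fun j => L j t + n j * (2 * Real.pi * Complex.I))))
        (𝓝[Y] (s0 i (t • v))) := by
      refine tendsto_nhdsWithin_iff.2 ⟨?_, ?_⟩
      · have hc : Continuous (fun x' : ℂ × ((Fin m → ℂ) × (Fin ρ → ℂ)) => x'.2.1) := by fun_prop
        exact hc.continuousAt.tendsto.mono_left nhdsWithin_le_nhds
      · filter_upwards [self_mem_nhdsWithin] with x' hx'
        exact hx'.1
    have hlog : ∀ᶠ x' : ℂ × ((Fin m → ℂ) × (Fin ρ → ℂ)) in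
        𝓝[TL Y pr δ g v] (t, (σ i t, fun j => L j t + n j * (2 * Real.pi * Complex.I))),
        ∀ j, ‖x'.2.2 j - (L j x'.1 + n j * (2 * Real.pi * Complex.I))‖ < 1 := by
      refine nhdsWithin_le_nhds (Filter.eventually_all.2 ?_)
      intro j
      have hLc : ContinuousAt (L j) t :=
        ((hLd j).differentiableAt (isOpen_ball.mem_nhds ht)).continuousAt
      have hc : ContinuousAt (fun x' : ℂ × ((Fin m → ℂ) × (Fin ρ → ℂ)) =>
          ‖x'.2.2 j - (L j x'.1 + n j * (2 * Real.pi * Complex.I))‖)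
          (t, (σ i t, fun j => L j t + n j * (2 * Real.pi * Complex.I))) := by
        refine ContinuousAt.norm ?_
        refine ContinuousAt.sub ?_ ?_
        · have : Continuous (fun x' : ℂ × ((Fin m → ℂ) × (Fin ρ → ℂ)) => x'.2.2 j) := by fun_prop
          exact this.continuousAt
        · refine ContinuousAt.add_const ?_ _
          exact ContinuousAt.comp (f := Prod.fst)
            (x := (t, (σ i t, fun j => L j t + n j * (2 * Real.pi * Complex.I)))) hLc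
            continuous_fst.continuousAt
      refine hc.eventually (Iio_mem_nhds ?_)
      simp
    filter_upwards [hfst, htend.eventually hsh, hlog, self_mem_nhdsWithin] with x' h1 h2 h3 h4
    obtain ⟨h4Y, h4pr, -, h4e⟩ := h4
    have h5 : x'.2.1 = σ i x'.1 := by
      rw [h2.2, h4pr]
    refine Prod.ext h5 ?_
    funext j
    refine eq_of_exp_eq ?_ (h3 j)
    rw [h4e, h5]
    exact ((hmem x'.1 h1).2.2.2 j).symm

lemma TL_etale (h : Cov Y pr δ e) (hg : ∀ j, HolOn Y (g j)) (hg0 : ∀ j, ∀ y ∈ Y, g j y ≠ 0)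
    (v : Fin k → ℂ) : Etale (TL Y pr δ g v) := by
  intro x hx
  obtain ⟨r, hr, -, -, hs⟩ := TL_sec h hg hg0 v hx.2.2.1
  obtain ⟨s, h1, h2, h3⟩ := hs x hx (mem_ball_self hr)
  refine ⟨r, s, h1, h2, ?_⟩
  have h4 := h3 x.1 (mem_ball_self hr)
  rw [h2] at h4
  exact h4

/-- translation by periods -/
noncomputable def tau (m : ℕ) {ρ : ℕ} (n : Fin ρ → ℤ) (x : ℂ × ((Fin m → ℂ) × (Fin ρ → ℂ))) :
    ℂ × ((Fin m → ℂ) × (Fin ρ → ℂ)) :=
  (x.1, (x.2.1, fun j => x.2.2 j + n j * (2 * Real.pi * Complex.I)))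

lemma continuous_tau (n : Fin ρ → ℤ) : Continuous (tau m n) := by
  unfold tau
  fun_prop

lemma tau_mem {n : Fin ρ → ℤ} {v : Fin k → ℂ} {x : ℂ × ((Fin m → ℂ) × (Fin ρ → ℂ))}
    (hx : x ∈ TL Y pr δ g v) : tau m n x ∈ TL Y pr δ g v := by
  refine ⟨hx.1, hx.2.1, hx.2.2.1, fun j => ?_⟩
  change Complex.exp (x.2.2 j + n j * (2 * Real.pi * Complex.I)) = g j x.2.1
  rw [Complex.exp_add, Complex.exp_int_mul_two_pi_mul_I, mul_one, hx.2.2.2 j]

lemma tau_neg_tau (n : Fin ρ → ℤ) (x : ℂ × ((Fin m → ℂ) × (Fin ρ → ℂ))) :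
    tau m (-n) (tau m n x) = x := by
  unfold tau
  refine Prod.ext rfl (Prod.ext rfl ?_)
  funext j
  simp

lemma tau_tau_neg (n : Fin ρ → ℤ) (x : ℂ × ((Fin m → ℂ) × (Fin ρ → ℂ))) :
    tau m n (tau m (-n) x) = x := by
  have := tau_neg_tau (-n) x
  rwa [neg_neg] at this

lemma exists_tau {v : Fin k → ℂ} {t : ℂ} {y : Fin m → ℂ} {l l' : Fin ρ → ℂ}
    (hx : (t, (y, l)) ∈ TL Y pr δ g v) (hx' : (t, (y, l')) ∈ TL Y pr δ g v) :
    ∃ n : Fin ρ → ℤ, (t, (y, l')) = tau m n (t, (y, l)) := by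
  have : ∀ j, ∃ n : ℤ, l' j = l j + n * (2 * Real.pi * Complex.I) := by
    intro j
    refine Complex.exp_eq_exp_iff_exists_int.1 ?_
    exact (hx'.2.2.2 j).trans (hx.2.2.2 j).symm
  choose n hn using this
  refine ⟨n, Prod.ext rfl (Prod.ext rfl ?_)⟩
  funext j
  exact hn j

/-- the component of `x0` -/
def Comp (Y : Set (Fin m → ℂ)) (pr : (Fin m → ℂ) → (Fin k → ℂ))
    (δ : MvPolynomial (Fin k) ℂ) (g : Fin ρ → (Fin m → ℂ) → ℂ) (v : Fin k → ℂ)
    (x0 : ℂ × ((Fin m → ℂ) × (Fin ρ → ℂ))) : Set (ℂ × ((Fin m → ℂ) × (Fin ρ → ℂ))) :=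
  connectedComponentIn (TL Y pr δ g v) x0

lemma isPreconnected_Comp {v : Fin k → ℂ} {x0 : ℂ × ((Fin m → ℂ) × (Fin ρ → ℂ))} :
    IsPreconnected (Comp Y pr δ g v x0) := isPreconnected_connectedComponentIn

lemma Comp_subset {v : Fin k → ℂ} {x0 : ℂ × ((Fin m → ℂ) × (Fin ρ → ℂ))} :
    Comp Y pr δ g v x0 ⊆ TL Y pr δ g v := connectedComponentIn_subset _ _

lemma mem_Comp_self {v : Fin k → ℂ} {x0 : ℂ × ((Fin m → ℂ) × (Fin ρ → ℂ))}
    (hx0 : x0 ∈ TL Y pr δ g v) : x0 ∈ Comp Y pr δ g v x0 := mem_connectedComponentIn hx0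

lemma Comp_absorb {v : Fin k → ℂ} {x0 x : ℂ × ((Fin m → ℂ) × (Fin ρ → ℂ))}
    (hx : x ∈ Comp Y pr δ g v x0) {C : Set (ℂ × ((Fin m → ℂ) × (Fin ρ → ℂ)))}
    (hC : IsPreconnected C) (hCT : C ⊆ TL Y pr δ g v) (hxC : x ∈ C) :
    C ⊆ Comp Y pr δ g v x0 := by
  have h1 : connectedComponentIn (TL Y pr δ g v) x0 = connectedComponentIn (TL Y pr δ g v) x :=
    connectedComponentIn_eq hx
  unfold Comp
  rw [h1]
  exact hC.subset_connectedComponentIn hxC hCT

/-- translations preserving one point of the component preserve the base point -/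
lemma tau_Comp {v : Fin k → ℂ} {x0 x : ℂ × ((Fin m → ℂ) × (Fin ρ → ℂ))}
    (hx0 : x0 ∈ TL Y pr δ g v)
    {n : Fin ρ → ℤ} (hx : x ∈ Comp Y pr δ g v x0) (hx' : tau m n x ∈ Comp Y pr δ g v x0) :
    tau m n x0 ∈ Comp Y pr δ g v x0 := by
  have h1 : IsPreconnected (tau m n '' Comp Y pr δ g v x0) :=
    isPreconnected_Comp.image _ (continuous_tau n).continuousOn
  refine Comp_absorb hx' h1 ?_ ⟨x, hx, rfl⟩ ⟨x0, mem_Comp_self hx0, rfl⟩
  rintro _ ⟨z, hz, rfl⟩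
  exact tau_mem (Comp_subset hz)

/-- sections through points of the component stay in it -/
lemma sec_Comp {v : Fin k → ℂ} {x0 x : ℂ × ((Fin m → ℂ) × (Fin ρ → ℂ))}
    (hx : x ∈ Comp Y pr δ g v x0) {t0 : ℂ} {r : ℝ} {s : ℂ → (Fin m → ℂ) × (Fin ρ → ℂ)}
    (hs : IsSec (TL Y pr δ g v) t0 r s) (hxb : x.1 ∈ ball t0 r) (hsx : s x.1 = x.2) {t : ℂ}
    (ht : t ∈ ball t0 r) : (t, s t) ∈ Comp Y pr δ g v x0 := by
  have h1 : IsPreconnected ((fun t => (t, s t)) '' ball t0 r) :=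
    (convex_ball _ _).isPreconnected.image _ (continuousOn_id.prodMk hs.diff.continuousOn)
  refine Comp_absorb hx h1 ?_ ⟨x.1, hxb, Prod.ext rfl hsx⟩ ⟨t, ht, rfl⟩
  rintro _ ⟨z, hz, rfl⟩
  exact hs.mem z hz

end

end Pool.Agent.TH192.Gor
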