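import Pool.Agent.TH192.Gor.WL
import Pool.Agent.TH192.Gor.LineT

/-!
# Lifts over a half-plane
-/

set_option autoImplicit false

open Metric Set Topology H113G

namespace Pool.Agent.TH192.Gor

variable {m k ρ : ℕ} {Y : Set (Fin m → ℂ)} {pr : (Fin m → ℂ) → (Fin k → ℂ)}
  {δ : MvPolynomial (Fin k) ℂ} {e : ℕ} {g : Fin ρ → (Fin m → ℂ) → ℂ}

/-- the half-plane -/
abbrev HP (c : ℝ) : Type := ↥{s : ℂ | c < s.re}

lemma isOpen_HP (c : ℝ) : IsOpen {s : ℂ | c < s.re} := isOpen_lt continuous_const Complex.continuous_re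

lemma convex_HP (c : ℝ) : Convex ℝ {s : ℂ | c < s.re} := convex_halfSpace_re_gt c

instance (c : ℝ) : Nonempty (HP c) := ⟨⟨((c + 1 : ℝ) : ℂ), by simp⟩⟩

instance (c : ℝ) : ContractibleSpace (HP c) :=
  (convex_HP c).contractibleSpace ⟨((c + 1 : ℝ) : ℂ), by simp⟩

instance (c : ℝ) : LocallyPathConnectedSpace (HP c) := (isOpen_HP c).locallyPathConnectedSpace

/-- lifting the half-plane -/
theorem lift_half (h : Cov Y pr δ e) (hg : ∀ i, ContinuousOn (g i) Y)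
    (hg0 : ∀ i, ∀ y ∈ Y, g i y ≠ 0) {v : Fin k → ℂ} {c : ℝ}
    (hc : ∀ s : ℂ, c < s.re → MvPolynomial.eval (Complex.exp s • v) δ ≠ 0) {s1 : ℂ}
    (hs1 : c < s1.re) {w : (Fin m → ℂ) × (Fin ρ → ℂ)}
    (hw : (Complex.exp s1, w) ∈ TL Y pr δ g v) :
    ∃ ψ : ℂ → (Fin m → ℂ) × (Fin ρ → ℂ), ContinuousOn ψ {s : ℂ | c < s.re} ∧ ψ s1 = w ∧
      ∀ s : ℂ, c < s.re → (Complex.exp s, ψ s) ∈ TL Y pr δ g v := by
  classical
  have hq := isCov_qL h hg hg0
  let f : C(HP c, Sp δ) := ⟨fun s => ⟨Complex.exp s.1 • v, hc s.1 s.2⟩, by fun_prop⟩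
  let w' : WL Y pr δ g := ⟨w, hw.1, by
    have := hw.2.2.1
    rwa [← hw.2.1] at this, hw.2.2.2⟩
  obtain ⟨Φ, ⟨h1, h2⟩, -⟩ := hq.existsUnique_continuousMap_lifts f ⟨s1, hs1⟩ w'
    (Subtype.ext hw.2.1)
  refine ⟨fun s => if hs : c < s.re then (Φ ⟨s, hs⟩).1 else 0, ?_, ?_, ?_⟩
  · rw [continuousOn_iff_continuous_domRestrict]
    have h3 : Set.domRestrict {s : ℂ | c < s.re}
        (fun s => if hs : c < s.re then (Φ ⟨s, hs⟩).1 else 0) = fun s => (Φ s).1 := by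
      funext s
      simp only [Set.domRestrict_apply]
      exact dif_pos s.2
    rw [h3]
    exact continuous_subtype_val.comp Φ.continuous
  · simp only [dif_pos hs1]
    rw [h1]
  · intro s hs
    simp only [dif_pos hs]
    have h3 := congr_fun h2 ⟨s, hs⟩
    have h4 : pr (Φ ⟨s, hs⟩).1.1 = Complex.exp s • v := congrArg Subtype.val h3
    exact ⟨(Φ ⟨s, hs⟩).2.1, h4, hc s hs, (Φ ⟨s, hs⟩).2.2.2⟩

/-- uniqueness of lifts of the half-plane to `Y` -/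
theorem lift_unique (h : Cov Y pr δ e) {v : Fin k → ℂ} {c : ℝ}
    (hc : ∀ s : ℂ, c < s.re → MvPolynomial.eval (Complex.exp s • v) δ ≠ 0)
    {Λ Λ' : ℂ → (Fin m → ℂ)} (h1 : ContinuousOn Λ {s : ℂ | c < s.re})
    (h1' : ContinuousOn Λ' {s : ℂ | c < s.re})
    (h2 : ∀ s : ℂ, c < s.re → Λ s ∈ Y ∧ pr (Λ s) = Complex.exp s • v)
    (h2' : ∀ s : ℂ, c < s.re → Λ' s ∈ Y ∧ pr (Λ' s) = Complex.exp s • v)
    {s1 : ℂ} (hs1 : c < s1.re) (h3 : Λ s1 = Λ' s1) : ∀ s : ℂ, c < s.re → Λ s = Λ' s := by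
  have hq := isCov_q0 h
  let G : HP c → WL Y pr δ (g0 m) := fun s => ⟨(Λ s.1, fun i => i.elim0), (h2 s.1 s.2).1, by
    rw [(h2 s.1 s.2).2]
    exact hc s.1 s.2, fun i => i.elim0⟩
  let G' : HP c → WL Y pr δ (g0 m) := fun s => ⟨(Λ' s.1, fun i => i.elim0), (h2' s.1 s.2).1, by
    rw [(h2' s.1 s.2).2]
    exact hc s.1 s.2, fun i => i.elim0⟩
  have hG : Continuous G := Continuous.subtype_mk
    ((h1.comp_continuous continuous_subtype_val fun s => s.2).prodMk continuous_const) _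
  have hG' : Continuous G' := Continuous.subtype_mk
    ((h1'.comp_continuous continuous_subtype_val fun s => s.2).prodMk continuous_const) _
  have h4 : G = G' := by
    refine hq.eq_of_comp_eq hG hG' ?_ ⟨s1, hs1⟩ ?_
    · funext s
      apply Subtype.ext
      change pr (Λ s.1) = pr (Λ' s.1)
      rw [(h2 s.1 s.2).2, (h2' s.1 s.2).2]
    · apply Subtype.ext
      exact Prod.ext h3 rfl
  intro s hs
  exact congrArg (fun x : WL Y pr δ (g0 m) => x.1.1) (congr_fun h4 ⟨s, hs⟩)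

end Pool.Agent.TH192.Gor
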