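import Pool.Agent.TH192.Gor.EndL
import Pool.Agent.Helper113.Gorin.G_end_bounded
import Pool.Agent.Helper113.Gorin.G_end_growth

/-!
# The ends over a line, and boundedness of functions with single-valued logarithm
-/

set_option autoImplicit false

open Metric Set Topology H113G

namespace Pool.Agent.TH192.Gor

variable {m k ρ : ℕ} {Y : Set (Fin m → ℂ)} {pr : (Fin m → ℂ) → (Fin k → ℂ)}
  {δ : MvPolynomial (Fin k) ℂ} {e : ℕ} {g : Fin ρ → (Fin m → ℂ) → ℂ}

theorem ends (h : Cov Y pr δ e) {v : Fin k → ℂ} {c : ℝ}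
    (hc : ∀ s : ℂ, c < s.re → MvPolynomial.eval (Complex.exp s • v) δ ≠ 0) :
    ∃ Λ : Fin e → ℂ → (Fin m → ℂ), (∀ i, ContinuousOn (Λ i) {s : ℂ | c < s.re}) ∧
      (∀ i, ∀ s : ℂ, c < s.re → Λ i s ∈ Y ∧ pr (Λ i s) = Complex.exp s • v) ∧
      (∀ s : ℂ, c < s.re → ∀ y ∈ Y, pr y = Complex.exp s • v → ∃ i, y = Λ i s) ∧
      (∀ i, ∀ s : ℂ, c < s.re →
        Λ i (s + 2 * Real.pi * (e.factorial : ℕ) * Complex.I) = Λ i s) := by
  have hTL : ∀ {s : ℂ} {y : Fin m → ℂ}, c < s.re → y ∈ Y → pr y = Complex.exp s • v →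
      (Complex.exp s, (y, fun i => i.elim0)) ∈ TL Y pr δ (g0 m) v := fun hs hy hpr =>
    ⟨hy, hpr, hc _ hs, fun i => i.elim0⟩
  have hlift : ∀ {s : ℂ} {y : Fin m → ℂ}, c < s.re → y ∈ Y → pr y = Complex.exp s • v →
      ∃ Λ : ℂ → (Fin m → ℂ), ContinuousOn Λ {s : ℂ | c < s.re} ∧ Λ s = y ∧
        ∀ s : ℂ, c < s.re → Λ s ∈ Y ∧ pr (Λ s) = Complex.exp s • v := by
    intro s y hs hy hpr
    obtain ⟨ψ, h1, h2, h3⟩ := lift_half h (g := g0 m) (fun i => i.elim0) (fun i => i.elim0) hc hs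
      (hTL hs hy hpr)
    exact ⟨fun s => (ψ s).1, continuous_fst.comp_continuousOn h1, congrArg Prod.fst h2,
      fun s hs => ⟨(h3 s hs).1, (h3 s hs).2.1⟩⟩
  set s0 : ℂ := ((c + 1 : ℝ) : ℂ) with hs0def
  have hs0 : c < s0.re := by simp [hs0def]
  obtain ⟨r, hr, sec, -, hsec⟩ := h.sections _ (hc s0 hs0)
  obtain ⟨-, hinj, hfib⟩ := hsec _ (mem_ball_self hr)
  have hy0 : ∀ i, sec i (Complex.exp s0 • v) ∈ Y ∧
      pr (sec i (Complex.exp s0 • v)) = Complex.exp s0 • v := by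
    intro i
    have : sec i (Complex.exp s0 • v) ∈ {y | y ∈ Y ∧ pr y = Complex.exp s0 • v} := by
      rw [hfib]
      exact ⟨i, rfl⟩
    exact this
  choose Λ hΛc hΛ0 hΛ using fun i => hlift hs0 (hy0 i).1 (hy0 i).2
  have hne : ∀ i j, ∀ s : ℂ, c < s.re → Λ i s = Λ j s → i = j := by
    intro i j s hs hij
    have h1 := lift_unique h hc (hΛc i) (hΛc j) (hΛ i) (hΛ j) hs hij s0 hs0
    rw [hΛ0, hΛ0] at h1
    exact hinj h1
  have hall : ∀ Λ' : ℂ → (Fin m → ℂ), ContinuousOn Λ' {s : ℂ | c < s.re} →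
      (∀ s : ℂ, c < s.re → Λ' s ∈ Y ∧ pr (Λ' s) = Complex.exp s • v) →
      ∃ i, ∀ s : ℂ, c < s.re → Λ' s = Λ i s := by
    intro Λ' h1 h2
    have h3 : Λ' s0 ∈ {y | y ∈ Y ∧ pr y = Complex.exp s0 • v} := h2 s0 hs0
    rw [hfib] at h3
    obtain ⟨i, hi⟩ := h3
    refine ⟨i, lift_unique h hc h1 (hΛc i) h2 (hΛ i) hs0 ?_⟩
    rw [hΛ0]
    exact hi.symm
  refine ⟨Λ, hΛc, hΛ, ?_, ?_⟩
  · intro s hs y hy hpr
    obtain ⟨Λ', h1, h2, h3⟩ := hlift hs hy hpr
    obtain ⟨i, hi⟩ := hall Λ' h1 h3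
    exact ⟨i, by rw [← hi s hs, h2]⟩
  · have hre : ∀ (n : ℕ) (s : ℂ), (s + 2 * Real.pi * n * Complex.I).re = s.re := by
      intro n s
      have : 2 * (Real.pi : ℂ) * n * Complex.I = ((2 * Real.pi * n : ℝ) : ℂ) * Complex.I := by
        push_cast; ring
      rw [this, Complex.add_re, Complex.re_ofReal_mul, Complex.I_re, mul_zero, add_zero]
    have hexp : ∀ (n : ℕ) (s : ℂ), Complex.exp (s + 2 * Real.pi * n * Complex.I) =
        Complex.exp s := by
      intro n s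
      rw [Complex.exp_add]
      have : 2 * (Real.pi : ℂ) * n * Complex.I = n * (2 * Real.pi * Complex.I) := by ring
      rw [this, Complex.exp_nat_mul_two_pi_mul_I, mul_one]
    have hπ : ∀ i, ∃ j, ∀ s : ℂ, c < s.re →
        Λ i (s + 2 * Real.pi * (1 : ℕ) * Complex.I) = Λ j s := by
      intro i
      refine hall (fun s => Λ i (s + 2 * Real.pi * (1 : ℕ) * Complex.I)) ?_ ?_
      · refine (hΛc i).comp (by fun_prop) ?_
        intro s hs
        change c < (s + 2 * Real.pi * (1 : ℕ) * Complex.I).re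
        rw [hre]
        exact hs
      · intro s hs
        have := hΛ i (s + 2 * Real.pi * (1 : ℕ) * Complex.I) (by rw [hre]; exact hs)
        rw [hexp] at this
        exact this
    choose π hπ using hπ
    have hπi : Function.Injective π := by
      intro i j hij
      refine hne i j (s0 + 2 * Real.pi * (1 : ℕ) * Complex.I) (by rw [hre]; exact hs0) ?_
      rw [hπ i s0 hs0, hπ j s0 hs0, hij]
    have hπb : Function.Bijective π := Finite.injective_iff_bijective.1 hπi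
    let π' : Equiv.Perm (Fin e) := Equiv.ofBijective π hπb
    have hiter : ∀ (n : ℕ) (i : Fin e) (s : ℂ), c < s.re →
        Λ i (s + 2 * Real.pi * n * Complex.I) = Λ ((π' ^ n) i) s := by
      intro n
      induction n with
      | zero =>
        intro i s _
        simp
      | succ n ih =>
        intro i s hs
        have h1 : s + 2 * Real.pi * ((n + 1 : ℕ) : ℂ) * Complex.I =
            (s + 2 * Real.pi * n * Complex.I) + 2 * Real.pi * (1 : ℕ) * Complex.I := by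
          push_cast; ring
        rw [h1, hπ i _ (by rw [hre]; exact hs), ih _ s hs, pow_succ]
        rfl
    intro i s hs
    rw [hiter _ i s hs]
    have h1 : π' ^ e.factorial = 1 := by
      have := pow_card_eq_one' (x := π')
      rwa [Nat.card_eq_fintype_card, Fintype.card_perm, Fintype.card_fin] at this
    rw [h1]
    rfl

/-- polynomial growth along ends -/
def PolyGro {m : ℕ} (Y : Set (Fin m → ℂ)) (U : (Fin m → ℂ) → ℂ) : Prop :=
  ∀ (c : ℝ) (κ : ℕ) (Λ : ℂ → (Fin m → ℂ)), 0 < κ → DifferentiableOn ℂ Λ {s : ℂ | c < s.re} →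
    (∀ s : ℂ, c < s.re → Λ s ∈ Y) →
    (∀ s : ℂ, c < s.re → Λ (s + 2 * Real.pi * κ * Complex.I) = Λ s) →
    ∃ A C c' : ℝ, ∀ s : ℂ, c' < s.re → ‖U (Λ s)‖ ≤ C * Real.exp (A * s.re)

lemma exists_c (hδ0 : MvPolynomial.eval (0 : Fin k → ℂ) δ ≠ 0) (v : Fin k → ℂ) :
    ∃ Z : Set ℂ, Z.Finite ∧ ∀ t, MvPolynomial.eval (t • v) δ = 0 ↔ t ∈ Z := by
  let P : Polynomial ℂ := MvPolynomial.aeval
    (fun i => Polynomial.X * Polynomial.C (v i)) δ
  have hP : ∀ l, P.eval l = MvPolynomial.eval (l • v) δ := by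
    intro l
    simp only [P]
    rw [MvPolynomial.aeval_def, MvPolynomial.polynomial_eval_eval₂, MvPolynomial.eval]
    have h1 : (Polynomial.evalRingHom l).comp (algebraMap ℂ (Polynomial ℂ)) = RingHom.id ℂ := by
      ext x; simp
    rw [h1]
    change _ = MvPolynomial.eval₂ (RingHom.id ℂ) (l • v) δ
    congr 1
    funext i
    simp only [Polynomial.eval_mul, Polynomial.eval_X,
      Polynomial.eval_C, Pi.smul_apply, smul_eq_mul]
  have hP0 : P ≠ 0 := by
    intro h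
    have h1 := hP 0
    rw [h, Polynomial.eval_zero, zero_smul] at h1
    exact hδ0 h1.symm
  refine ⟨{l : ℂ | P.eval l = 0}, ?_, fun t => by
    rw [Set.mem_ofPred_eq, hP]⟩
  refine (P.roots.toFinset.finite_toSet).subset ?_
  intro l hl
  have hl' : P.eval l = 0 := hl
  simp only [Finset.mem_coe, Multiset.mem_toFinset]
  exact (Polynomial.mem_roots hP0).2 hl'

end Pool.Agent.TH192.Gor
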