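import Mathlib

/-!
# Étale subsets of `ℂ × F` and analytic continuation along them
-/

set_option autoImplicit false

open Metric Set Topology

namespace Pool.Agent.TH192.Gor

/-- induction along a preconnected subset -/
lemma induct_preconn {X : Type*} [TopologicalSpace X] {T C : Set X} (hC : IsPreconnected C)
    (hCT : C ⊆ T) {P : X → Prop} (hloc : ∀ x ∈ T, ∀ᶠ x' in 𝓝[T] x, (P x' ↔ P x)) {x0 : X}
    (hx0 : x0 ∈ C) (h0 : P x0) : ∀ x ∈ C, P x := by
  set u : Set X := {x | ∀ᶠ x' in 𝓝 x, x' ∈ T → P x'} with hu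
  set w : Set X := {x | ∀ᶠ x' in 𝓝 x, x' ∈ T → ¬ P x'} with hw
  have huo : IsOpen u := isOpen_setOf_eventually_nhds
  have hwo : IsOpen w := isOpen_setOf_eventually_nhds
  have h1 : ∀ x ∈ T, P x → x ∈ u := by
    intro x hx hP
    have := eventually_nhdsWithin_iff.1 (hloc x hx)
    filter_upwards [this] with x' h hx'
    exact (h hx').2 hP
  have h2 : ∀ x ∈ T, ¬ P x → x ∈ w := by
    intro x hx hP
    have := eventually_nhdsWithin_iff.1 (hloc x hx)
    filter_upwards [this] with x' h hx' hP'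
    exact hP ((h hx').1 hP')
  intro x hx
  by_contra hcon
  obtain ⟨z, hz, hzu, hzw⟩ := hC u w huo hwo (fun z hz => by
      by_cases h : P z
      · exact Or.inl (h1 z (hCT hz) h)
      · exact Or.inr (h2 z (hCT hz) h))
    ⟨x0, hx0, h1 x0 (hCT hx0) h0⟩ ⟨x, hx, h2 x (hCT hx) hcon⟩
  exact (hzw.self_of_nhds (hCT hz)) (hzu.self_of_nhds (hCT hz))

variable {F : Type*} [NormedAddCommGroup F] [NormedSpace ℂ F]

/-- a holomorphic section of `T` over a disc -/
structure IsSec (T : Set (ℂ × F)) (t0 : ℂ) (r : ℝ) (s : ℂ → F) : Prop where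
  pos : 0 < r
  diff : DifferentiableOn ℂ s (ball t0 r)
  mem : ∀ t ∈ ball t0 r, (t, s t) ∈ T

/-- `T` is étale over `ℂ` -/
def Etale (T : Set (ℂ × F)) : Prop :=
  ∀ x ∈ T, ∃ (r : ℝ) (s : ℂ → F), IsSec T x.1 r s ∧ s x.1 = x.2 ∧
    ∀ᶠ x' in 𝓝[T] x, x'.2 = s x'.1

lemma tendsto_sec {T : Set (ℂ × F)} {s : ℂ → F} {t : ℂ} (hs : ContinuousAt s t)
    (hm : ∀ᶠ t' in 𝓝 t, (t', s t') ∈ T) :
    Filter.Tendsto (fun t' => (t', s t')) (𝓝 t) (𝓝[T] (t, s t)) := by
  refine tendsto_nhdsWithin_iff.2 ⟨?_, hm⟩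
  exact (continuousAt_id.prodMk hs)

lemma Etale.germ {T : Set (ℂ × F)} (hT : Etale T) {s s' : ℂ → F} {t : ℂ}
    (hs : ContinuousAt s t) (hs' : ContinuousAt s' t) (hm : ∀ᶠ t' in 𝓝 t, (t', s t') ∈ T)
    (hm' : ∀ᶠ t' in 𝓝 t, (t', s' t') ∈ T) (h : s t = s' t) : s =ᶠ[𝓝 t] s' := by
  obtain ⟨r, s0, -, -, h0⟩ := hT _ hm.self_of_nhds
  have h1 := (tendsto_sec hs hm).eventually h0
  have h2 : Filter.Tendsto (fun t' => (t', s' t')) (𝓝 t) (𝓝[T] (t, s t)) := by
    rw [h]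
    exact tendsto_sec hs' hm'
  filter_upwards [h1, h2.eventually h0] with t' e1 e2
  exact e1.trans e2.symm

open Classical in
/-- the derivative of the local section -/
noncomputable def dsec (T : Set (ℂ × F)) (x : ℂ × F) : F :=
  if h : ∃ s : ℂ → F, ContinuousAt s x.1 ∧ (∀ᶠ t in 𝓝 x.1, (t, s t) ∈ T) ∧ s x.1 = x.2 then
    deriv h.choose x.1 else 0

lemma Etale.dsec_eq {T : Set (ℂ × F)} (hT : Etale T) {s : ℂ → F} {t : ℂ}
    (hs : ContinuousAt s t) (hm : ∀ᶠ t' in 𝓝 t, (t', s t') ∈ T) :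
    dsec T (t, s t) = deriv s t := by
  have h : ∃ s' : ℂ → F, ContinuousAt s' (t, s t).1 ∧ (∀ᶠ t' in 𝓝 (t, s t).1, (t', s' t') ∈ T) ∧
      s' (t, s t).1 = (t, s t).2 := ⟨s, hs, hm, rfl⟩
  unfold dsec
  rw [dif_pos h]
  have h1 := h.choose_spec
  exact (hT.germ h1.1 hs h1.2.1 hm h1.2.2).deriv_eq

lemma Etale.dsec_sec {T : Set (ℂ × F)} (hT : Etale T) {t0 : ℂ} {r : ℝ} {s : ℂ → F}
    (hs : IsSec T t0 r s) {t : ℂ} (ht : t ∈ ball t0 r) : dsec T (t, s t) = deriv s t := by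
  have hn : ball t0 r ∈ 𝓝 t := isOpen_ball.mem_nhds ht
  refine hT.dsec_eq (hs.diff.differentiableAt hn).continuousAt ?_
  filter_upwards [hn] with t' ht'
  exact hs.mem t' ht'

/-- analytic continuation along a preconnected subset of an étale set -/
theorem continuation [CompleteSpace F] {T : Set (ℂ × F)} (hT : Etale T)
    {H : (ℂ × F) × F → ℂ} (hH : Differentiable ℂ H) {C : Set (ℂ × F)} (hC : IsPreconnected C)
    (hCT : C ⊆ T) {x0 : ℂ × F} (hx0 : x0 ∈ C)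
    (h0 : ∀ᶠ x in 𝓝[T] x0, H (x, dsec T x) = 0) : ∀ x ∈ C, H (x, dsec T x) = 0 := by
  have key : ∀ x ∈ C, ∀ᶠ x' in 𝓝[T] x, H (x', dsec T x') = 0 := by
    refine induct_preconn hC hCT (P := fun x => ∀ᶠ x' in 𝓝[T] x, H (x', dsec T x') = 0) ?_ hx0 h0
    intro x hx
    obtain ⟨r, s, hs, hsx, hev⟩ := hT x hx
    have hn : ball x.1 r ∈ 𝓝 x.1 := isOpen_ball.mem_nhds (mem_ball_self hs.pos)
    set φ : ℂ → ℂ := fun t => H ((t, s t), deriv s t) with hφ
    have hφd : DifferentiableOn ℂ φ (ball x.1 r) := by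
      refine hH.comp_differentiableOn ?_
      exact ((differentiableOn_id.prodMk hs.diff).prodMk (hs.diff.deriv isOpen_ball))
    have hφa : AnalyticOnNhd ℂ φ (ball x.1 r) := hφd.analyticOnNhd isOpen_ball
    have hfst : ∀ᶠ x' : ℂ × F in 𝓝[T] x, x'.1 ∈ ball x.1 r :=
      nhdsWithin_le_nhds (continuous_fst.continuousAt.eventually hn)
    have claim : ∀ x' ∈ T, x'.1 ∈ ball x.1 r → x'.2 = s x'.1 →
        (∀ᶠ x'' in 𝓝[T] x', x''.2 = s x''.1) →
        ((∀ᶠ x'' in 𝓝[T] x', H (x'', dsec T x'') = 0) ↔ ∀ t ∈ ball x.1 r, φ t = 0) := by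
      intro x' hx' hb he hee
      have hn' : ball x.1 r ∈ 𝓝 x'.1 := isOpen_ball.mem_nhds hb
      have hxe : x' = (x'.1, s x'.1) := Prod.ext rfl he
      constructor
      · intro hz
        have hc : ContinuousAt s x'.1 := (hs.diff.differentiableAt hn').continuousAt
        have hm : ∀ᶠ t' in 𝓝 x'.1, (t', s t') ∈ T := by
          filter_upwards [hn'] with t' ht'
          exact hs.mem t' ht'
        have ht := tendsto_sec hc hm
        rw [← hxe] at ht
        have h2 : φ =ᶠ[𝓝 x'.1] 0 := by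
          filter_upwards [ht.eventually hz, hn'] with t' h3 ht'
          rw [hT.dsec_sec hs ht'] at h3
          exact h3
        intro t htb
        exact hφa.eqOn_zero_of_preconnected_of_eventuallyEq_zero
          (convex_ball _ _).isPreconnected hb h2 htb
      · intro hz
        have hfst' : ∀ᶠ x'' : ℂ × F in 𝓝[T] x', x''.1 ∈ ball x.1 r :=
          nhdsWithin_le_nhds (continuous_fst.continuousAt.eventually hn')
        filter_upwards [hee, hfst'] with x'' h1 h2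
        have hxe' : x'' = (x''.1, s x''.1) := Prod.ext rfl h1
        have h3 := hz _ h2
        simp only [hφ] at h3
        rw [← hT.dsec_sec hs h2, ← hxe'] at h3
        exact h3
    have hx1 := claim x hx (mem_ball_self hs.pos) hsx.symm hev
    filter_upwards [hfst, hev, eventually_eventually_nhdsWithin.2 hev, self_mem_nhdsWithin]
      with x' h1 h2 h3 h4
    rw [claim x' h4 h1 h2 h3, hx1]
  intro x hx
  exact (key x hx).self_of_nhdsWithin (hCT hx)

/-- continuous maps into an étale set are holomorphic -/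
lemma Etale.differentiableAt {T : Set (ℂ × F)} (hT : Etale T) {φ : ℂ → ℂ} {ψ : ℂ → F} {s1 : ℂ}
    (hφ : DifferentiableAt ℂ φ s1) (hψ : ContinuousAt ψ s1)
    (hm : ∀ᶠ s in 𝓝 s1, (φ s, ψ s) ∈ T) : DifferentiableAt ℂ ψ s1 := by
  obtain ⟨r, s, hs, hsx, hev⟩ := hT _ hm.self_of_nhds
  have ht : Filter.Tendsto (fun s => (φ s, ψ s)) (𝓝 s1) (𝓝[T] (φ s1, ψ s1)) :=
    tendsto_nhdsWithin_iff.2 ⟨hφ.continuousAt.prodMk hψ, hm⟩
  have h1 : ψ =ᶠ[𝓝 s1] fun x => s (φ x) := ht.eventually hev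
  refine DifferentiableAt.congr_of_eventuallyEq ?_ h1
  have h2 : DifferentiableAt ℂ s (φ s1) :=
    hs.diff.differentiableAt (isOpen_ball.mem_nhds (mem_ball_self hs.pos))
  exact h2.comp s1 hφ

end Pool.Agent.TH192.Gor
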