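import Pool.Agent.TH192.Gor.Bdd
import Pool.Agent.Helper113.Gorin.G_big_picard
import Pool.Agent.Helper113.Gorin.Schottky

/-!
# Growth of functions omitting `0, 1`, and closure properties
-/

set_option autoImplicit false

open Metric Set Topology H113G

namespace Pool.Agent.TH192.Gor

variable {m : ℕ} {Y : Set (Fin m → ℂ)}

lemma polyGro_omit {u : (Fin m → ℂ) → ℂ} (hu : HolOn Y u) (h0 : ∀ y ∈ Y, u y ≠ 0)
    (h1 : ∀ y ∈ Y, u y ≠ 1) : PolyGro Y u := by
  intro c κ Λ hκ hΛ hΛY hper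
  refine end_growth (fun {f r} hr hf h0 h1 => big_picard schottky_all hr hf h0 h1)
    (φ := fun s => u (Λ s)) hκ ?_ ?_ (fun s hs => h0 _ (hΛY s hs)) (fun s hs => h1 _ (hΛY s hs))
  · intro s hs
    have hn : {s : ℂ | c < s.re} ∈ 𝓝 s :=
      (isOpen_lt continuous_const Complex.continuous_re).mem_nhds hs
    refine (HolOn.comp' hu (hΛ.differentiableAt hn) ?_).differentiableWithinAt
    filter_upwards [hn] with s' hs'
    exact hΛY s' hs'
  · intro s hs
    rw [hper s hs]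

lemma PolyGro.one : PolyGro Y (fun _ => 1) := by
  intro c κ Λ _ _ _ _
  refine ⟨0, 1, 0, fun s _ => ?_⟩
  simp

lemma PolyGro.mul {u w : (Fin m → ℂ) → ℂ} (hu : PolyGro Y u) (hw : PolyGro Y w) :
    PolyGro Y (fun y => u y * w y) := by
  intro c κ Λ h1 h2 h3 h4
  obtain ⟨A, C, c', h⟩ := hu c κ Λ h1 h2 h3 h4
  obtain ⟨A', C', c'', h'⟩ := hw c κ Λ h1 h2 h3 h4
  refine ⟨A + A', C * C', max c' c'', fun s hs => ?_⟩
  have e1 := h s (lt_of_le_of_lt (le_max_left _ _) hs)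
  have e2 := h' s (lt_of_le_of_lt (le_max_right _ _) hs)
  rw [norm_mul, add_mul, Real.exp_add]
  calc ‖u (Λ s)‖ * ‖w (Λ s)‖ ≤ (C * Real.exp (A * s.re)) * (C' * Real.exp (A' * s.re)) :=
        mul_le_mul e1 e2 (norm_nonneg _) ((norm_nonneg _).trans e1)
    _ = _ := by ring

lemma PolyGro.pow {u : (Fin m → ℂ) → ℂ} (hu : PolyGro Y u) (n : ℕ) :
    PolyGro Y (fun y => u y ^ n) := by
  induction n with
  | zero =>
    simp only [pow_zero]
    exact PolyGro.one
  | succ n ih =>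
    simp only [pow_succ]
    exact PolyGro.mul ih hu

lemma PolyGro.zpow {u : (Fin m → ℂ) → ℂ} (hu : PolyGro Y u)
    (hu' : PolyGro Y (fun y => (u y)⁻¹)) (n : ℤ) : PolyGro Y (fun y => u y ^ n) := by
  cases n with
  | ofNat n =>
    simp only [Int.ofNat_eq_natCast, zpow_natCast]
    exact PolyGro.pow hu n
  | negSucc n =>
    simp only [zpow_negSucc]
    have := PolyGro.pow hu' (n + 1)
    simp only [inv_pow] at this
    exact this

lemma PolyGro.prod {n : ℕ} {u : Fin n → (Fin m → ℂ) → ℂ} (hu : ∀ j, PolyGro Y (u j))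
    (s : Finset (Fin n)) : PolyGro Y (fun y => ∏ j ∈ s, u j y) := by
  classical
  induction s using Finset.induction_on with
  | empty =>
    simp only [Finset.prod_empty]
    exact PolyGro.one
  | insert a s ha ih =>
    simp only [Finset.prod_insert ha]
    exact PolyGro.mul (hu a) ih

/-- functions omitting `0` and `1` -/
structure Om (Y : Set (Fin m → ℂ)) (u : (Fin m → ℂ) → ℂ) : Prop where
  hol : HolOn Y u
  ne0 : ∀ y ∈ Y, u y ≠ 0
  ne1 : ∀ y ∈ Y, u y ≠ 1

lemma holOn_const (c : ℂ) : HolOn Y (fun _ => c) := fun _ _ =>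
  ⟨Set.univ, isOpen_univ, Set.mem_univ _, fun _ => c, differentiableOn_const _, fun _ _ _ => rfl⟩

lemma Om.sub {u : (Fin m → ℂ) → ℂ} (hu : Om Y u) : Om Y (fun y => 1 - u y) :=
  ⟨HolOn.sub (holOn_const 1) hu.hol, fun y hy h => hu.ne1 y hy (by linear_combination -h),
    fun y hy h => hu.ne0 y hy (by linear_combination -h)⟩

lemma Om.inv {u : (Fin m → ℂ) → ℂ} (hu : Om Y u) : Om Y (fun y => (u y)⁻¹) := by
  refine ⟨?_, fun y hy => inv_ne_zero (hu.ne0 y hy), fun y hy h => hu.ne1 y hy ?_⟩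
  · have := HolOn.zpow hu.hol hu.ne0 (-1)
    simp only [zpow_neg, zpow_one] at this
    exact this
  · exact inv_eq_one.1 h

lemma Om.gro {u : (Fin m → ℂ) → ℂ} (hu : Om Y u) : PolyGro Y u :=
  polyGro_omit hu.hol hu.ne0 hu.ne1

lemma Om.gro_prod {n : ℕ} {u : Fin n → (Fin m → ℂ) → ℂ} (hu : ∀ j, Om Y (u j))
    (a : Fin n → ℤ) : PolyGro Y (fun y => ∏ j, u j y ^ a j) :=
  PolyGro.prod (fun j => PolyGro.zpow (hu j).gro (hu j).inv.gro (a j)) Finset.univ

end Pool.Agent.TH192.Gor
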