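import Pool.Agent.TH192.Gor.Bdd

/-!
# A Liouville theorem on the part of `Y` over a line
-/

set_option autoImplicit false

open Metric Set Topology H113G

namespace Pool.Agent.TH192.Gor

/-- bounded holomorphic functions off a finite set are constant -/
lemma const_of_bdd {Z : Set ℂ} (hZ : Z.Finite) : ∀ {f : ℂ → ℂ}, DifferentiableOn ℂ f Zᶜ →
    ∀ {M : ℝ}, (∀ z ∈ Zᶜ, ‖f z‖ ≤ M) → ∃ w, ∀ z ∈ Zᶜ, f z = w := by
  induction Z, hZ using Set.Finite.induction_on with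
  | empty =>
    intro f hf M hM
    rw [compl_empty, differentiableOn_univ] at hf
    rw [compl_empty] at hM
    refine ⟨f 0, fun z _ => hf.apply_eq_apply_of_bounded ?_ z 0⟩
    rw [isBounded_iff_forall_norm_le]
    exact ⟨M, by rintro _ ⟨z, rfl⟩; exact hM z (Set.mem_univ _)⟩
  | @insert a Z ha hZ ih =>
    intro f hf M hM
    have hs : Zᶜ ∈ 𝓝 a := hZ.isClosed.isOpen_compl.mem_nhds ha
    have he : (insert a Z)ᶜ = Zᶜ \ {a} := by
      ext z
      simp only [mem_compl_iff, mem_insert_iff, mem_sdiff, mem_singleton_iff, not_or]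
      tauto
    rw [he] at hf hM
    have h1 := Complex.differentiableOn_update_limUnder_of_bddAbove hs hf
      ⟨M, by rintro _ ⟨z, hz, rfl⟩; exact hM z hz⟩
    set f1 := Function.update f a ((𝓝[≠] a).limUnder f) with hf1
    obtain ⟨w, hw⟩ := ih h1 (M := max M ‖f1 a‖) (by
      intro z hz
      by_cases hza : z = a
      · rw [hza]
        exact le_max_right _ _
      · have : f1 z = f z := Function.update_of_ne hza _ _
        rw [this]
        exact (hM z ⟨hz, hza⟩).trans (le_max_left _ _))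
    refine ⟨w, fun z hz => ?_⟩
    rw [he] at hz
    have : f1 z = f z := Function.update_of_ne hz.2 _ _
    rw [← this]
    exact hw z hz.1

variable {m k ρ : ℕ} {Y : Set (Fin m → ℂ)} {pr : (Fin m → ℂ) → (Fin k → ℂ)}
  {δ : MvPolynomial (Fin k) ℂ} {e : ℕ} {g : Fin ρ → (Fin m → ℂ) → ℂ}

/-- local uniqueness of sections of `Y` over the line -/
lemma sec_germ (h : Cov Y pr δ e) {v : Fin k → ℂ} {σ σ' : ℂ → (Fin m → ℂ)} {t : ℂ}
    (hσ : ContinuousAt σ t) (hσ' : ContinuousAt σ' t)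
    (hm : ∀ᶠ t' in 𝓝 t, σ t' ∈ Y ∧ pr (σ t') = t' • v)
    (hm' : ∀ᶠ t' in 𝓝 t, σ' t' ∈ Y ∧ pr (σ' t') = t' • v)
    (hδ : MvPolynomial.eval (t • v) δ ≠ 0) (he : σ t = σ' t) : σ =ᶠ[𝓝 t] σ' := by
  have hT : Etale (TL Y pr δ (g0 m) v) := TL_etale h (fun i => i.elim0) (fun i => i.elim0) v
  have hδ' : ∀ᶠ t' in 𝓝 t, MvPolynomial.eval (t' • v) δ ≠ 0 := by
    have hc : Continuous (fun t : ℂ => MvPolynomial.eval (t • v) δ) :=
      (continuous_eval' δ).comp (by fun_prop)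
    exact hc.continuousAt.eventually_ne hδ
  have h1 := hT.germ (s := fun t => (σ t, fun i => i.elim0)) (s' := fun t => (σ' t, fun i => i.elim0))
    (hσ.prodMk continuousAt_const) (hσ'.prodMk continuousAt_const)
    (by
      filter_upwards [hm, hδ'] with t' h2 h3
      exact ⟨h2.1, h2.2, h3, fun i => i.elim0⟩)
    (by
      filter_upwards [hm', hδ'] with t' h2 h3
      exact ⟨h2.1, h2.2, h3, fun i => i.elim0⟩)
    (by rw [he])
  filter_upwards [h1] with t' h2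
  exact congrArg Prod.fst h2

/-- two sections over a disc which agree at a point agree -/
lemma sec_eqOn (h : Cov Y pr δ e) {v : Fin k → ℂ} {σ σ' : ℂ → (Fin m → ℂ)} {D : Set ℂ}
    (hDo : IsOpen D) (hDc : IsPreconnected D)
    (hσ : DifferentiableOn ℂ σ D) (hσ' : DifferentiableOn ℂ σ' D)
    (hm : ∀ t ∈ D, σ t ∈ Y ∧ pr (σ t) = t • v)
    (hm' : ∀ t ∈ D, σ' t ∈ Y ∧ pr (σ' t) = t • v)
    {t : ℂ} (ht : t ∈ D)
    (hδ : MvPolynomial.eval (t • v) δ ≠ 0) (he : σ t = σ' t) : EqOn σ σ' D := by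
  have hn := hDo.mem_nhds ht
  have h1 : σ =ᶠ[𝓝 t] σ' := by
    refine sec_germ h (hσ.differentiableAt hn).continuousAt
      (hσ'.differentiableAt hn).continuousAt ?_ ?_ hδ he
    · filter_upwards [hn] with t' ht'
      exact hm t' ht'
    · filter_upwards [hn] with t' ht'
      exact hm' t' ht'
  exact (hσ.analyticOnNhd hDo).eqOn_of_preconnected_of_eventuallyEq (hσ'.analyticOnNhd hDo)
    hDc ht h1

theorem liouville (h : Cov Y pr δ e) (hg : ∀ j, HolOn Y (g j))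
    (hg0 : ∀ j, ∀ y ∈ Y, g j y ≠ 0)
    {v : Fin k → ℂ} {x0 : ℂ × ((Fin m → ℂ) × (Fin ρ → ℂ))} (hx0 : x0 ∈ TL Y pr δ g v)
    (a : Fin ρ → ℤ)
    (hker : ∀ n : Fin ρ → ℤ, tau m n x0 ∈ Comp Y pr δ g v x0 → ∑ j, a j * n j = 0)
    (hU : PolyGro Y (fun y => ∏ j, g j y ^ a j))
    {σ : ℂ → (Fin m → ℂ)} {D : Set ℂ} (hDo : IsOpen D) (hDc : IsPreconnected D)
    (hσ : DifferentiableOn ℂ σ D) (hm : ∀ t ∈ D, σ t ∈ Y ∧ pr (σ t) = t • v)
    (hx0D : x0.1 ∈ D) (hσ0 : σ x0.1 = x0.2.1) :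
    ∀ t ∈ D, ∏ j, g j (σ t) ^ a j = ∏ j, g j (σ x0.1) ^ a j := by
  classical
  obtain ⟨M, hM⟩ := bounded_Comp h hg hg0 hx0 a hker hU
  obtain ⟨Z, hZf, hZ⟩ := exists_c h.base v
  set U : (Fin m → ℂ) → ℂ := fun y => ∏ j, g j y ^ a j with hUdef
  have hUhol : HolOn Y U := holOn_prod hg hg0 a
  set C0 := Comp Y pr δ g v x0 with hC0
  let Φ : ℂ → ℂ → ℂ := fun τ t => ∏ᶠ y ∈ {y | y ∈ Y ∧ pr y = t • v},
    (if ∃ l, (t, (y, l)) ∈ C0 then τ - U y else 1)
  -- local description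
  have hloc : ∀ t0 ∈ Zᶜ, ∃ r : ℝ, 0 < r ∧ ∃ σ' : Fin e → ℂ → (Fin m → ℂ),
      (∀ i, DifferentiableOn ℂ (σ' i) (ball t0 r)) ∧
      (∀ i, ∀ t ∈ ball t0 r, σ' i t ∈ Y ∧ pr (σ' i t) = t • v) ∧
      {y | y ∈ Y ∧ pr y = t0 • v} = Set.range (fun i => σ' i t0) ∧
      ∀ τ, ∀ t ∈ ball t0 r, Φ τ t =
        ∏ i, (if ∃ l, (t0, (σ' i t0, l)) ∈ C0 then τ - U (σ' i t) else 1) := by
    intro t0 ht0
    have hδ0 : MvPolynomial.eval (t0 • v) δ ≠ 0 := fun h0 => ht0 ((hZ t0).1 h0)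
    obtain ⟨r, hr, hrδ, ⟨σ', hσ'd, hσ'f⟩, hsec⟩ := TL_sec h hg hg0 v hδ0
    have hσ'm : ∀ i, ∀ t ∈ ball t0 r, σ' i t ∈ Y ∧ pr (σ' i t) = t • v := by
      intro i t ht
      have : σ' i t ∈ {y | y ∈ Y ∧ pr y = t • v} := by
        rw [(hσ'f t ht).2]
        exact ⟨i, rfl⟩
      exact this
    have hmove : ∀ i, ∀ t1 ∈ ball t0 r, ∀ t2 ∈ ball t0 r, (∃ l, (t1, (σ' i t1, l)) ∈ C0) →
        ∃ l, (t2, (σ' i t2, l)) ∈ C0 := by
      rintro i t1 ht1 t2 ht2 ⟨l, hl⟩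
      obtain ⟨s, hs, hs1, -⟩ := hsec _ (Comp_subset hl) ht1
      have h1 := sec_Comp hl hs ht1 hs1 ht2
      have h2 : EqOn (fun t => (s t).1) (σ' i) (ball t0 r) := by
        refine sec_eqOn h isOpen_ball (convex_ball _ _).isPreconnected
          (fun t ht => ?_) (hσ'd i)
          (fun t ht => ⟨(hs.mem t ht).1, (hs.mem t ht).2.1⟩) (hσ'm i) ht1 (hrδ t1 ht1) ?_
        · exact (differentiable_fst.differentiableAt.comp t
            (hs.diff.differentiableAt (isOpen_ball.mem_nhds ht))).differentiableWithinAt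
        · exact congrArg Prod.fst hs1
      refine ⟨(s t2).2, ?_⟩
      rw [← h2 ht2]
      exact h1
    refine ⟨r, hr, σ', hσ'd, hσ'm, (hσ'f t0 (mem_ball_self hr)).2, ?_⟩
    intro τ t ht
    change (∏ᶠ y ∈ {y | y ∈ Y ∧ pr y = t • v},
      (if ∃ l, (t, (y, l)) ∈ C0 then τ - U y else 1)) = _
    rw [(hσ'f t ht).2, finprod_mem_range (hσ'f t ht).1, finprod_eq_prod_of_fintype]
    refine Finset.prod_congr rfl fun i _ => ?_
    have h1 : (∃ l, (t, (σ' i t, l)) ∈ C0) ↔ ∃ l, (t0, (σ' i t0, l)) ∈ C0 :=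
      ⟨hmove i t ht t0 (mem_ball_self hr), hmove i t0 (mem_ball_self hr) t ht⟩
    by_cases h2 : ∃ l, (t0, (σ' i t0, l)) ∈ C0
    · rw [if_pos (h1.2 h2), if_pos h2]
    · rw [if_neg (fun h3 => h2 (h1.1 h3)), if_neg h2]
  have hΦconst : ∀ τ, ∃ w, ∀ t ∈ Zᶜ, Φ τ t = w := by
    intro τ
    refine const_of_bdd hZf (M := (‖τ‖ + |M| + 1) ^ e) ?_ ?_
    · intro t0 ht0
      obtain ⟨r, hr, σ', hσ'd, hσ'm, -, hΦ⟩ := hloc t0 ht0
      have hn : ball t0 r ∈ 𝓝 t0 := ball_mem_nhds t0 hr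
      have h1 : DifferentiableAt ℂ (fun t => ∏ i,
          (if ∃ l, (t0, (σ' i t0, l)) ∈ C0 then τ - U (σ' i t) else 1)) t0 := by
        refine DifferentiableAt.fun_finsetProd fun i _ => ?_
        by_cases h2 : ∃ l, (t0, (σ' i t0, l)) ∈ C0
        · simp only [if_pos h2]
          refine (differentiableAt_const _).sub (HolOn.comp' hUhol
            ((hσ'd i).differentiableAt hn) ?_)
          filter_upwards [hn] with t ht
          exact (hσ'm i t ht).1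
        · simp only [if_neg h2]
          exact differentiableAt_const _
      refine (h1.congr_of_eventuallyEq ?_).differentiableWithinAt
      filter_upwards [hn] with t ht
      exact hΦ τ t ht
    · intro t0 ht0
      obtain ⟨r, hr, σ', hσ'd, hσ'm, -, hΦ⟩ := hloc t0 ht0
      rw [hΦ τ t0 (mem_ball_self hr), norm_prod]
      have h1 : ∀ i : Fin e, ‖(if ∃ l, (t0, (σ' i t0, l)) ∈ C0 then τ - U (σ' i t0) else 1)‖ ≤
          ‖τ‖ + |M| + 1 := by
        intro i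
        by_cases h2 : ∃ l, (t0, (σ' i t0, l)) ∈ C0
        · rw [if_pos h2]
          obtain ⟨l, hl⟩ := h2
          have h3 := hM _ hl
          have h4 : ‖τ - U (σ' i t0)‖ ≤ ‖τ‖ + ‖U (σ' i t0)‖ := norm_sub_le _ _
          have h5 : ‖U (σ' i t0)‖ ≤ |M| := h3.trans (le_abs_self M)
          linarith
        · rw [if_neg h2, norm_one]
          have := abs_nonneg M
          have := norm_nonneg τ
          linarith
      calc ∏ i, ‖(if ∃ l, (t0, (σ' i t0, l)) ∈ C0 then τ - U (σ' i t0) else 1)‖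
          ≤ ∏ _i : Fin e, (‖τ‖ + |M| + 1) :=
            Finset.prod_le_prod (fun i _ => norm_nonneg _) (fun i _ => h1 i)
        _ = (‖τ‖ + |M| + 1) ^ e := by simp
  have hx0Z : x0.1 ∈ Zᶜ := fun h0 => hx0.2.2.1 ((hZ _).2 h0)
  -- values over the base point
  have hzero : ∀ t ∈ Zᶜ, ∀ y l, (t, (y, l)) ∈ C0 → Φ (U y) t = 0 := by
    intro t ht y l hl
    obtain ⟨r, hr, σ', hσ'd, hσ'm, hfib, hΦ⟩ := hloc t ht
    rw [hΦ _ t (mem_ball_self hr)]
    have h1 : y ∈ {y | y ∈ Y ∧ pr y = t • v} := ⟨(Comp_subset hl).1, (Comp_subset hl).2.1⟩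
    rw [hfib] at h1
    obtain ⟨i, hi⟩ := h1
    refine Finset.prod_eq_zero (Finset.mem_univ i) ?_
    have hi' : σ' i t = y := hi
    rw [hi', if_pos ⟨l, hl⟩, sub_self]
  have hfin : ∃ V : Set ℂ, V.Finite ∧ ∀ τ, Φ τ x0.1 = 0 → τ ∈ V := by
    obtain ⟨r, hr, σ', hσ'd, hσ'm, -, hΦ⟩ := hloc _ hx0Z
    refine ⟨Set.range fun i => U (σ' i x0.1), Set.finite_range _, fun τ hτ => ?_⟩
    rw [hΦ _ _ (mem_ball_self hr), Finset.prod_eq_zero_iff] at hτ
    obtain ⟨i, -, hi⟩ := hτ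
    by_cases h2 : ∃ l, (x0.1, (σ' i x0.1, l)) ∈ C0
    · rw [if_pos h2] at hi
      exact ⟨i, (sub_eq_zero.1 hi).symm⟩
    · rw [if_neg h2] at hi
      exact absurd hi one_ne_zero
  obtain ⟨V, hVf, hV⟩ := hfin
  -- near the base point the function is constant
  have hδ0 := hx0.2.2.1
  obtain ⟨r, hr, hrδ, -, hsec⟩ := TL_sec h hg hg0 v hδ0
  obtain ⟨s, hs, hs1, -⟩ := hsec x0 hx0 (mem_ball_self hr)
  have hsV : ∀ t ∈ ball x0.1 r, U (s t).1 ∈ V := by
    intro t ht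
    have h1 : (t, s t) ∈ C0 := sec_Comp (mem_Comp_self hx0) hs (mem_ball_self hr) hs1 ht
    have htZ : t ∈ Zᶜ := fun h0 => hrδ t ht ((hZ t).2 h0)
    have h2 := hzero t htZ (s t).1 (s t).2 h1
    obtain ⟨w, hw⟩ := hΦconst (U (s t).1)
    apply hV
    rw [hw _ hx0Z, ← hw t htZ, h2]
  have hUs : ContinuousOn (fun t => U (s t).1) (ball x0.1 r) := by
    intro t ht
    have hn := isOpen_ball.mem_nhds ht
    refine (HolOn.comp' hUhol (σ := fun t => (s t).1) (differentiable_fst.differentiableAt.comp t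
      (hs.diff.differentiableAt hn)) ?_).continuousAt.continuousWithinAt
    filter_upwards [hn] with t' ht'
    exact (hs.mem t' ht').1
  have hconst : ∀ t ∈ ball x0.1 r, U (s t).1 = U (s x0.1).1 := fun t ht =>
    (convex_ball _ _).isPreconnected.constant_of_mapsTo hVf.isDiscrete hUs hsV ht
      (mem_ball_self hr)
  -- conclusion
  have hnD : D ∈ 𝓝 x0.1 := hDo.mem_nhds hx0D
  have hnb : ball x0.1 r ∈ 𝓝 x0.1 := ball_mem_nhds _ hr
  have hge : σ =ᶠ[𝓝 x0.1] fun t => (s t).1 := by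
    refine sec_germ h (hσ.differentiableAt hnD).continuousAt
      (continuous_fst.continuousAt.comp
        (hs.diff.differentiableAt hnb).continuousAt) ?_ ?_ hδ0 ?_
    · filter_upwards [hnD] with t ht
      exact hm t ht
    · filter_upwards [hnb] with t ht
      exact ⟨(hs.mem t ht).1, (hs.mem t ht).2.1⟩
    · rw [hσ0, hs1]
  have hUσ : DifferentiableOn ℂ (fun t => U (σ t)) D := by
    intro t ht
    have hn := hDo.mem_nhds ht
    refine (HolOn.comp' hUhol (hσ.differentiableAt hn) ?_).differentiableWithinAt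
    filter_upwards [hn] with t' ht'
    exact (hm t' ht').1
  have hfinal : EqOn (fun t => U (σ t)) (fun _ => U (σ x0.1)) D := by
    refine (hUσ.analyticOnNhd hDo).eqOn_of_preconnected_of_eventuallyEq
      analyticOnNhd_const hDc hx0D ?_
    filter_upwards [hge, hnb] with t h1 h2
    rw [h1, hconst t h2, hge.self_of_nhds]
  exact fun t ht => hfinal ht

end Pool.Agent.TH192.Gor
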