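import Pool.Agent.TH192.Gor.Growth
import Pool.Agent.TH192.Gor.Liou
import Pool.Agent.TH192.Gor.Jobs

/-!
# Choice of a good line, and dependence along it
-/

set_option autoImplicit false

open Metric Set Topology H113G

namespace Pool.Agent.TH192.Gor

variable {m k : ℕ} {Y : Set (Fin m → ℂ)} {pr : (Fin m → ℂ) → (Fin k → ℂ)}
  {δ : MvPolynomial (Fin k) ℂ} {e : ℕ}

/-- a holomorphic sheet over a ball around the origin -/
lemma exists_sheet (h : Cov Y pr δ e) : ∃ (r : ℝ) (s : (Fin k → ℂ) → (Fin m → ℂ)), 0 < r ∧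
    DifferentiableOn ℂ s (ball 0 r) ∧
    (∀ z ∈ ball (0 : Fin k → ℂ) r, MvPolynomial.eval z δ ≠ 0 ∧ s z ∈ Y ∧ pr (s z) = z) ∧
    ∀ z ∈ ball (0 : Fin k → ℂ) r, ∀ᶠ y in 𝓝[Y] (s z), y = s (pr y) := by
  obtain ⟨r, hr, s, hs, hs'⟩ := h.sections 0 h.base
  have hi : Nonempty (Fin e) := by
    obtain ⟨y, hy, hyδ⟩ := h.dominant δ (by
      rintro rfl
      exact h.base (by simp))
    obtain ⟨r', hr', s', -, hs''⟩ := h.sections _ hyδ
    have h1 : y ∈ {y' | y' ∈ Y ∧ pr y' = pr y} := ⟨hy, rfl⟩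
    rw [(hs'' _ (mem_ball_self hr')).2.2] at h1
    obtain ⟨i, -⟩ := h1
    exact ⟨i⟩
  obtain ⟨i⟩ := hi
  refine ⟨r, s i, hr, hs i, fun z hz => ?_, fun z hz => ?_⟩
  · have h1 : s i z ∈ {y | y ∈ Y ∧ pr y = z} := by
      rw [(hs' z hz).2.2]
      exact ⟨i, rfl⟩
    exact ⟨(hs' z hz).1, h1.1, h1.2⟩
  · filter_upwards [sheet_nhds h hs hs' hz i] with y hy
    exact hy.2

/-- finitely many nonzero holomorphic functions are simultaneously nonzero on the sheet -/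
lemma exists_good_point (h : Cov Y pr δ e) (hc : HasCharts Y) (hconn : IsConnected Y)
    {r : ℝ} {s : (Fin k → ℂ) → (Fin m → ℂ)} (hr : 0 < r)
    (hs : DifferentiableOn ℂ s (ball 0 r))
    (hsY : ∀ z ∈ ball (0 : Fin k → ℂ) r, MvPolynomial.eval z δ ≠ 0 ∧ s z ∈ Y ∧ pr (s z) = z)
    (hsn : ∀ z ∈ ball (0 : Fin k → ℂ) r, ∀ᶠ y in 𝓝[Y] (s z), y = s (pr y))
    {ι : Type*} [Finite ι] (u : ι → (Fin m → ℂ) → ℂ) (hu : ∀ i, HolOn Y (u i))
    (hu0 : ∀ i, ∃ y ∈ Y, u i y ≠ 0) :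
    ∃ z ∈ ball (0 : Fin k → ℂ) r, ∀ i, u i (s z) ≠ 0 := by
  classical
  cases nonempty_fintype ι
  have key : ∀ i, ∀ V : Set (Fin k → ℂ), IsOpen V → V ⊆ ball 0 r → V.Nonempty →
      ∃ z ∈ V, u i (s z) ≠ 0 := by
    intro i V hV hVr ⟨z0, hz0⟩
    by_contra hcon
    push Not at hcon
    have h1 : ∀ᶠ y in 𝓝[Y] (s z0), pr y ∈ V := by
      refine nhdsWithin_le_nhds (h.diff.continuous.continuousAt.eventually ?_)
      rw [(hsY z0 (hVr hz0)).2.2]
      exact hV.mem_nhds hz0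
    have h2 : ∀ᶠ y in 𝓝[Y] (s z0), u i y = 0 := by
      filter_upwards [h1, hsn z0 (hVr hz0)] with y e1 e2
      rw [e2]
      exact hcon _ e1
    rw [eventually_nhdsWithin_iff] at h2
    obtain ⟨O, hO, hOo, hzO⟩ := _root_.eventually_nhds_iff.1 h2
    obtain ⟨y, hy, hyu⟩ := hu0 i
    exact hyu (identity hc hconn (hu i) hOo ⟨s z0, (hsY z0 (hVr hz0)).2.1, hzO⟩
      (fun y hy => hO y hy.2 hy.1) y hy)
  have hcont : ∀ i, ContinuousOn (fun z => u i (s z)) (ball 0 r) := fun i =>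
    (HolOn.continuousOn (hu i)).comp hs.continuousOn fun z hz => (hsY z hz).2.1
  have hfin : ∀ T : Finset ι, ∃ V : Set (Fin k → ℂ), IsOpen V ∧ V ⊆ ball 0 r ∧ V.Nonempty ∧
      ∀ i ∈ T, ∀ z ∈ V, u i (s z) ≠ 0 := by
    intro T
    induction T using Finset.induction_on with
    | empty => exact ⟨ball 0 r, isOpen_ball, Subset.rfl, ⟨0, mem_ball_self hr⟩, fun i hi =>
        absurd hi (Finset.notMem_empty i)⟩
    | insert a T ha ih =>
      obtain ⟨V, hVo, hVr, hVne, hV⟩ := ih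
      obtain ⟨z, hz, hz0⟩ := key a V hVo hVr hVne
      refine ⟨V ∩ (fun z => u a (s z)) ⁻¹' {0}ᶜ,
        ((hcont a).mono hVr).isOpen_inter_preimage hVo isOpen_compl_singleton,
        inter_subset_left.trans hVr, ⟨z, hz, hz0⟩, ?_⟩
      intro i hi z' hz'
      rcases Finset.mem_insert.1 hi with rfl | hi
      · exact hz'.2
      · exact hV i hi z' hz'.1
  obtain ⟨V, -, hVr, ⟨z, hz⟩, hV⟩ := hfin Finset.univ
  exact ⟨z, hVr hz, fun i => hV i (Finset.mem_univ i) z hz⟩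

/-- products with a logarithm on `Y` are constant along sections over lines -/
theorem log_const (h : Cov Y pr δ e) {n : ℕ} {g : Fin n → (Fin m → ℂ) → ℂ}
    (hg : ∀ j, Om Y (g j)) (a : Fin n → ℤ) (hlog : HasLog Y (fun y => ∏ j, g j y ^ a j))
    {v : Fin k → ℂ} {σ : ℂ → (Fin m → ℂ)} {D : Set ℂ} (hDo : IsOpen D) (hDc : IsPreconnected D)
    (hσ : DifferentiableOn ℂ σ D) (hm : ∀ t ∈ D, σ t ∈ Y ∧ pr (σ t) = t • v)
    (h0D : (0 : ℂ) ∈ D) :
    ∀ t ∈ D, ∏ j, g j (σ t) ^ a j = ∏ j, g j (σ 0) ^ a j := by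
  have hg0 : ∀ j, ∀ y ∈ Y, g j y ≠ 0 := fun j => (hg j).ne0
  set x0 : ℂ × ((Fin m → ℂ) × (Fin n → ℂ)) := (0, (σ 0, fun j => Complex.log (g j (σ 0)))) with hx0d
  have hx0 : x0 ∈ TL Y pr δ g v := by
    refine ⟨(hm 0 h0D).1, (hm 0 h0D).2, ?_, fun j => ?_⟩
    · change MvPolynomial.eval ((0 : ℂ) • v) δ ≠ 0
      rw [zero_smul]
      exact h.base
    · exact Complex.exp_log (hg0 j _ (hm 0 h0D).1)
  obtain ⟨H, hHc, hH⟩ := hlog
  have hker : ∀ q : Fin n → ℤ, tau m q x0 ∈ Comp Y pr δ g v x0 → ∑ j, a j * q j = 0 := by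
    intro q hq
    let Θ : ℂ × ((Fin m → ℂ) × (Fin n → ℂ)) → ℂ := fun x => ∑ j, (a j : ℂ) * x.2.2 j - H x.2.1
    have hΘc : ContinuousOn Θ (TL Y pr δ g v) := by
      refine ContinuousOn.sub ?_ ?_
      · have : Continuous (fun x : ℂ × ((Fin m → ℂ) × (Fin n → ℂ)) =>
            ∑ j, (a j : ℂ) * x.2.2 j) := by fun_prop
        exact this.continuousOn
      · have h1 : Continuous (fun x : ℂ × ((Fin m → ℂ) × (Fin n → ℂ)) => x.2.1) := by fun_prop
        exact hHc.comp h1.continuousOn fun x hx => hx.1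
    have hΘe : ∀ x ∈ TL Y pr δ g v, Complex.exp (Θ x) = 1 := by
      intro x hx
      simp only [Θ]
      rw [Complex.exp_sub, exp_sum_TL hx a, hH _ hx.1]
      exact div_self (Finset.prod_ne_zero_iff.2 fun j _ => zpow_ne_zero _ (hg0 j _ hx.1))
    have h2 := induct_preconn (T := TL Y pr δ g v) (C := Comp Y pr δ g v x0)
      isPreconnected_Comp Comp_subset (P := fun x => Θ x = Θ x0) (by
        intro x hx
        have h3 : ∀ᶠ x' in 𝓝[TL Y pr δ g v] x, Θ x' = Θ x := by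
          have h4 : ∀ᶠ x' in 𝓝[TL Y pr δ g v] x, ‖Θ x' - Θ x‖ < 1 := by
            have h5 : ContinuousWithinAt (fun x' => ‖Θ x' - Θ x‖) (TL Y pr δ g v) x :=
              ((hΘc x hx).sub continuousWithinAt_const).norm
            refine h5.eventually (Iio_mem_nhds ?_)
            simp
          filter_upwards [h4, self_mem_nhdsWithin] with x' h5 h6
          exact eq_of_exp_eq (by rw [hΘe x' h6, hΘe x hx]) h5
        filter_upwards [h3] with x' h4
        rw [h4]) (mem_Comp_self hx0) rfl _ hq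
    simp only [Θ, tau, mul_add, Finset.sum_add_distrib] at h2
    have h3 : ∑ j, (a j : ℂ) * ((q j : ℂ) * (2 * Real.pi * Complex.I)) = 0 := by
      linear_combination h2
    have h4 : (((∑ j, a j * q j : ℤ)) : ℂ) * (2 * Real.pi * Complex.I) = 0 := by
      rw [← h3]
      push_cast
      rw [Finset.sum_mul]
      refine Finset.sum_congr rfl fun j _ => ?_
      ring
    exact_mod_cast (mul_eq_zero.1 h4).resolve_right Complex.two_pi_I_ne_zero
  exact liouville h (fun j => (hg j).hol) hg0 hx0 a hker (Om.gro_prod hg a) hDo hDc hσ hm h0D rfl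

end Pool.Agent.TH192.Gor
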