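import Pool.Agent.TH192.Gor.Trans

/-!
# Bump homotopies moving the zeros, and bad directions near a stable direction
-/

set_option autoImplicit false

open Metric Set Topology H113G

namespace Pool.Agent.TH192.Gor

variable {k : ℕ} {δ : MvPolynomial (Fin k) ℂ}

/-- the cut-off function -/
noncomputable def chi (a : ℂ) (η : ℝ) (t : ℂ) : ℝ := max 0 (min 1 (2 - ‖t - a‖ / η))

lemma continuous_chi (a : ℂ) (η : ℝ) : Continuous (chi a η) := by
  unfold chi
  fun_prop

lemma chi_nonneg (a : ℂ) (η : ℝ) (t : ℂ) : 0 ≤ chi a η t := le_max_left _ _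

lemma chi_le_one (a : ℂ) (η : ℝ) (t : ℂ) : chi a η t ≤ 1 :=
  max_le zero_le_one (min_le_left _ _)

lemma chi_eq_one {a : ℂ} {η : ℝ} (hη : 0 < η) {t : ℂ} (h : ‖t - a‖ ≤ η) : chi a η t = 1 := by
  unfold chi
  have : ‖t - a‖ / η ≤ 1 := (div_le_one hη).2 h
  rw [min_eq_left (by linarith), max_eq_right zero_le_one]

lemma chi_eq_zero {a : ℂ} {η : ℝ} (hη : 0 < η) {t : ℂ} (h : 2 * η ≤ ‖t - a‖) :
    chi a η t = 0 := by
  unfold chi
  have : 2 ≤ ‖t - a‖ / η := (le_div_iff₀ hη).2 h
  rw [max_eq_left]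
  exact (min_le_right _ _).trans (by linarith)

theorem bump_homotopy (hδ0 : MvPolynomial.eval (0 : Fin k → ℂ) δ ≠ 0) {v₁ : Fin k → ℂ}
    (hst : RootStable δ v₁) : ∃ ε : ℝ, 0 < ε ∧ ∀ z ∈ ball v₁ ε, ∀ z' ∈ ball v₁ ε,
      ∃ Ψ : C(unitInterval × ℂ, ℂ), (∀ t, Ψ (0, t) = t) ∧ (∀ l, Ψ (l, 0) = 0) ∧
        ∀ l t, MvPolynomial.eval (t • z) δ ≠ 0 →
          MvPolynomial.eval (Ψ (l, t) • seg z z' l) δ ≠ 0 := by
  obtain ⟨N, a, hinj, hz, hst⟩ := hst
  have ha0 : ∀ i, a i ≠ 0 := by
    intro i h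
    have h1 := (hz (a i)).2 ⟨i, rfl⟩
    rw [h, zero_smul] at h1
    exact hδ0 h1
  -- the separation constant
  obtain ⟨η, hη, hsep, hsep0⟩ : ∃ η : ℝ, 0 < η ∧ (∀ i j, i ≠ j → 8 * η ≤ ‖a i - a j‖) ∧
      ∀ i, 8 * η ≤ ‖a i‖ := by
    have h1 : ∀ᶠ η : ℝ in 𝓝[>] 0, ∀ i j, i ≠ j → 8 * η ≤ ‖a i - a j‖ := by
      rw [Filter.eventually_all]
      intro i
      rw [Filter.eventually_all]
      intro j
      by_cases hij : i = j
      · exact Filter.Eventually.of_forall fun _ h => absurd hij h
      · have hpos : 0 < ‖a i - a j‖ := norm_pos_iff.2 (sub_ne_zero.2 (hinj.ne hij))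
        have : ∀ᶠ η : ℝ in 𝓝[>] 0, η < ‖a i - a j‖ / 8 :=
          nhdsWithin_le_nhds (Iio_mem_nhds (by positivity))
        filter_upwards [this] with η h _
        linarith
    have h2 : ∀ᶠ η : ℝ in 𝓝[>] 0, ∀ i, 8 * η ≤ ‖a i‖ := by
      rw [Filter.eventually_all]
      intro i
      have hpos : 0 < ‖a i‖ := norm_pos_iff.2 (ha0 i)
      have : ∀ᶠ η : ℝ in 𝓝[>] 0, η < ‖a i‖ / 8 :=
        nhdsWithin_le_nhds (Iio_mem_nhds (by positivity))
      filter_upwards [this] with η h
      linarith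
    obtain ⟨η, h⟩ := ((h1.and h2).and self_mem_nhdsWithin).exists
    exact ⟨η, h.2, h.1.1, h.1.2⟩
  obtain ⟨ε, hε, hb⟩ := hst (η / 4) (by positivity)
  refine ⟨ε, hε, ?_⟩
  choose! b hba hbz using hb
  -- continuity of the zeros
  have hbc : ∀ i, ContinuousOn (fun v => b v i) (ball v₁ ε) := by
    intro i v hv
    refine ContinuousAt.continuousWithinAt ?_
    rw [Metric.continuousAt_iff']
    intro s hs
    set K : Set ℂ := closedBall (a i) η ∩ {t | s ≤ dist t (b v i)} with hK
    have hKc : IsCompact K := by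
      refine (isCompact_closedBall _ _).inter_right ?_
      exact isClosed_le continuous_const (continuous_id.dist continuous_const)
    have h1 : ∀ t ∈ K, MvPolynomial.eval (t • v) δ ≠ 0 := by
      intro t ht h0
      obtain ⟨j, rfl⟩ := (hbz v hv t).1 h0
      by_cases hij : j = i
      · subst hij
        have := ht.2
        simp only [Set.mem_setOf_eq, dist_self] at this
        linarith
      · have h2 := hsep j i hij
        have h3 := hba v hv j
        have h4 : dist (b v j) (a i) ≤ η := ht.1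
        rw [dist_eq_norm] at h4
        have h5 : ‖a j - a i‖ ≤ ‖b v j - a j‖ + ‖b v j - a i‖ := by
          have : a j - a i = -(b v j - a j) + (b v j - a i) := by ring
          rw [this]
          exact (norm_add_le _ _).trans (by rw [norm_neg])
        linarith
    have hcont : Continuous (fun p : (Fin k → ℂ) × ℂ => MvPolynomial.eval (p.2 • p.1) δ) := by
      refine (continuous_eval' δ).comp ?_
      fun_prop
    have h2 := hKc.eventually_forall_of_forall_eventually
      (x₀ := v) (P := fun z' t => MvPolynomial.eval (t • z') δ ≠ 0) (by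
        intro t ht
        exact (hcont.continuousAt (x := (v, t))).eventually_ne (h1 t ht))
    filter_upwards [h2, Metric.isOpen_ball.mem_nhds hv] with v' h3 hv'
    by_contra hcon
    push Not at hcon
    have h4 : b v' i ∈ K := by
      refine ⟨?_, hcon⟩
      rw [mem_closedBall, dist_eq_norm]
      have := hba v' hv' i
      linarith
    exact h3 _ h4 ((hbz v' hv' _).2 ⟨i, rfl⟩)
  intro z hzb z' hzb'
  have hseg : ∀ l, seg z z' l ∈ ball v₁ ε := fun l => seg_mem_ball hzb hzb' l
  have hbs : ∀ i, Continuous (fun l : unitInterval => b (seg z z' l) i) := by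
    intro i
    exact (hbc i).comp_continuous (continuous_seg z z') hseg
  let Ψ : C(unitInterval × ℂ, ℂ) :=
    ⟨fun p => p.2 + ∑ i, (chi (a i) η p.2 : ℂ) * (b (seg z z' p.1) i - b z i), by
      refine continuous_snd.add (continuous_finsetSum _ fun i _ => ?_)
      have h1 : Continuous (fun p : unitInterval × ℂ => (chi (a i) η p.2 : ℂ)) :=
        Complex.continuous_ofReal.comp ((continuous_chi (a i) η).comp continuous_snd)
      have h2 : Continuous (fun p : unitInterval × ℂ => b (seg z z' p.1) i) :=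
        (hbs i).comp continuous_fst
      exact h1.mul (h2.sub continuous_const)⟩
  have hΨ : ∀ l t, Ψ (l, t) = t + ∑ i, (chi (a i) η t : ℂ) * (b (seg z z' l) i - b z i) :=
    fun l t => rfl
  have hd : ∀ l i, ‖b (seg z z' l) i - b z i‖ ≤ η / 2 := by
    intro l i
    have h1 := hba _ (hseg l) i
    have h2 := hba z hzb i
    have : b (seg z z' l) i - b z i = (b (seg z z' l) i - a i) - (b z i - a i) := by ring
    rw [this]
    refine (norm_sub_le _ _).trans ?_
    linarith
  -- near a root only one term survives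
  have hsum : ∀ l t j, ‖t - a j‖ ≤ 2 * η →
      ∑ i, (chi (a i) η t : ℂ) * (b (seg z z' l) i - b z i) =
        (chi (a j) η t : ℂ) * (b (seg z z' l) j - b z j) := by
    intro l t j hj
    refine Finset.sum_eq_single j ?_ ?_
    · intro i _ hij
      have h2 := hsep i j hij
      have h3 : 2 * η ≤ ‖t - a i‖ := by
        have h4 : ‖a i - a j‖ ≤ ‖t - a i‖ + ‖t - a j‖ := by
          have : a i - a j = -(t - a i) + (t - a j) := by ring
          rw [this]
          exact (norm_add_le _ _).trans (by rw [norm_neg])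
        linarith
      rw [chi_eq_zero hη h3]
      simp
    · intro h
      exact absurd (Finset.mem_univ j) h
  have hdisp : ∀ l t, ‖∑ i, (chi (a i) η t : ℂ) * (b (seg z z' l) i - b z i)‖ ≤ η / 2 := by
    intro l t
    by_cases h : ∃ j, ‖t - a j‖ ≤ 2 * η
    · obtain ⟨j, hj⟩ := h
      rw [hsum l t j hj, norm_mul, Complex.norm_real, Real.norm_eq_abs,
        abs_of_nonneg (chi_nonneg _ _ _)]
      calc _ ≤ 1 * (η / 2) := mul_le_mul (chi_le_one _ _ _) (hd l j) (norm_nonneg _) zero_le_one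
        _ = η / 2 := one_mul _
    · push Not at h
      have h0 : ∑ i, (chi (a i) η t : ℂ) * (b (seg z z' l) i - b z i) = 0 := by
        refine Finset.sum_eq_zero fun i _ => ?_
        rw [chi_eq_zero hη (h i).le]
        simp
      rw [h0, norm_zero]
      positivity
  refine ⟨Ψ, ?_, ?_, ?_⟩
  · intro t
    rw [hΨ, seg_zero]
    simp
  · intro l
    rw [hΨ, zero_add]
    refine Finset.sum_eq_zero fun i _ => ?_
    rw [chi_eq_zero hη]
    · simp
    · rw [zero_sub, norm_neg]
      linarith [hsep0 i]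
  · intro l t ht h0
    obtain ⟨j, hj⟩ := (hbz _ (hseg l) _).1 h0
    rw [hΨ] at hj
    by_cases h : ‖t - a j‖ ≤ η
    · rw [hsum l t j (by linarith), chi_eq_one hη h] at hj
      apply ht
      rw [hbz z hzb]
      refine ⟨j, ?_⟩
      push_cast at hj
      linear_combination hj
    · push Not at h
      have h1 := hdisp l t
      have h2 := hba _ (hseg l) j
      have h3 : t - a j = -(∑ i, (chi (a i) η t : ℂ) * (b (seg z z' l) i - b z i)) +
          (b (seg z z' l) j - a j) := by
        linear_combination hj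
      have h4 : ‖t - a j‖ ≤ η / 2 + η / 4 := by
        rw [h3]
        refine (norm_add_le _ _).trans ?_
        rw [norm_neg]
        linarith
      linarith

section abs

variable {W V : Type*} [TopologicalSpace W] [TopologicalSpace V]

/-- goodness propagates from a stable direction to nearby directions -/
theorem good_near {q : W → Sp δ} (hq : IsCoveringMap q) {qV : V → Sp δ}
    (hqV : IsCoveringMap qV) {r : W → V} (hr : Continuous r) (hqr : ∀ w, qV (r w) = q w)
    (F0 : Set W) (hδ0 : MvPolynomial.eval (0 : Fin k → ℂ) δ ≠ 0) {v₁ : Fin k → ℂ}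
    (hst : RootStable δ v₁) (hgood : ¬ Bad q r F0 v₁) :
    ∀ᶠ z in 𝓝 v₁, ¬ Bad q r F0 z := by
  obtain ⟨ε, hε, hb⟩ := bump_homotopy hδ0 hst
  filter_upwards [Metric.ball_mem_nhds v₁ hε] with z hz
  rintro ⟨w0, w0', w, w', t1, hw0, hw0', ⟨c, hc, Γ, hΓ0, hΓ1, hΓ⟩,
    ⟨c', hc', Γ', hΓ0', hΓ1', hΓ'⟩, hrw, hne⟩
  obtain ⟨Ψ, h0, h00, hΨ⟩ := hb z hz v₁ (Metric.mem_ball_self hε)
  exact hgood (bad_move hq hqV hr hqr Ψ h0 h00 hc hc' (fun l τ => hΨ l _ (hc.2.2 τ))
    (fun l τ => hΨ l _ (hc'.2.2 τ)) hw0 hw0' hΓ0 hΓ1 hΓ hΓ0' hΓ1' hΓ' hrw hne)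

theorem good_all {q : W → Sp δ} (hq : IsCoveringMap q) {qV : V → Sp δ}
    (hqV : IsCoveringMap qV) {r : W → V} (hr : Continuous r) (hqr : ∀ w, qV (r w) = q w)
    (F0 : Set W) (hδ0 : MvPolynomial.eval (0 : Fin k → ℂ) δ ≠ 0)
    {Δ : MvPolynomial (Fin k) ℂ}
    (hΔ : ∀ v : Fin k → ℂ, MvPolynomial.eval v Δ ≠ 0 → RootStable δ v) {v₁ : Fin k → ℂ}
    (hv₁ : MvPolynomial.eval v₁ Δ ≠ 0) (hgood : ¬ Bad q r F0 v₁) (z : Fin k → ℂ) :
    ¬ Bad q r F0 z := by
  let L : ℂ → (Fin k → ℂ) := fun l => v₁ + l • (z - v₁)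
  have hL : Continuous L := by fun_prop
  -- the polynomial along the line
  let P : Polynomial ℂ := MvPolynomial.aeval
    (fun i => Polynomial.C (v₁ i) + Polynomial.X * Polynomial.C (z i - v₁ i)) Δ
  have hP : ∀ l, P.eval l = MvPolynomial.eval (L l) Δ := by
    intro l
    simp only [P]
    rw [MvPolynomial.aeval_def, MvPolynomial.polynomial_eval_eval₂, MvPolynomial.eval]
    have h1 : (Polynomial.evalRingHom l).comp (algebraMap ℂ (Polynomial ℂ)) = RingHom.id ℂ := by
      ext x <;> simp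
    rw [h1]
    change _ = MvPolynomial.eval₂ (RingHom.id ℂ) (L l) Δ
    congr 1
    funext i
    simp [L]
  have hP0 : P ≠ 0 := by
    intro h
    have h1 := hP 0
    rw [h, Polynomial.eval_zero] at h1
    apply hv₁
    rw [h1]
    simp [L]
  have hfin : {l : ℂ | P.eval l = 0}.Finite := by
    refine (P.roots.toFinset.finite_toSet).subset ?_
    intro l hl
    have hl' : P.eval l = 0 := hl
    simp only [Finset.mem_coe, Multiset.mem_toFinset]
    exact (Polynomial.mem_roots hP0).2 hl'
  set T : Set ℂ := {l : ℂ | P.eval l = 0}ᶜ with hT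
  have hTconn : IsPreconnected T := by
    refine (hfin.countable.isPathConnected_compl_of_one_lt_rank ?_).isConnected.isPreconnected
    rw [Complex.rank_real_complex]
    exact Nat.one_lt_ofNat
  have hTdense : Dense T := hfin.countable.dense_compl ℂ
  set G : Set ℂ := {l | ¬ Bad q r F0 (L l)} with hG
  have hGcl : IsClosed G := by
    have := ((isOpen_bad hq hqV hr hqr F0).preimage hL).isClosed_compl
    exact this
  have hnear : ∀ l ∈ G ∩ T, l ∈ interior G := by
    rintro l ⟨hl, hlT⟩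
    rw [mem_interior_iff_mem_nhds]
    have h1 : MvPolynomial.eval (L l) Δ ≠ 0 := by
      rw [← hP]
      exact hlT
    exact hL.continuousAt.eventually (good_near hq hqV hr hqr F0 hδ0 (hΔ _ h1) hl)
  have h0 : (0 : ℂ) ∈ G ∩ T := by
    constructor
    · change ¬ Bad q r F0 (L 0)
      simpa [L] using hgood
    · change ¬ (P.eval 0 = 0)
      rw [hP]
      simpa [L] using hv₁
  have hsub : T ⊆ interior G := by
    refine hTconn.subset_of_closure_inter_subset isOpen_interior ⟨0, h0.2, hnear 0 h0⟩ ?_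
    rintro l ⟨hl, hlT⟩
    refine hnear l ⟨?_, hlT⟩
    exact closure_minimal interior_subset hGcl hl
  have h1 : (1 : ℂ) ∈ G := by
    have : closure T ⊆ G := closure_minimal (hsub.trans interior_subset) hGcl
    exact this (hTdense 1)
  simpa [G, L] using h1

end abs

end Pool.Agent.TH192.Gor
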