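import Pool.Agent.Helper113.Gorin.Defs

/-!
# Transport of bad pairs between complex lines through the origin
-/

set_option autoImplicit false

open Metric Set Topology H113G

namespace Pool.Agent.TH192.Gor

section abs

variable {k : ℕ} {δ : MvPolynomial (Fin k) ℂ} {W V : Type*} [TopologicalSpace W]
  [TopologicalSpace V]

/-- two points reachable along the line of `z` with the same image under `r` -/
def Bad (q : W → Sp δ) (r : W → V) (F0 : Set W) (z : Fin k → ℂ) : Prop :=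
  ∃ (w0 w0' w w' : W) (t1 : ℂ), w0 ∈ F0 ∧ w0' ∈ F0 ∧ EndsAt q w0 w z t1 ∧
    EndsAt q w0' w' z t1 ∧ r w = r w' ∧ w ≠ w'

/-- the straight segment -/
def seg (z z' : Fin k → ℂ) (l : unitInterval) : Fin k → ℂ :=
  ((1 - (l : ℝ) : ℝ) : ℂ) • z + ((l : ℝ) : ℂ) • z'

lemma continuous_seg (z z' : Fin k → ℂ) : Continuous (seg z z') := by
  unfold seg
  fun_prop

lemma seg_zero (z z' : Fin k → ℂ) : seg z z' 0 = z := by simp [seg]

lemma seg_one (z z' : Fin k → ℂ) : seg z z' 1 = z' := by simp [seg]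

lemma continuous_eval' (δ : MvPolynomial (Fin k) ℂ) :
    Continuous (fun z : Fin k → ℂ => MvPolynomial.eval z δ) := MvPolynomial.continuous_eval δ

theorem move {q : W → Sp δ} (hq : IsCoveringMap q) (Ψ : C(unitInterval × ℂ, ℂ))
    (h0 : ∀ t, Ψ (0, t) = t) (h00 : ∀ l, Ψ (l, 0) = 0) {z z' : Fin k → ℂ} {t1 : ℂ}
    {c : C(unitInterval, ℂ)} (hc : Adm δ z t1 c)
    (hΨ : ∀ l τ, MvPolynomial.eval (Ψ (l, c τ) • seg z z' l) δ ≠ 0)
    {w0 w : W} {Γ : C(unitInterval, W)} (hΓ0 : Γ 0 = w0) (hΓ1 : Γ 1 = w)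
    (hΓ : ∀ τ, (q (Γ τ)).1 = c τ • z) :
    ∃ Θ : C(unitInterval, W), Θ 0 = w ∧ (∀ l, (q (Θ l)).1 = Ψ (l, t1) • seg z z' l) ∧
      EndsAt q w0 (Θ 1) z' (Ψ (1, t1)) := by
  obtain ⟨hc0, hc1, hcδ⟩ := hc
  let H : C(unitInterval × unitInterval, Sp δ) :=
    ⟨fun p => ⟨Ψ (p.1, c p.2) • seg z z' p.1, hΨ p.1 p.2⟩, by
      have hseg := continuous_seg z z'
      refine Continuous.subtype_mk ?_ _
      have h1 : Continuous (fun p : unitInterval × unitInterval => seg z z' p.1) := by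
        exact hseg.comp continuous_fst
      have h2 : Continuous (fun p : unitInterval × unitInterval => Ψ (p.1, c p.2)) := by
        fun_prop
      exact h2.smul h1⟩
  have hH0 : ∀ a, H (0, a) = q (Γ a) := by
    intro a
    apply Subtype.ext
    rw [hΓ a]
    change Ψ (0, c a) • seg z z' 0 = c a • z
    rw [h0, seg_zero]
  let Φ := hq.liftHomotopy H Γ hH0
  have hΦ : ∀ l τ, q (Φ (l, τ)) = H (l, τ) := fun l τ =>
    congr_fun (hq.liftHomotopy_lifts H Γ hH0) (l, τ)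
  have hΦ0 : ∀ τ, Φ (0, τ) = Γ τ := fun τ => hq.liftHomotopy_zero H Γ hH0 τ
  have hconst : ∀ l, Φ (l, 0) = w0 := by
    have h1 : (fun l : unitInterval => Φ (l, 0)) = fun _ => w0 := by
      refine hq.eq_of_comp_eq (Φ.continuous.comp (by fun_prop)) continuous_const ?_ 0 ?_
      · funext l
        apply Subtype.ext
        simp only [Function.comp]
        rw [hΦ, ← hΓ0, hΓ 0]
        change Ψ (l, c 0) • seg z z' l = c 0 • z
        rw [hc0, h00, zero_smul, zero_smul]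
      · rw [hΦ0, hΓ0]
    exact fun l => congr_fun h1 l
  refine ⟨⟨fun l => Φ (l, 1), Φ.continuous.comp (by fun_prop)⟩, ?_, ?_, ?_⟩
  · change Φ (0, 1) = w
    rw [hΦ0, hΓ1]
  · intro l
    change (q (Φ (l, 1))).1 = _
    rw [hΦ]
    change Ψ (l, c 1) • seg z z' l = _
    rw [hc1]
  · refine ⟨⟨fun τ => Ψ (1, c τ), Ψ.continuous.comp (by fun_prop)⟩, ⟨?_, ?_, ?_⟩,
      ⟨fun τ => Φ (1, τ), Φ.continuous.comp (by fun_prop)⟩, ?_, rfl, ?_⟩
    · change Ψ (1, c 0) = 0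
      rw [hc0, h00]
    · change Ψ (1, c 1) = _
      rw [hc1]
    · intro τ
      have := hΨ 1 τ
      rwa [seg_one] at this
    · exact hconst 1
    · intro τ
      change (q (Φ (1, τ))).1 = Ψ (1, c τ) • z'
      rw [hΦ]
      change Ψ (1, c τ) • seg z z' 1 = _
      rw [seg_one]

/-- moving a bad pair -/
theorem bad_move {q : W → Sp δ} (hq : IsCoveringMap q) {qV : V → Sp δ} (hqV : IsCoveringMap qV)
    {r : W → V} (hr : Continuous r) (hqr : ∀ w, qV (r w) = q w) {F0 : Set W}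
    (Ψ : C(unitInterval × ℂ, ℂ))
    (h0 : ∀ t, Ψ (0, t) = t) (h00 : ∀ l, Ψ (l, 0) = 0) {z z' : Fin k → ℂ} {t1 : ℂ}
    {c c' : C(unitInterval, ℂ)} (hc : Adm δ z t1 c) (hc' : Adm δ z t1 c')
    (hΨ : ∀ l τ, MvPolynomial.eval (Ψ (l, c τ) • seg z z' l) δ ≠ 0)
    (hΨ' : ∀ l τ, MvPolynomial.eval (Ψ (l, c' τ) • seg z z' l) δ ≠ 0)
    {w0 w0' w w' : W} {Γ Γ' : C(unitInterval, W)} (hw0 : w0 ∈ F0) (hw0' : w0' ∈ F0)
    (hΓ0 : Γ 0 = w0) (hΓ1 : Γ 1 = w) (hΓ : ∀ τ, (q (Γ τ)).1 = c τ • z)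
    (hΓ0' : Γ' 0 = w0') (hΓ1' : Γ' 1 = w') (hΓ' : ∀ τ, (q (Γ' τ)).1 = c' τ • z)
    (hrw : r w = r w') (hne : w ≠ w') : Bad q r F0 z' := by
  obtain ⟨Θ, hΘ0, hΘ, hE⟩ := move hq Ψ h0 h00 hc hΨ hΓ0 hΓ1 hΓ
  obtain ⟨Θ', hΘ0', hΘ', hE'⟩ := move hq Ψ h0 h00 hc' hΨ' hΓ0' hΓ1' hΓ'
  have hqq : q ∘ Θ = q ∘ Θ' := by
    funext l
    apply Subtype.ext
    simp only [Function.comp]
    rw [hΘ, hΘ']
  refine ⟨w0, w0', Θ 1, Θ' 1, Ψ (1, t1), hw0, hw0', hE, hE', ?_, ?_⟩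
  · have h1 : r ∘ Θ = r ∘ Θ' := by
      refine hqV.eq_of_comp_eq (hr.comp Θ.continuous) (hr.comp Θ'.continuous) ?_ 0 ?_
      · funext l
        simp only [Function.comp]
        rw [hqr, hqr]
        exact congr_fun hqq l
      · simp only [Function.comp]
        rw [hΘ0, hΘ0', hrw]
    exact congr_fun h1 1
  · intro h
    apply hne
    have h1 : (Θ : unitInterval → W) = Θ' :=
      hq.eq_of_comp_eq Θ.continuous Θ'.continuous hqq 1 h
    rw [← hΘ0, ← hΘ0', h1]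

/-- persistence of admissibility -/
lemma adm_near {z : Fin k → ℂ} {c : C(unitInterval, ℂ)}
    (hc : ∀ τ, MvPolynomial.eval (c τ • z) δ ≠ 0) :
    ∀ᶠ z' in 𝓝 z, ∀ τ, MvPolynomial.eval (c τ • z') δ ≠ 0 := by
  have hcont : Continuous (fun p : (Fin k → ℂ) × unitInterval =>
      MvPolynomial.eval (c p.2 • p.1) δ) := by
    refine (continuous_eval' δ).comp ?_
    fun_prop
  have := isCompact_univ (X := unitInterval) |>.eventually_forall_of_forall_eventually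
    (x₀ := z) (P := fun z' τ => MvPolynomial.eval (c τ • z') δ ≠ 0) (by
      intro τ _
      exact (hcont.continuousAt (x := (z, τ))).eventually_ne (hc τ))
  filter_upwards [this] with z' h τ
  exact h τ (Set.mem_univ _)

lemma seg_mem_ball {z z' x : Fin k → ℂ} {ε : ℝ} (hz : z ∈ ball x ε) (hz' : z' ∈ ball x ε)
    (l : unitInterval) : seg z z' l ∈ ball x ε := by
  have hconv := (convex_ball x ε) hz hz' (a := 1 - (l : ℝ)) (b := (l : ℝ))
    (by linarith [l.2.2]) l.2.1 (by ring)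
  convert hconv using 1
  unfold seg
  ext i
  simp

/-- the set of bad directions is open -/
theorem isOpen_bad {q : W → Sp δ} (hq : IsCoveringMap q) {qV : V → Sp δ}
    (hqV : IsCoveringMap qV) {r : W → V} (hr : Continuous r) (hqr : ∀ w, qV (r w) = q w)
    (F0 : Set W) : IsOpen {z | Bad q r F0 z} := by
  rw [isOpen_iff_mem_nhds]
  rintro z ⟨w0, w0', w, w', t1, hw0, hw0', ⟨c, hc, Γ, hΓ0, hΓ1, hΓ⟩, ⟨c', hc', Γ', hΓ0', hΓ1', hΓ'⟩,
    hrw, hne⟩
  have h1 := (adm_near hc.2.2).and (adm_near hc'.2.2)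
  obtain ⟨ε, hε, hb⟩ := Metric.eventually_nhds_iff_ball.1 h1
  filter_upwards [Metric.ball_mem_nhds z hε] with z' hz'
  refine bad_move hq hqV hr hqr (z := z) ⟨fun p => p.2, continuous_snd⟩ (fun t => rfl)
    (fun l => rfl) hc hc' (fun l τ => ?_) (fun l τ => ?_) hw0 hw0' hΓ0 hΓ1 hΓ hΓ0' hΓ1' hΓ' hrw hne
  · exact (hb _ (seg_mem_ball (Metric.mem_ball_self hε) hz' l)).1 τ
  · exact (hb _ (seg_mem_ball (Metric.mem_ball_self hε) hz' l)).2 τ

end abs

end Pool.Agent.TH192.Gor
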