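import Pool.Agent.TH192.Gor.Stable
import Pool.Agent.TH192.Gor.Jobs

/-!
# The covering of logarithms, and logarithms on the part over `{δ ≠ 0}`
-/

set_option autoImplicit false

open Metric Set Topology H113G

namespace Pool.Agent.TH192.Gor

/-- points of `Y` over `{δ ≠ 0}` together with logarithms of the `g i` -/
abbrev WL {m k ρ : ℕ} (Y : Set (Fin m → ℂ)) (pr : (Fin m → ℂ) → (Fin k → ℂ))
    (δ : MvPolynomial (Fin k) ℂ) (g : Fin ρ → (Fin m → ℂ) → ℂ) : Type :=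
  {w : (Fin m → ℂ) × (Fin ρ → ℂ) // w.1 ∈ Y ∧ MvPolynomial.eval (pr w.1) δ ≠ 0 ∧
    ∀ i, Complex.exp (w.2 i) = g i w.1}

/-- the projection -/
def qL {m k ρ : ℕ} (Y : Set (Fin m → ℂ)) (pr : (Fin m → ℂ) → (Fin k → ℂ))
    (δ : MvPolynomial (Fin k) ℂ) (g : Fin ρ → (Fin m → ℂ) → ℂ) : WL Y pr δ g → Sp δ :=
  fun w => ⟨pr w.1.1, w.2.2.1⟩

/-- the empty family -/
def g0 (m : ℕ) : Fin 0 → (Fin m → ℂ) → ℂ := fun i => i.elim0

/-- forget the logarithms -/
def rL {m k ρ : ℕ} (Y : Set (Fin m → ℂ)) (pr : (Fin m → ℂ) → (Fin k → ℂ))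
    (δ : MvPolynomial (Fin k) ℂ) (g : Fin ρ → (Fin m → ℂ) → ℂ) :
    WL Y pr δ g → WL Y pr δ (g0 m) :=
  fun w => ⟨(w.1.1, fun i => i.elim0), w.2.1, w.2.2.1, fun i => i.elim0⟩

section

variable {m k ρ : ℕ} {Y : Set (Fin m → ℂ)} {pr : (Fin m → ℂ) → (Fin k → ℂ)}
  {δ : MvPolynomial (Fin k) ℂ} {e : ℕ} {g : Fin ρ → (Fin m → ℂ) → ℂ}

lemma continuous_rL : Continuous (rL Y pr δ g) := by
  unfold rL
  fun_prop

lemma qL_rL (w : WL Y pr δ g) : qL Y pr δ (g0 m) (rL Y pr δ g w) = qL Y pr δ g w := rfl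

lemma isCov_qL (h : Cov Y pr δ e) (hg : ∀ i, ContinuousOn (g i) Y)
    (hg0 : ∀ i, ∀ y ∈ Y, g i y ≠ 0) : IsCoveringMap (qL Y pr δ g) := covering h g hg hg0

lemma isCov_q0 (h : Cov Y pr δ e) : IsCoveringMap (qL Y pr δ (g0 m)) :=
  covering h (g0 m) (fun i => i.elim0) (fun i => i.elim0)

/-- an admissible path in the line of `z` from `0` to `t₁` -/
lemma exists_adm (hδ0 : MvPolynomial.eval (0 : Fin k → ℂ) δ ≠ 0) (z : Fin k → ℂ) {t₁ : ℂ}
    (ht₁ : MvPolynomial.eval (t₁ • z) δ ≠ 0) : ∃ c, Adm δ z t₁ c := by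
  let P : Polynomial ℂ := MvPolynomial.aeval
    (fun i => Polynomial.X * Polynomial.C (z i)) δ
  have hP : ∀ l, P.eval l = MvPolynomial.eval (l • z) δ := by
    intro l
    simp only [P]
    rw [MvPolynomial.aeval_def, MvPolynomial.polynomial_eval_eval₂, MvPolynomial.eval]
    have h1 : (Polynomial.evalRingHom l).comp (algebraMap ℂ (Polynomial ℂ)) = RingHom.id ℂ := by
      ext x; simp
    rw [h1]
    change _ = MvPolynomial.eval₂ (RingHom.id ℂ) (l • z) δ
    congr 1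
    funext i
    simp only [Polynomial.coe_evalRingHom, Polynomial.eval_mul, Polynomial.eval_X,
      Polynomial.eval_C, Pi.smul_apply, smul_eq_mul]
  have hP0 : P ≠ 0 := by
    intro h
    have h1 := hP 0
    rw [h, Polynomial.eval_zero, zero_smul] at h1
    exact hδ0 h1.symm
  have hfin : {l : ℂ | P.eval l = 0}.Finite := by
    refine (P.roots.toFinset.finite_toSet).subset ?_
    intro l hl
    have hl' : P.eval l = 0 := hl
    simp only [Finset.mem_coe, Multiset.mem_toFinset]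
    exact (Polynomial.mem_roots hP0).2 hl'
  have hconn : IsPathConnected ({l : ℂ | P.eval l = 0}ᶜ) := by
    refine hfin.countable.isPathConnected_compl_of_one_lt_rank ?_
    rw [Complex.rank_real_complex]
    exact Nat.one_lt_ofNat
  have h0 : (0 : ℂ) ∈ ({l : ℂ | P.eval l = 0}ᶜ : Set ℂ) := by
    change ¬ (P.eval 0 = 0)
    rw [hP, zero_smul]
    exact hδ0
  have h1 : t₁ ∈ ({l : ℂ | P.eval l = 0}ᶜ : Set ℂ) := by
    change ¬ (P.eval t₁ = 0)
    rw [hP]
    exact ht₁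
  obtain ⟨γ, hγ⟩ := hconn.joinedIn 0 h0 t₁ h1
  refine ⟨γ.toContinuousMap, γ.source, γ.target, fun τ => ?_⟩
  have := hγ τ
  change ¬ (P.eval (γ τ) = 0) at this
  rw [hP] at this
  exact this

theorem hasLog_of_slice (h : Cov Y pr δ e) {f : (Fin m → ℂ) → ℂ} (hf : ContinuousOn f Y)
    (hf0 : ∀ y ∈ Y, f y ≠ 0) {Δ : MvPolynomial (Fin k) ℂ}
    (hΔ : ∀ v : Fin k → ℂ, MvPolynomial.eval v Δ ≠ 0 → RootStable δ v) {v₁ : Fin k → ℂ}
    (hv₁ : MvPolynomial.eval v₁ Δ ≠ 0)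
    (hlog : HasLog {y | y ∈ Y ∧ ∃ t : ℂ, pr y = t • v₁ ∧ MvPolynomial.eval (t • v₁) δ ≠ 0} f) :
    HasLog {y | y ∈ Y ∧ MvPolynomial.eval (pr y) δ ≠ 0} f := by
  classical
  obtain ⟨H, hHc, hH⟩ := hlog
  set S : Set (Fin m → ℂ) :=
    {y | y ∈ Y ∧ ∃ t : ℂ, pr y = t • v₁ ∧ MvPolynomial.eval (t • v₁) δ ≠ 0} with hS
  have hδ0 := h.base
  set gg : Fin 1 → (Fin m → ℂ) → ℂ := fun _ => f with hgg
  have hq : IsCoveringMap (qL Y pr δ gg) := isCov_qL h (fun _ => hf) (fun _ => hf0)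
  have hq0 : IsCoveringMap (qL Y pr δ (g0 m)) := isCov_q0 h
  set q := qL Y pr δ gg with hqdef
  set F0 : Set (WL Y pr δ gg) := {w | pr w.1.1 = 0 ∧ w.1.2 0 = H w.1.1} with hF0
  -- the line of `v₁` is good
  have key : ∀ w0 ∈ F0, ∀ w t1, EndsAt q w0 w v₁ t1 → w.1.2 0 = H w.1.1 := by
    rintro w0 ⟨-, hw0⟩ w t1 ⟨c, hc, Γ, hΓ0, hΓ1, hΓ⟩
    have hmem : ∀ τ, (Γ τ).1.1 ∈ S := by
      intro τ
      refine ⟨(Γ τ).2.1, c τ, hΓ τ, hc.2.2 τ⟩
    let Γ2 : unitInterval → WL Y pr δ gg := fun τ =>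
      ⟨((Γ τ).1.1, fun _ => H (Γ τ).1.1), (Γ τ).2.1, (Γ τ).2.2.1, fun _ => hH _ (hmem τ)⟩
    have hc1 : Continuous (fun τ => (Γ τ).1.1) := by
      exact continuous_fst.comp (continuous_subtype_val.comp Γ.continuous)
    have hc2 : Continuous Γ2 := by
      refine Continuous.subtype_mk (hc1.prodMk (continuous_pi fun _ => ?_)) _
      exact hHc.comp_continuous hc1 hmem
    have h1 : Γ2 = Γ := by
      refine hq.eq_of_comp_eq hc2 Γ.continuous ?_ 0 ?_
      · funext τ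
        rfl
      · apply Subtype.ext
        refine Prod.ext rfl ?_
        funext i
        fin_cases i
        simp only [Γ2, hΓ0]
        exact hw0.symm
    have h2 := congr_fun h1 1
    rw [hΓ1] at h2
    have h3 : (Γ2 1).1.2 0 = w.1.2 0 := by rw [h2]
    rw [← h3]
    simp only [Γ2, hΓ1]
  have hgood1 : ¬ Bad q (rL Y pr δ gg) F0 v₁ := by
    rintro ⟨w0, w0', w, w', t1, hw0, hw0', hE, hE', hr, hne⟩
    apply hne
    have h1 := key w0 hw0 w t1 hE
    have h2 := key w0' hw0' w' t1 hE'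
    have h3 : w.1.1 = w'.1.1 := congrArg (fun x : WL Y pr δ (g0 m) => x.1.1) hr
    apply Subtype.ext
    refine Prod.ext h3 ?_
    funext i
    fin_cases i
    change w.1.2 0 = w'.1.2 0
    rw [h1, h2, h3]
  have hgood := good_all hq hq0 continuous_rL (fun w => qL_rL w) F0 hδ0 hΔ hv₁ hgood1
  -- every point is reached
  have hreach : ∀ y : Yo Y pr δ, ∃ (w : WL Y pr δ gg) (w0 : WL Y pr δ gg), w.1.1 = y.1 ∧
      w0 ∈ F0 ∧ EndsAt q w0 w (pr y.1) 1 := by
    intro y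
    obtain ⟨c, hc⟩ := exists_adm hδ0 (pr y.1) (t₁ := 1) (by rw [one_smul]; exact y.2.2)
    have hc' := hc
    obtain ⟨hc0, hc1, hcδ⟩ := hc'
    let y' : WL Y pr δ (g0 m) := ⟨(y.1, fun i => i.elim0), y.2.1, y.2.2, fun i => i.elim0⟩
    let γ : C(unitInterval, Sp δ) := ⟨fun τ => ⟨c τ • pr y.1, hcδ τ⟩, by fun_prop⟩
    let γr : C(unitInterval, Sp δ) := ⟨fun τ => γ (unitInterval.symm τ), by fun_prop⟩
    obtain ⟨Γr, hΓr, hΓr0⟩ := hq0.exists_path_lifts γr y' (by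
      apply Subtype.ext
      change c (unitInterval.symm 0) • pr y.1 = pr y.1
      rw [unitInterval.symm_zero, hc1, one_smul])
    have hy0 : pr (Γr 1).1.1 = 0 := by
      have h1 := congr_fun hΓr 1
      have h2 : (qL Y pr δ (g0 m) (Γr 1)).1 = c (unitInterval.symm 1) • pr y.1 := by
        exact congrArg Subtype.val h1
      rw [unitInterval.symm_one, hc0, zero_smul] at h2
      exact h2
    have hy0S : (Γr 1).1.1 ∈ S :=
      ⟨(Γr 1).2.1, 0, by rw [hy0, zero_smul], by rw [zero_smul]; exact hδ0⟩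
    let w0 : WL Y pr δ gg :=
      ⟨((Γr 1).1.1, fun _ => H (Γr 1).1.1), (Γr 1).2.1, (Γr 1).2.2.1, fun _ => hH _ hy0S⟩
    obtain ⟨Γ, hΓ, hΓ0⟩ := hq.exists_path_lifts γ w0 (by
      apply Subtype.ext
      change c 0 • pr y.1 = pr (Γr 1).1.1
      rw [hc0, zero_smul, hy0])
    have h2 : rL Y pr δ gg ∘ Γ = fun τ => Γr (unitInterval.symm τ) := by
      refine hq0.eq_of_comp_eq (continuous_rL.comp Γ.continuous)
        (Γr.continuous.comp unitInterval.continuous_symm) ?_ 0 ?_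
      · funext τ
        have h3 := congr_fun hΓ τ
        have h4 := congr_fun hΓr (unitInterval.symm τ)
        simp only [Function.comp] at h3 h4 ⊢
        change q (Γ τ) = _
        rw [h3, h4]
        change γ τ = γ (unitInterval.symm (unitInterval.symm τ))
        rw [unitInterval.symm_symm]
      · simp only [Function.comp]
        rw [hΓ0, unitInterval.symm_zero]
        apply Subtype.ext
        refine Prod.ext rfl ?_
        funext i
        exact i.elim0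
    refine ⟨Γ 1, w0, ?_, ⟨hy0, rfl⟩, c, hc, Γ, hΓ0, rfl, fun τ => ?_⟩
    · have h3 := congr_fun h2 1
      simp only [Function.comp] at h3
      rw [unitInterval.symm_one, hΓr0] at h3
      exact congrArg (fun x : WL Y pr δ (g0 m) => x.1.1) h3
    · exact congrArg Subtype.val (congr_fun hΓ τ)
  choose ω ω0 hω hω0 hωE using hreach
  -- uniqueness
  have huniq : ∀ (y : Yo Y pr δ) (w w0 : WL Y pr δ gg), w.1.1 = y.1 → w0 ∈ F0 →
      EndsAt q w0 w (pr y.1) 1 → w = ω y := by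
    intro y w w0 hw hw0 hE
    by_contra hne
    refine hgood (pr y.1) ⟨w0, ω0 y, w, ω y, 1, hw0, hω0 y, hE, hωE y, ?_, hne⟩
    apply Subtype.ext
    refine Prod.ext ?_ ?_
    · change w.1.1 = (ω y).1.1
      rw [hw, hω]
    · funext i
      exact i.elim0
  -- continuity
  have hcont : Continuous (fun y : Yo Y pr δ => (ω y).1.2 0) := by
    rw [continuous_iff_continuousAt]
    intro y
    obtain ⟨c, hc, Γ, hΓ0, hΓ1, hΓ⟩ := hωE y
    obtain ⟨ε, hε, hb⟩ := Metric.eventually_nhds_iff_ball.1 (adm_near hc.2.2)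
    let HH : C(unitInterval × {z' : Fin k → ℂ // z' ∈ ball (pr y.1) ε}, Sp δ) :=
      ⟨fun p => ⟨c p.1 • p.2.1, hb _ p.2.2 p.1⟩, by fun_prop⟩
    have hHH0 : ∀ a : {z' : Fin k → ℂ // z' ∈ ball (pr y.1) ε}, HH (0, a) = q (ω0 y) := by
      intro a
      apply Subtype.ext
      change c 0 • a.1 = pr (ω0 y).1.1
      rw [hc.1, zero_smul, (hω0 y).1]
    let Φ := hq.liftHomotopy HH (ContinuousMap.const _ (ω0 y)) hHH0
    have hΦ : ∀ τ a, q (Φ (τ, a)) = HH (τ, a) := fun τ a =>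
      congr_fun (hq.liftHomotopy_lifts HH (ContinuousMap.const _ (ω0 y)) hHH0) (τ, a)
    have hΦ0 : ∀ a, Φ (0, a) = ω0 y := fun a =>
      hq.liftHomotopy_zero HH (ContinuousMap.const _ (ω0 y)) hHH0 a
    have hE : ∀ a : {z' : Fin k → ℂ // z' ∈ ball (pr y.1) ε}, EndsAt q (ω0 y) (Φ (1, a)) a.1 1 := by
      intro a
      refine ⟨c, ⟨hc.1, hc.2.1, hb _ a.2⟩, ⟨fun τ => Φ (τ, a), Φ.continuous.comp (by fun_prop)⟩,
        hΦ0 a, rfl, fun τ => ?_⟩
      exact congrArg Subtype.val (hΦ τ a)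
    have hy : Φ (1, ⟨pr y.1, Metric.mem_ball_self hε⟩) = ω y := by
      have h1 : (fun τ => Φ (τ, ⟨pr y.1, Metric.mem_ball_self hε⟩)) = Γ := by
        refine hq.eq_of_comp_eq (Φ.continuous.comp (by fun_prop)) Γ.continuous ?_ 0 ?_
        · funext τ
          simp only [Function.comp]
          rw [hΦ]
          apply Subtype.ext
          exact (hΓ τ).symm
        · rw [hΓ0]
          exact hΦ0 _
      rw [← hΓ1]
      exact congr_fun h1 1
    -- local agreement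
    have hprc : Continuous pr := h.diff.continuous
    have hNopen : IsOpen {y' : Yo Y pr δ | pr y'.1 ∈ ball (pr y.1) ε} :=
      isOpen_ball.preimage (hprc.comp continuous_subtype_val)
    let α : {y' : Yo Y pr δ // pr y'.1 ∈ ball (pr y.1) ε} → WL Y pr δ (g0 m) := fun y' => rL Y pr δ gg (Φ (1, ⟨pr y'.1.1, y'.2⟩))
    let β : {y' : Yo Y pr δ // pr y'.1 ∈ ball (pr y.1) ε} → WL Y pr δ (g0 m) := fun y' =>
      ⟨(y'.1.1, fun i => i.elim0), y'.1.2.1, y'.1.2.2, fun i => i.elim0⟩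
    have hcN : Continuous (fun y' : {y' : Yo Y pr δ // pr y'.1 ∈ ball (pr y.1) ε} => (⟨pr y'.1.1, y'.2⟩ : {z' : Fin k → ℂ // z' ∈ ball (pr y.1) ε})) :=
      Continuous.subtype_mk (hprc.comp (continuous_subtype_val.comp continuous_subtype_val)) _
    have hΦ1 : Continuous (fun a : {z' : Fin k → ℂ // z' ∈ ball (pr y.1) ε} => Φ (1, a)) := Φ.continuous.comp (by fun_prop)
    have hα : Continuous α := continuous_rL.comp (hΦ1.comp hcN)
    have hβ : Continuous β := by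
      refine Continuous.subtype_mk ?_ _
      exact (continuous_subtype_val.comp continuous_subtype_val).prodMk continuous_const
    have hopen : IsOpen {y' : {y' : Yo Y pr δ // pr y'.1 ∈ ball (pr y.1) ε} | α y' = β y'} := by
      refine hq0.isLocalHomeomorph.isLocallyInjective.isOpen_eqLocus hα hβ ?_
      funext y'
      simp only [Function.comp, α]
      rw [qL_rL]
      change q (Φ (1, ⟨pr y'.1.1, y'.2⟩)) = _
      rw [hΦ]
      apply Subtype.ext
      change c 1 • pr y'.1.1 = pr y'.1.1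
      rw [hc.2.1, one_smul]
    have hyN : (⟨y, Metric.mem_ball_self hε⟩ : {y' : Yo Y pr δ // pr y'.1 ∈ ball (pr y.1) ε}) ∈ {y' : {y' : Yo Y pr δ // pr y'.1 ∈ ball (pr y.1) ε} | α y' = β y'} := by
      change rL Y pr δ gg (Φ (1, ⟨pr y.1, _⟩)) = _
      rw [hy]
      apply Subtype.ext
      refine Prod.ext (hω y) ?_
      funext i
      exact i.elim0
    have hval : ∀ y' : {y' : Yo Y pr δ // pr y'.1 ∈ ball (pr y.1) ε}, α y' = β y' → ω y'.1 = Φ (1, ⟨pr y'.1.1, y'.2⟩) := by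
      intro y' hy'
      symm
      refine huniq y'.1 _ (ω0 y) ?_ (hω0 y) (hE _)
      exact congrArg (fun x : WL Y pr δ (g0 m) => x.1.1) hy'
    -- transfer
    have hcN2 : ContinuousAt (fun y' : {y' : Yo Y pr δ // pr y'.1 ∈ ball (pr y.1) ε} => (ω y'.1).1.2 0) ⟨y, Metric.mem_ball_self hε⟩ := by
      have h1 : Continuous (fun y' : {y' : Yo Y pr δ // pr y'.1 ∈ ball (pr y.1) ε} => (Φ (1, (⟨pr y'.1.1, y'.2⟩ : {z' : Fin k → ℂ // z' ∈ ball (pr y.1) ε}))).1.2 0) := by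
        have h2 : Continuous (fun w : WL Y pr δ gg => w.1.2 0) := by fun_prop
        exact h2.comp (hΦ1.comp hcN)
      refine h1.continuousAt.congr ?_
      filter_upwards [hopen.mem_nhds hyN] with y' hy'
      rw [hval y' hy']
    have hemb : IsOpenEmbedding
        (Subtype.val : {y' : Yo Y pr δ // pr y'.1 ∈ ball (pr y.1) ε} → Yo Y pr δ) :=
      hNopen.isOpenEmbedding_subtypeVal
    exact (hemb.continuousAt_iff (g := fun y' : Yo Y pr δ => (ω y').1.2 0)).1 hcN2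
  -- conclusion
  refine ⟨fun y => if hy : y ∈ Y ∧ MvPolynomial.eval (pr y) δ ≠ 0 then (ω ⟨y, hy⟩).1.2 0 else 0,
    ?_, ?_⟩
  · rw [continuousOn_iff_continuous_domRestrict]
    convert! hcont using 1
    funext y
    simp only [Set.domRestrict_apply]
    exact dif_pos y.2
  · intro y hy
    have hy' : y ∈ Y ∧ MvPolynomial.eval (pr y) δ ≠ 0 := hy
    simp only [dif_pos hy']
    rw [(ω ⟨y, hy'⟩).2.2.2 0, hω]

end

end Pool.Agent.TH192.Gor
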